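import Pool.Agent.R889.PZ.NPD

/-!
Overlapping edges in compositions of blocks; one block with coincidences is enough.
-/

set_option autoImplicit false

namespace Pool.Agent.R889.PZ
open Pool.Agent.H812R2.PI Pool.Agent.TH100.Pisot
open scoped BigOperators

variable {m : ℕ} {κ E Q : ℝ}

theorem pa_ev (f : Fin (m+1) → ℝ) (a : Fin (m+1)) : pa f (rv (ev a)) = f a := by
  unfold pa rv ev
  simp

theorem pa_rv_zero (f : Fin (m+1) → ℝ) : pa f (rv 0) = 0 := by
  simp [pa, rv]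

theorem ra_eq (f : Fin (m+1) → ℝ) (τ : Fin (m+1) → List (Fin (m+1))) (a : Fin (m+1)) :
    ra f (inc τ) a = pa f (rv (ab (τ a))) := rfl

theorem exists_edge (f : Fin (m+1) → ℝ) (w : List (Fin (m+1))) : ∀ (z : Fin (m+1) → ℤ) (p : ℝ),
    pa f (rv z) ≤ p → p < pa f (rv (z + ab w)) →
      ∃ e ∈ edges z w, pa f (rv e.1) ≤ p ∧ p < pa f (rv e.1) + f e.2 := by
  induction w with
  | nil =>
    intro z p h1 h2
    rw [ab_nil, add_zero] at h2
    linarith
  | cons a w ih =>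
    intro z p h1 h2
    by_cases h : p < pa f (rv z) + f a
    · exact ⟨(z, a), by simp [edges], h1, h⟩
    · push Not at h
      have h3 : pa f (rv (z + ev a)) = pa f (rv z) + f a := by
        rw [rv_add, pa_add, pa_ev]
      have h4 : z + ab (a :: w) = z + ev a + ab w := by
        rw [ab_cons]
        abel
      rw [h4] at h2
      obtain ⟨e, he, h5⟩ := ih (z + ev a) p (by rw [h3]; exact h) h2
      exact ⟨e, by simp only [edges]; exact List.mem_cons_of_mem _ he, h5⟩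

theorem ov_step (f : Fin (m+1) → ℝ) (τ : Fin (m+1) → List (Fin (m+1))) (a b : Fin (m+1))
    (v : Fin (m+1) → ℤ) (h : Overlap (ra f (inc τ)) a b v) :
    ∃ e ∈ edges 0 (τ a), ∃ e' ∈ edges ((inc τ).mulVec v) (τ b),
      Overlap f e.2 e'.2 (e'.1 - e.1) := by
  unfold Overlap at h
  have hx : ∑ i, ra f (inc τ) i * (v i : ℝ) = pa f (rv ((inc τ).mulVec v)) := by
    have h1 : ∑ i, ra f (inc τ) i * (v i : ℝ) = pa (ra f (inc τ)) (rv v) := rfl
    rw [h1, pa_ra, rv_mulVec]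
  rw [hx] at h
  obtain ⟨x, hxd⟩ : ∃ x, x = pa f (rv ((inc τ).mulVec v)) := ⟨_, rfl⟩
  rw [← hxd] at h
  obtain ⟨p, hp⟩ : ∃ p, p = max 0 x := ⟨_, rfl⟩
  rw [← hp, lt_min_iff] at h
  obtain ⟨e, he, h1, h2⟩ := exists_edge f (τ a) 0 p (by rw [pa_rv_zero, hp]; exact le_max_left _ _)
    (by rw [zero_add, ← ra_eq]; exact h.1)
  obtain ⟨e', he', h3, h4⟩ := exists_edge f (τ b) ((inc τ).mulVec v) p
    (by rw [← hxd, hp]; exact le_max_right _ _)
    (by rw [rv_add, pa_add, ← ra_eq, ← hxd]; exact h.2)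
  refine ⟨e, he, e', he', ?_⟩
  unfold Overlap
  have h5 : ∑ i, f i * (((e'.1 - e.1) i : ℤ) : ℝ) = pa f (rv e'.1) - pa f (rv e.1) := by
    have h6 : ∑ i, f i * (((e'.1 - e.1) i : ℤ) : ℝ) = pa f (rv (e'.1 - e.1)) := rfl
    rw [h6, rv_sub, pa_sub]
  rw [h5, max_lt_iff, lt_min_iff, lt_min_iff]
  exact ⟨⟨by linarith, by linarith⟩, by linarith, by linarith⟩

/-- one block sends overlapping pairs to overlapping pairs at controlled distance -/
theorem blk_ov {τ : Fin (m+1) → List (Fin (m+1))} (hτ : Blk κ E Q τ) (D : ℝ)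
    (f : Fin (m+1) → ℝ) (hf : Cmp κ f) (g : Fin (m+1) → ℝ) (hg : ∀ i, 0 < g i)
    (a b : Fin (m+1)) (v : Fin (m+1) → ℤ) (hv : nm (pj (ra f (inc τ)) g (rv v)) ≤ D)
    (h : Overlap (ra f (inc τ)) a b v) :
    ∃ e ∈ edges 0 (τ a), ∃ e' ∈ edges ((inc τ).mulVec v) (τ b),
      Overlap f e.2 e'.2 (e'.1 - e.1) ∧
      nm (pj f (act (inc τ) g) (rv (e'.1 - e.1))) ≤ 1 / 2 * D + 2 * E := by
  obtain ⟨e, he, e', he', ho⟩ := ov_step f τ a b v h
  refine ⟨e, he, e', he', ho, ?_⟩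
  obtain ⟨k, hk, rfl⟩ := mem_edges.1 he
  obtain ⟨l, hl, rfl⟩ := mem_edges.1 he'
  simp only
  rw [zero_add, add_sub_assoc, rv_add, rv_mulVec, rv_sub, pj_add, pj_sub, ← pj_comm]
  have hf' := hτ.cmp f hf.1
  have h1 := hτ.con f hf.1 (pj (ra f (inc τ)) g (rv v)) (pa_pj _ _ _ (pa_pos hf'.1 hg).ne')
  have h2 := hτ.pre f hf g hg a k
  have h3 := hτ.pre f hf g hg b l
  refine (nm_add _ _).trans ?_
  rw [sub_eq_add_neg]
  have h4 := nm_add (pj f (act (inc τ) g) (rv (ab ((τ b).take l))))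
    (-pj f (act (inc τ) g) (rv (ab ((τ a).take k))))
  rw [nm_neg] at h4
  linarith

theorem list_ov (hQ : 0 < Q) (D : ℝ) (hD : 4 * E ≤ D) (l : List (Fin (m+1) → List (Fin (m+1))))
    (hl : ∀ τ ∈ l, Blk κ E Q τ) : ∀ f : Fin (m+1) → ℝ, Cmp κ f → ∀ g : Fin (m+1) → ℝ,
    (∀ i, 0 < g i) → ∀ a b v, nm (pj (ra f (inc (compList l))) g (rv v)) ≤ D →
    Overlap (ra f (inc (compList l))) a b v →
    ∃ e ∈ edges 0 (compList l a), ∃ e' ∈ edges ((inc (compList l)).mulVec v) (compList l b),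
      Overlap f e.2 e'.2 (e'.1 - e.1) ∧
      nm (pj f (act (inc (compList l)) g) (rv (e'.1 - e.1))) ≤ D := by
  induction l with
  | nil =>
    intro f hf g hg a b v hv h
    simp only [compList] at hv h ⊢
    rw [JComp_inc_id, ra_one] at hv h
    rw [JComp_inc_id, act_one, Matrix.one_mulVec]
    exact ⟨(0, a), by simp [edges], (v, b), by simp [edges], by simpa using h, by simpa using hv⟩
  | cons τ l ih =>
    intro f hf g hg a b v hv h
    have h0 := hl τ (List.mem_cons_self ..)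
    have hl' : ∀ τ' ∈ l, Blk κ E Q τ' := fun τ' h => hl τ' (List.mem_cons_of_mem _ h)
    have hf' := h0.cmp f hf.1
    have hg' := list_pos hQ l hl' hg
    simp only [compList] at hv h ⊢
    rw [inc_comp, ra_mul] at hv h
    obtain ⟨e, he, e', he', ho, hn⟩ := ih hl' _ hf' g hg a b v hv h
    obtain ⟨t, ht, t', ht', ho2, hn2⟩ := blk_ov h0 D f hf _ hg' e.2 e'.2 (e'.1 - e.1) hn ho
    refine ⟨_, JComp_mem0 he ht, _, JComp_mem1 he' ht', ?_, ?_⟩
    · simp only [add_sub_add_right_eq_sub]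
      exact ho2
    · simp only [add_sub_add_right_eq_sub]
      rw [inc_comp, act_mul]
      linarith

theorem nm_rv_le {f g : Fin (m+1) → ℝ} (hf : Cmp κ f) (hg : ∀ i, 0 < g i) {a b : Fin (m+1)}
    {v : Fin (m+1) → ℤ} (hO : Overlap f a b v) : nm (rv v) ≤ nm (pj f g (rv v)) + κ := by
  have h1 : rv v = pj f g (rv v) + fun i => pa f (rv v) / pa f g * g i := by
    funext i
    simp [pj]
  have hp := pa_pos hf.1 hg
  have h0 : nm (rv v) ≤ nm (pj f g (rv v)) + nm (fun i => pa f (rv v) / pa f g * g i) := by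
    conv_lhs => rw [h1]
    exact nm_add _ _
  refine h0.trans (add_le_add le_rfl ?_)
  rw [nm_smul, abs_div, abs_of_pos hp, div_mul_eq_mul_div, div_le_iff₀ hp]
  have h2 : ∃ c, |pa f (rv v)| ≤ f c := by
    unfold Overlap at hO
    have h3 : ∑ i, f i * (v i : ℝ) = pa f (rv v) := rfl
    rw [h3, max_lt_iff, lt_min_iff, lt_min_iff] at hO
    rcases abs_cases (pa f (rv v)) with h | h
    · exact ⟨a, by rw [h.1]; exact hO.2.1.le⟩
    · exact ⟨b, by rw [h.1]; linarith [hO.1.2]⟩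
  obtain ⟨c, hc⟩ := h2
  refine (mul_le_mul_of_nonneg_right hc (nm_nonneg _)).trans ?_
  rw [nm_pos_eq hg, Finset.mul_sum]
  unfold pa
  rw [Finset.mul_sum]
  refine Finset.sum_le_sum fun j _ => ?_
  have h4 := mul_le_mul_of_nonneg_right (hf.2 c j) (hg j).le
  linarith

/-- a composition of blocks one of which has coincidences -/
theorem list_good2 (hQ : 0 < Q) (hE : 1 + κ ≤ E) (l1 l2 : List (Fin (m+1) → List (Fin (m+1))))
    (τ : Fin (m+1) → List (Fin (m+1)))
    (hl : ∀ τ' ∈ l1 ++ [τ] ++ l2, Blk κ E Q τ')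
    (hb : Hb ((16 * (2 + (1 + κ) * (m + 1)) ^ 2 + 4) * (2 * E) + κ) τ)
    (hM : PisotMat (inc (compList (l1 ++ [τ] ++ l2)))) (P : PD (inc (compList (l1 ++ [τ] ++ l2)))) :
    Good P.ell (compList (l1 ++ [τ] ++ l2)) := by
  have hne : l1 ++ [τ] ++ l2 ≠ [] := by simp
  have hcmp := pd_cmp hQ _ hl hne P
  have hκ := hcmp.one_le
  have hlam : 0 < P.lam := lt_trans one_pos P.lam_gt
  obtain ⟨R, hR⟩ : ∃ R, R = mkPD hQ _ hl hne P := ⟨_, rfl⟩
  have hRN : ∀ x, R.N x = nm (pj P.ell P.u x) := fun x => by rw [hR]; rfl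
  have hRc : R.c = 2 + (1 + κ) * (m + 1) := by rw [hR]; rfl
  have hRr : R.rho = 1 / 2 := by rw [hR]; rfl
  have hRe : R.ell = P.ell := by rw [hR]; rfl
  obtain ⟨D, hD⟩ : ∃ D, D = (16 * (2 + (1 + κ) * ((m:ℝ) + 1)) ^ 2 + 4) * (2 * E) := ⟨_, rfl⟩
  have hE0 : 0 < 2 * E := by linarith
  have hD4 : 4 * E ≤ D := by
    rw [hD]
    have := sq_nonneg (2 + (1 + κ) * ((m:ℝ) + 1))
    nlinarith
  have hpre : ∀ a j, R.N (rv (ab ((compList (l1 ++ [τ] ++ l2) a).take j))) ≤ 2 * E := by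
    intro a j
    rw [hRN]
    have h1 := list_pre hQ hE _ hl P.ell hcmp P.u P.u_pos a j
    rw [pd_act] at h1
    have h4 := pj_dir P.ell P.u (rv (ab ((compList (l1 ++ [τ] ++ l2) a).take j))) 1 P.lam
      one_ne_zero hlam.ne'
    simp only [one_mul] at h4
    rw [h4] at h1
    exact h1
  have hcomp : compList (l1 ++ [τ] ++ l2) = comp (compList l1) (comp τ (compList l2)) := by
    rw [List.append_assoc, compList_append]
    rfl
  have hhit : R.Hit (compList (l1 ++ [τ] ++ l2)) D := by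
    intro a b v hv hO
    rw [ov_pos_iff, hRe] at hO
    rw [hRN] at hv
    have hl1 : ∀ τ' ∈ l1, Blk κ E Q τ' := fun τ' h =>
      hl τ' (List.mem_append_left _ (List.mem_append_left _ h))
    have hl2 : ∀ τ' ∈ l2, Blk κ E Q τ' := fun τ' h => hl τ' (List.mem_append_right _ h)
    have hτ : Blk κ E Q τ :=
      hl τ (List.mem_append_left _ (List.mem_append_right _ (List.mem_singleton_self τ)))
    have hpos := list_rpos hQ l1 hl1 P.ell_pos
    have hf2 := hτ.cmp _ hpos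
    have hra : ra (ra (ra P.ell (inc (compList l1))) (inc τ)) (inc (compList l2)) =
        fun i => P.lam * P.ell i := by
      rw [← ra_mul, ← ra_mul, ← pd_ra P]
      have h1 : ∀ f : Fin (m+1) → ℝ, ra f (inc (compList l1) * (inc τ * inc (compList l2))) =
          ra f (inc (compList (l1 ++ [τ] ++ l2))) := by
        intro f
        rw [hcomp, inc_comp, inc_comp]
      exact h1 P.ell
    have hv2 : nm (pj (ra (ra (ra P.ell (inc (compList l1))) (inc τ)) (inc (compList l2))) P.u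
        (rv v)) ≤ D := by
      rw [hra]
      have h4 := pj_dir P.ell P.u (rv v) P.lam 1 hlam.ne' one_ne_zero
      simp only [one_mul] at h4
      rw [h4]
      exact hv
    have hO2 : Overlap (ra (ra (ra P.ell (inc (compList l1))) (inc τ)) (inc (compList l2))) a b v := by
      rw [hra]
      exact (overlap_smul hlam (fun i => rfl) a b v).2 hO
    obtain ⟨e, he, e', he', ho, hn⟩ := list_ov hQ D hD4 l2 hl2 _ hf2 P.u P.u_pos a b v hv2 hO2
    have hn2 : nm (rv (e'.1 - e.1)) ≤ D + κ :=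
      (nm_rv_le hf2 (list_pos hQ l2 hl2 P.u_pos) ho).trans (by linarith)
    rw [hD] at hn2
    obtain ⟨t, ht, ht'⟩ := hb _ hpos e.2 e'.2 (e'.1 - e.1) hn2 ho
    have h6 := persist (S := compList l1) (T := comp τ (compList l2)) (ne_nil_of_rpos hpos)
      ⟨_, JComp_mem0 he ht, JComp_mem1 he' ht'⟩
    rw [hcomp]
    exact h6
  have hdet : IsUnit (inc (compList (l1 ++ [τ] ++ l2))).det := by
    rcases hM.2.1 with h | h <;> rw [h] <;> simp
  refine ⟨hM, ?_, ?_⟩
  · have h := gcc_of_hit R (compList (l1 ++ [τ] ++ l2)) rfl (2 * E) D hE0 (by rw [hRc, hD])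
      (by rw [hRr]) hpre hhit
    rw [hRe] at h
    exact h
  · exact JFin_semi R hdet (2 * E) D hE0.le (by rw [hRc, hD]) (by rw [hRr]) 1 le_rfl _
      (by rw [pow_one]) hpre hhit

end Pool.Agent.R889.PZ
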