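import Mathlib

/-!
A monic integer polynomial with one simple dominant root is irreducible.
-/

set_option autoImplicit false

namespace Pool.Agent.R889.PZ
open Polynomial

theorem norm_prod_lt (s : Multiset ℂ) (h : ∀ μ ∈ s, ‖μ‖ < 1) :
    ‖s.prod‖ ≤ 1 ∧ (s ≠ 0 → ‖s.prod‖ < 1) := by
  induction s using Multiset.induction with
  | empty => simp
  | cons a s ih =>
    have h1 := (ih fun μ hμ => h μ (Multiset.mem_cons_of_mem hμ)).1
    have h2 := h a (Multiset.mem_cons_self a s)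
    rw [Multiset.prod_cons, norm_mul]
    have h3 := norm_nonneg a
    have h4 := norm_nonneg s.prod
    have h5 : ‖a‖ * ‖s.prod‖ < 1 := by nlinarith
    exact ⟨h5.le, fun _ => h5⟩

theorem mem_roots_of_factor (p f g : ℤ[X]) (hf : f.Monic) (hfg : f * g = p)
    (hp : p.Monic) (h0 : p.coeff 0 ≠ 0) (Λ : ℂ)
    (hoth : ∀ μ ∈ (p.map (Int.castRingHom ℂ)).roots, μ ≠ Λ → ‖μ‖ < 1) (hf1 : f ≠ 1) :
    Λ ∈ (f.map (Int.castRingHom ℂ)).roots := by
  by_contra hΛ
  have hpm : (p.map (Int.castRingHom ℂ)) ≠ 0 := (hp.map _).ne_zero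
  have hsub : ∀ μ ∈ (f.map (Int.castRingHom ℂ)).roots, ‖μ‖ < 1 := by
    intro μ hμ
    refine hoth μ ?_ (fun h => hΛ (h ▸ hμ))
    rw [mem_roots hpm, ← hfg, Polynomial.map_mul, IsRoot, eval_mul]
    have h1 := (mem_roots (hf.map _).ne_zero).1 hμ
    rw [IsRoot] at h1
    rw [h1, zero_mul]
  have hdeg : f.natDegree ≠ 0 := by
    intro h
    exact hf1 (hf.natDegree_eq_zero.1 h)
  have hcard : Multiset.card (f.map (Int.castRingHom ℂ)).roots = f.natDegree := by
    rw [← (IsAlgClosed.splits (f.map (Int.castRingHom ℂ))).natDegree_eq_card_roots,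
      hf.natDegree_map]
  have hne : (f.map (Int.castRingHom ℂ)).roots ≠ 0 := by
    intro h
    rw [h, Multiset.card_zero] at hcard
    exact hdeg hcard.symm
  have h1 := (norm_prod_lt _ hsub).2 hne
  have h2 := (IsAlgClosed.splits (f.map (Int.castRingHom ℂ))).coeff_zero_eq_prod_roots_of_monic
    (hf.map _)
  have h3 : ‖((f.coeff 0 : ℤ) : ℂ)‖ < 1 := by
    rw [coeff_map] at h2
    have h4 : ((f.coeff 0 : ℤ) : ℂ) = (Int.castRingHom ℂ) (f.coeff 0) := rfl
    rw [h4, h2, norm_mul, norm_pow, norm_neg, norm_one, one_pow, one_mul]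
    exact h1
  rw [Complex.norm_intCast] at h3
  have h4 : |f.coeff 0| < 1 := by exact_mod_cast h3
  have h5 : f.coeff 0 = 0 := Int.abs_lt_one_iff.1 h4
  apply h0
  rw [← hfg, mul_coeff_zero, h5, zero_mul]

theorem irr_of_dominant (p : ℤ[X]) (hp : p.Monic) (hp1 : p ≠ 1) (h0 : p.coeff 0 ≠ 0) (Λ : ℂ)
    (hoth : ∀ μ ∈ (p.map (Int.castRingHom ℂ)).roots, μ ≠ Λ → ‖μ‖ < 1)
    (hc : (p.map (Int.castRingHom ℂ)).roots.count Λ ≤ 1) : Irreducible p := by
  rw [irreducible_of_monic hp hp1]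
  intro f g hf hg hfg
  by_contra hcon
  push Not at hcon
  have h1 := mem_roots_of_factor p f g hf hfg hp h0 Λ hoth hcon.1
  have h2 := mem_roots_of_factor p g f hg (by rw [mul_comm]; exact hfg) hp h0 Λ hoth hcon.2
  have h3 : (p.map (Int.castRingHom ℂ)).roots =
      (f.map (Int.castRingHom ℂ)).roots + (g.map (Int.castRingHom ℂ)).roots := by
    rw [← hfg, Polynomial.map_mul, roots_mul]
    exact mul_ne_zero (hf.map _).ne_zero (hg.map _).ne_zero
  rw [h3, Multiset.count_add] at hc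
  have h4 := Multiset.one_le_count_iff_mem.2 h1
  have h5 := Multiset.one_le_count_iff_mem.2 h2
  omega

end Pool.Agent.R889.PZ
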