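import Pool.Agent.R889.PZ.NPD
import Pool.Agent.R889.PZ.NIrr
import Pool.Agent.H906R3.CY.PF

/-!
Matrices with large entries which contract the kernel of a positive left eigenvector are Pisot.
-/

set_option autoImplicit false

namespace Pool.Agent.R889.PZ
open Pool.Agent.H812R2.PI Pool.Agent.TH100.Pisot
open scoped BigOperators

variable {m : ℕ}

/-- Perron eigenvector -/
theorem exists_left (A : Matrix (Fin (m+1)) (Fin (m+1)) ℤ) (hA : ∀ i j, 1 ≤ A i j) :
    ∃ (f : Fin (m+1) → ℝ) (Λ : ℝ), (∀ i, 0 < f i) ∧ ∑ i, f i = 1 ∧ 0 < Λ ∧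
      ra f A = fun i => Λ * f i := by
  obtain ⟨B, hB⟩ : ∃ B : Matrix (Fin (m+1)) (Fin (m+1)) ℝ, B = fun i j => (A j i : ℝ) := ⟨_, rfl⟩
  have hB1 : ∀ i j, 0 < B i j := fun i j => by
    rw [hB]
    show (0:ℝ) < ((A j i : ℤ) : ℝ)
    exact_mod_cast lt_of_lt_of_le one_pos (hA j i)
  obtain ⟨v, Λ, hv, hvs, hΛ, hBv, -⟩ := H906C.perron B (fun i j => (hB1 i j).le) 2 (fun i j => by
    rw [Finset.sum_range_succ, Finset.sum_range_succ, Finset.sum_range_zero, pow_zero, pow_one,
      zero_add, Matrix.add_apply, Matrix.one_apply]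
    have := hB1 i j
    split_ifs <;> linarith) ⟨0, 0, hB1 0 0⟩
  refine ⟨v, Λ, hv, hvs, hΛ, ?_⟩
  funext j
  have h1 := congrFun hBv j
  rw [Pi.smul_apply, smul_eq_mul] at h1
  rw [← h1]
  unfold ra
  rw [hB]
  simp only [Matrix.mulVec, dotProduct]
  exact Finset.sum_congr rfl fun i _ => mul_comm _ _

theorem re_im_le (w : ℂ) : |w.re| + |w.im| ≤ 3 / 2 * ‖w‖ := by
  refine abs_le_of_sq_le_sq' ?_ (by positivity) |>.2
  have h1 := Complex.sq_norm w
  rw [Complex.normSq_apply] at h1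
  have h2 := sq_abs w.re
  have h3 := sq_abs w.im
  nlinarith [sq_nonneg (|w.re| - |w.im|), sq_nonneg ‖w‖]

/-- eigenvalues different from the leading one -/
theorem small_root (A : Matrix (Fin (m+1)) (Fin (m+1)) ℤ) (f : Fin (m+1) → ℝ) (Λ : ℝ)
    (hf : ra f A = fun i => Λ * f i)
    (hcon : ∀ z, pa f z = 0 → nm (act A z) ≤ 1 / 2 * nm z) (μ : ℂ)
    (hμ : (A.map (Int.cast : ℤ → ℂ)).charpoly.IsRoot μ) (hne : μ ≠ (Λ : ℂ)) : ‖μ‖ ≤ 3 / 4 := by
  have h0 : (Matrix.scalar (Fin (m+1)) μ - A.map (Int.cast : ℤ → ℂ)).det = 0 := by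
    rw [← Matrix.eval_charpoly]
    exact hμ
  obtain ⟨z, hz, h1⟩ := Matrix.exists_mulVec_eq_zero_iff.mpr h0
  have hAz : ∀ i, ∑ j, ((A i j : ℤ) : ℂ) * z j = μ * z i := by
    intro i
    have h2 := congrFun h1 i
    rw [Matrix.sub_mulVec, Pi.sub_apply, Pi.zero_apply, sub_eq_zero] at h2
    have h3 : (Matrix.scalar (Fin (m+1)) μ).mulVec z i = μ * z i := by
      simp [Matrix.mulVec, dotProduct, Matrix.diagonal_apply]
    rw [h3] at h2
    rw [h2]
    rfl
  have hfz : ∑ i, (f i : ℂ) * z i = 0 := by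
    have h2 : ∑ i, (f i : ℂ) * (μ * z i) = (Λ : ℂ) * ∑ i, (f i : ℂ) * z i := by
      calc ∑ i, (f i : ℂ) * (μ * z i) = ∑ i, (f i : ℂ) * ∑ j, ((A i j : ℤ) : ℂ) * z j :=
            Finset.sum_congr rfl fun i _ => by rw [hAz i]
        _ = ∑ j, (∑ i, (f i : ℂ) * ((A i j : ℤ) : ℂ)) * z j := by
            simp only [Finset.mul_sum, Finset.sum_mul]
            rw [Finset.sum_comm]
            exact Finset.sum_congr rfl fun i _ => Finset.sum_congr rfl fun j _ => by ring
        _ = ∑ j, ((Λ : ℂ) * (f j : ℂ)) * z j := by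
            refine Finset.sum_congr rfl fun j _ => ?_
            have h3 := congrFun hf j
            unfold ra at h3
            have h4 : (∑ i, (f i : ℂ) * ((A i j : ℤ) : ℂ)) = (Λ : ℂ) * (f j : ℂ) := by
              rw [← Complex.ofReal_mul, ← h3]
              push_cast
              rfl
            rw [h4]
        _ = (Λ : ℂ) * ∑ i, (f i : ℂ) * z i := by
            rw [Finset.mul_sum]
            exact Finset.sum_congr rfl fun i _ => by ring
    have h3 : ∑ i, (f i : ℂ) * (μ * z i) = μ * ∑ i, (f i : ℂ) * z i := by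
      rw [Finset.mul_sum]
      exact Finset.sum_congr rfl fun i _ => by ring
    have h4 : (μ - Λ) * ∑ i, (f i : ℂ) * z i = 0 := by
      rw [sub_mul, ← h3, ← h2, sub_self]
    exact (mul_eq_zero.1 h4).resolve_left (sub_ne_zero.2 hne)
  have hre : pa f (fun i => (z i).re) = 0 := by
    have h2 := congrArg Complex.re hfz
    rw [Complex.re_sum] at h2
    unfold pa
    rw [← Complex.zero_re, ← h2]
    exact Finset.sum_congr rfl fun i _ => by simp
  have him : pa f (fun i => (z i).im) = 0 := by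
    have h2 := congrArg Complex.im hfz
    rw [Complex.im_sum] at h2
    unfold pa
    rw [← Complex.zero_im, ← h2]
    exact Finset.sum_congr rfl fun i _ => by simp
  have hAre : ∀ i, act A (fun i => (z i).re) i = (μ * z i).re := by
    intro i
    rw [← hAz i, Complex.re_sum]
    unfold act
    exact Finset.sum_congr rfl fun j _ => by simp
  have hAim : ∀ i, act A (fun i => (z i).im) i = (μ * z i).im := by
    intro i
    rw [← hAz i, Complex.im_sum]
    unfold act
    exact Finset.sum_congr rfl fun j _ => by simp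
  have h2 := hcon _ hre
  have h3 := hcon _ him
  have h4 : ∑ i, ‖μ * z i‖ ≤ nm (act A fun i => (z i).re) + nm (act A fun i => (z i).im) := by
    unfold nm
    rw [← Finset.sum_add_distrib]
    refine Finset.sum_le_sum fun i _ => ?_
    rw [hAre, hAim]
    exact Complex.norm_le_abs_re_add_abs_im _
  have h5 : nm (fun i => (z i).re) + nm (fun i => (z i).im) ≤ 3 / 2 * ∑ i, ‖z i‖ := by
    unfold nm
    rw [← Finset.sum_add_distrib, Finset.mul_sum]
    exact Finset.sum_le_sum fun i _ => re_im_le _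
  have h6 : ∑ i, ‖μ * z i‖ = ‖μ‖ * ∑ i, ‖z i‖ := by
    rw [Finset.mul_sum]
    exact Finset.sum_congr rfl fun i _ => norm_mul _ _
  have h7 : 0 < ∑ i, ‖z i‖ := by
    obtain ⟨i, hi⟩ : ∃ i, z i ≠ 0 := by
      by_contra h
      push Not at h
      exact hz (funext h)
    exact Finset.sum_pos' (fun i _ => norm_nonneg _) ⟨i, Finset.mem_univ i, norm_pos_iff.2 hi⟩
  have h8 : ‖μ‖ * ∑ i, ‖z i‖ ≤ 3 / 4 * ∑ i, ‖z i‖ := by linarith
  exact le_of_mul_le_mul_right h8 h7

theorem trace_le (A : Matrix (Fin (m+1)) (Fin (m+1)) ℤ) (κ : ℝ) (f : Fin (m+1) → ℝ) (Λ : ℝ)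
    (hcmp : Cmp κ f) (hf : ra f A = fun i => Λ * f i)
    (hcon : ∀ z, pa f z = 0 → nm (act A z) ≤ 1 / 2 * nm z) :
    ((A.trace : ℤ) : ℝ) ≤ Λ + ((m:ℝ) + 1) * (1 + κ) / 2 := by
  obtain ⟨g, hg⟩ : ∃ g : Fin (m+1) → ℝ, g = fun _ => 1 := ⟨_, rfl⟩
  have hgp : ∀ i, 0 < g i := fun i => by rw [hg]; exact one_pos
  have hp := pa_pos hcmp.1 hgp
  obtain ⟨e, he⟩ : ∃ e : Fin (m+1) → Fin (m+1) → ℝ, e = fun j l => if l = j then 1 else 0 :=
    ⟨_, rfl⟩
  have h1 : ∀ j, act A (e j) j = (A j j : ℝ) := fun j => by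
    rw [he]
    unfold act
    simp
  have h2 : ∀ j, pa f (e j) = f j := fun j => by
    rw [he]
    unfold pa
    simp
  have h3 : ∀ j, nm (e j) = 1 := by
    intro j
    rw [he]
    unfold nm
    have : ∀ l : Fin (m+1), |if l = j then (1:ℝ) else 0| = if l = j then 1 else 0 := fun l => by
      split_ifs <;> simp
    simp only [this]
    simp
  have h4 : ∀ j, (A j j : ℝ) = f j * act A g j / pa f g + act A (pj f g (e j)) j := by
    intro j
    have h5 : pj f g (e j) = e j - fun i => pa f (e j) / pa f g * g i := rfl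
    rw [h5, act_sub', act_smul', Pi.sub_apply, h1, h2]
    ring
  have h5 : ∑ j, f j * act A g j / pa f g = Λ := by
    rw [← Finset.sum_div]
    have h6 : ∑ j, f j * act A g j = Λ * pa f g := by
      have h7 : ∑ j, f j * act A g j = pa f (act A g) := rfl
      rw [h7, ← pa_ra, hf, pa_smul_left]
    rw [h6, mul_div_assoc, div_self hp.ne', mul_one]
  have h6 : ((A.trace : ℤ) : ℝ) = ∑ j, (A j j : ℝ) := by
    unfold Matrix.trace
    push_cast
    rfl
  rw [h6, Finset.sum_congr rfl fun j _ => h4 j, Finset.sum_add_distrib, h5]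
  have h7 : ∀ j, act A (pj f g (e j)) j ≤ (1 + κ) / 2 := by
    intro j
    have h8 := (le_abs_self _).trans (abs_le_nm (act A (pj f g (e j))) j)
    have h9 := hcon _ (pa_pj f g (e j) hp.ne')
    have h10 := nm_pj hcmp hgp (e j)
    rw [h3] at h10
    linarith
  have h8 : ∑ j, act A (pj f g (e j)) j ≤ ∑ _j : Fin (m+1), (1 + κ) / 2 :=
    Finset.sum_le_sum fun j _ => h7 j
  rw [Finset.sum_const, Finset.card_univ, Fintype.card_fin, nsmul_eq_mul] at h8
  push_cast at h8
  linarith

theorem re_sum_ge (s : Multiset ℂ) (h : ∀ μ ∈ s, -1 ≤ μ.re) : -(Multiset.card s : ℝ) ≤ s.sum.re := by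
  induction s using Multiset.induction with
  | empty => simp
  | cons a s ih =>
    have h1 := ih fun μ hμ => h μ (Multiset.mem_cons_of_mem hμ)
    have h2 := h a (Multiset.mem_cons_self a s)
    rw [Multiset.sum_cons, Multiset.card_cons, Complex.add_re]
    push_cast
    linarith

theorem pisot_of (A : Matrix (Fin (m+1)) (Fin (m+1)) ℤ) (κ : ℝ) (f : Fin (m+1) → ℝ) (Λ : ℝ)
    (hcmp : Cmp κ f) (hf : ra f A = fun i => Λ * f i) (hΛ : ((m:ℝ) + 1) * (2 + κ) < Λ)
    (hcon : ∀ z, pa f z = 0 → nm (act A z) ≤ 1 / 2 * nm z) (hdet : A.det = 1 ∨ A.det = -1) :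
    PisotMat A := by
  have hκ := hcmp.one_le
  have hm0 : (0:ℝ) ≤ m := Nat.cast_nonneg m
  have hΛ1 : 1 < Λ := by nlinarith
  have hdet0 : A.det ≠ 0 := by
    rcases hdet with h | h <;> rw [h] <;> norm_num
  have hroot : (A.map (Int.cast : ℤ → ℂ)).charpoly.IsRoot (Λ : ℂ) := by
    rw [LPD_root]
    refine Matrix.exists_vecMul_eq_zero_iff.mp ⟨f, ?_, ?_⟩
    · intro h
      have := hcmp.1 0
      rw [h] at this
      simp at this
    · funext j
      rw [Matrix.vecMul_sub, Pi.sub_apply, Pi.zero_apply, sub_eq_zero]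
      have h3 : Matrix.vecMul f (Matrix.scalar (Fin (m+1)) Λ) j = Λ * f j := by
        simp [Matrix.vecMul, dotProduct, Matrix.diagonal_apply, mul_comm]
      rw [h3]
      have h4 := congrFun hf j
      rw [← h4]
      rfl
  have hsmall : ∀ μ : ℂ, (A.map (Int.cast : ℤ → ℂ)).charpoly.IsRoot μ → μ ≠ (Λ : ℂ) →
      ‖μ‖ ≤ 3 / 4 := fun μ h1 h2 => small_root A f Λ hf hcon μ h1 h2
  have hmap : (A.map (Int.cast : ℤ → ℂ)).charpoly = A.charpoly.map (Int.castRingHom ℂ) := by
    rw [← Matrix.charpoly_map]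
    rfl
  have hne0 : (A.map (Int.cast : ℤ → ℂ)).charpoly ≠ 0 := (Matrix.charpoly_monic _).ne_zero
  have hcount : (A.map (Int.cast : ℤ → ℂ)).charpoly.roots.count (Λ : ℂ) ≤ 1 := by
    by_contra hcon2
    push Not at hcon2
    have h2 : Multiset.replicate 2 (Λ : ℂ) ≤ (A.map (Int.cast : ℤ → ℂ)).charpoly.roots :=
      Multiset.le_count_iff_replicate_le.1 (by omega)
    obtain ⟨t, ht⟩ := Multiset.le_iff_exists_add.1 h2
    have hcard : Multiset.card (A.map (Int.cast : ℤ → ℂ)).charpoly.roots = m + 1 := by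
      rw [← (IsAlgClosed.splits _).natDegree_eq_card_roots, Matrix.charpoly_natDegree_eq_dim,
        Fintype.card_fin]
    have htr := Matrix.trace_eq_sum_roots_charpoly (A.map (Int.cast : ℤ → ℂ))
    have htr2 : (A.map (Int.cast : ℤ → ℂ)).trace = (((A.trace : ℤ) : ℝ) : ℂ) := by
      unfold Matrix.trace
      push_cast
      rfl
    have h3 : ((A.trace : ℤ) : ℝ) = ((A.map (Int.cast : ℤ → ℂ)).charpoly.roots.sum).re := by
      rw [← htr, htr2, Complex.ofReal_re]
    have h4 : ∀ μ ∈ t, -1 ≤ μ.re := by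
      intro μ hμ
      have h5 : μ ∈ (A.map (Int.cast : ℤ → ℂ)).charpoly.roots := by
        rw [ht]
        exact Multiset.mem_add.2 (Or.inr hμ)
      have h6 := (Polynomial.mem_roots hne0).1 h5
      by_cases h7 : μ = (Λ : ℂ)
      · rw [h7, Complex.ofReal_re]
        linarith
      · have h8 := hsmall μ h6 h7
        have h9 := Complex.abs_re_le_norm μ
        have h10 := neg_abs_le μ.re
        linarith
    have h5 := re_sum_ge t h4
    have h6 : Multiset.card t ≤ m + 1 := by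
      rw [← hcard, ht, Multiset.card_add]
      omega
    have h6' : (Multiset.card t : ℝ) ≤ (m:ℝ) + 1 := by exact_mod_cast h6
    rw [ht, Multiset.sum_add, Complex.add_re, Multiset.sum_replicate] at h3
    have h7 : (2 • (Λ : ℂ)).re = 2 * Λ := by
      rw [two_nsmul, Complex.add_re, Complex.ofReal_re]
      ring
    rw [h7] at h3
    have h8 := trace_le A κ f Λ hcmp hf hcon
    nlinarith
  refine ⟨?_, hdet, Λ, hΛ1, hroot, fun μ hμ hne => ⟨?_, ?_⟩⟩
  · have h1 : Irreducible A.charpoly := by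
      refine irr_of_dominant A.charpoly (Matrix.charpoly_monic A) ?_ ?_ (Λ : ℂ) ?_ ?_
      · intro h
        have h2 := Matrix.charpoly_natDegree_eq_dim A
        rw [h, Polynomial.natDegree_one, Fintype.card_fin] at h2
        omega
      · intro h
        have h2 := Matrix.det_eq_sign_charpoly_coeff A
        rw [h, mul_zero] at h2
        exact hdet0 h2
      · intro μ hμ hne
        rw [← hmap] at hμ
        have := hsmall μ ((Polynomial.mem_roots hne0).1 hμ) hne
        linarith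
      · rw [← hmap]
        exact hcount
    have h2 : (A.map (Int.cast : ℤ → ℚ)).charpoly = A.charpoly.map (algebraMap ℤ ℚ) := by
      rw [← Matrix.charpoly_map]
      rfl
    rw [h2]
    exact (Polynomial.Monic.irreducible_iff_irreducible_map_fraction_map
      (Matrix.charpoly_monic A)).1 h1
  · rw [norm_pos_iff]
    rintro rfl
    have h1 : (A.charpoly.map (Int.castRingHom ℂ)).eval 0 = 0 := by
      rw [← hmap]
      exact hμ
    have h2 : (A.charpoly.map (Int.castRingHom ℂ)).coeff 0 = 0 := by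
      rw [Polynomial.coeff_zero_eq_eval_zero]
      exact h1
    rw [Polynomial.coeff_map] at h2
    have h3 : A.charpoly.coeff 0 = 0 := by
      have : ((A.charpoly.coeff 0 : ℤ) : ℂ) = 0 := h2
      exact_mod_cast this
    have h4 := Matrix.det_eq_sign_charpoly_coeff A
    rw [h3, mul_zero] at h4
    exact hdet0 h4
  · have := hsmall μ hμ hne
    linarith

end Pool.Agent.R889.PZ
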