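import Pool.Agent.R889.PZ.NBlk
import Pool.Agent.R889.PZ.NOv
import Pool.Agent.R889.PZ.NPis

/-!
Compositions of blocks `ρ ∘ σ ^ k` and `ρ ∘ τ`.
-/

set_option autoImplicit false

namespace Pool.Agent.R889.PZ
open Pool.Agent.H812R2.PI Pool.Agent.TH100.Pisot
open scoped BigOperators

variable {m : ℕ} {κ E Q : ℝ}

/-- geometric coincidence condition for the positive left eigenvector of the incidence matrix -/
def Coinc {d : ℕ} (σ : Fin d → List (Fin d)) : Prop :=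
  ∃ (lam : ℝ) (ell : Fin d → ℝ), (∀ i, 0 < ell i) ∧
    (∀ j, ∑ i, ell i * ((inc σ i j : ℤ) : ℝ) = lam * ell j) ∧ GCC ell σ

/-- `ρ ∘ σ ^ k` or `ρ ∘ τ` with `ρ` unimodular of size at most `T`, `k ≥ K`, and `τ` a substitution
with incidence matrix `M i ^ k` and discrepancy at most `B` -/
def Block {ι : Type*} (σ : Fin (m+1) → List (Fin (m+1)))
    (M : ι → Matrix (Fin (m+1)) (Fin (m+1)) ℤ) (u : ι → Fin (m+1) → ℝ) (B : ℝ) (T K : ℕ)
    (τ : Fin (m+1) → List (Fin (m+1))) : Prop :=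
  ∃ ρ τ' : Fin (m+1) → List (Fin (m+1)), τ = comp ρ τ' ∧
    ((inc ρ).det = 1 ∨ (inc ρ).det = -1) ∧ (∀ a, (ρ a).length ≤ T) ∧
    ∃ k, K ≤ k ∧ (τ' = iter σ k ∨ ∃ i, τ' ∈ SubSet (u i) (M i ^ k) B)

theorem list_det (l : List (Fin (m+1) → List (Fin (m+1))))
    (hl : ∀ τ ∈ l, (inc τ).det = 1 ∨ (inc τ).det = -1) :
    (inc (compList l)).det = 1 ∨ (inc (compList l)).det = -1 := by
  induction l with
  | nil =>
    left
    simp only [compList]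
    rw [JComp_inc_id, Matrix.det_one]
  | cons τ l ih =>
    simp only [compList]
    rw [inc_comp, Matrix.det_mul]
    rcases hl τ (List.mem_cons_self ..) with h1 | h1 <;>
    rcases ih (fun τ' h => hl τ' (List.mem_cons_of_mem _ h)) with h2 | h2 <;>
    rw [h1, h2] <;> norm_num

theorem eig_cmp (hQ : 0 < Q) (l : List (Fin (m+1) → List (Fin (m+1))))
    (hl : ∀ τ ∈ l, Blk κ E Q τ) (hne : l ≠ []) (f : Fin (m+1) → ℝ) (Λ : ℝ) (hΛ : 0 < Λ)
    (hf : ∀ i, 0 < f i) (h1 : ra f (inc (compList l)) = fun i => Λ * f i) : Cmp κ f := by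
  obtain ⟨l', τ, rfl⟩ : ∃ l' τ, l = l' ++ [τ] := by
    rcases List.eq_nil_or_concat l with h | ⟨l', τ, h⟩
    · exact absurd h hne
    · exact ⟨l', τ, by rw [h, List.concat_eq_append]⟩
  have h2 := ra_split l' τ f
  have h3 := list_rpos hQ l' (fun τ' h => hl τ' (List.mem_append_left _ h)) hf
  have h4 := (hl τ (List.mem_append_right _ (List.mem_singleton_self τ))).cmp _ h3
  rw [← h2, h1] at h4
  have h5 := h4.smul (inv_pos.2 hΛ)
  have h6 : (fun i => Λ⁻¹ * (Λ * f i)) = f := by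
    funext i
    rw [inv_mul_cancel_left₀ hΛ.ne']
  rw [h6] at h5
  exact h5

theorem list_pisot (hQ : ((m:ℝ) + 1) * (2 + κ) < Q) (hκ : 1 ≤ κ)
    (l : List (Fin (m+1) → List (Fin (m+1)))) (hl : ∀ τ ∈ l, Blk κ E Q τ) (hne : l ≠ [])
    (hdet : ∀ τ ∈ l, (inc τ).det = 1 ∨ (inc τ).det = -1) : PisotMat (inc (compList l)) := by
  have hm0 : (0:ℝ) ≤ m := Nat.cast_nonneg m
  have hQ0 : 0 < Q := lt_of_le_of_lt (by positivity) hQ
  have hbig := list_big hQ0 l hl hne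
  have hone : ∀ i j, 1 ≤ inc (compList l) i j := fun i j => by
    have h2 := lt_of_lt_of_le hQ0 (hbig i j)
    have h3 : 0 < inc (compList l) i j := by exact_mod_cast h2
    omega
  obtain ⟨f, Λ, hf, hfs, hΛ, hfA⟩ := exists_left (inc (compList l)) hone
  have hcmp := eig_cmp hQ0 l hl hne f Λ hΛ hf hfA
  have hΛQ : Q ≤ Λ := by
    have h1 := congrFun hfA 0
    unfold ra at h1
    have h2 : Q * ∑ i, f i ≤ ∑ i, f i * ((inc (compList l) i 0 : ℤ) : ℝ) := by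
      rw [Finset.mul_sum]
      refine Finset.sum_le_sum fun i _ => ?_
      rw [mul_comm]
      exact mul_le_mul_of_nonneg_left (hbig i 0) (hf i).le
    rw [h1, hfs, mul_one] at h2
    have h3 : f 0 ≤ 1 := by
      rw [← hfs]
      exact Finset.single_le_sum (f := f) (fun j _ => (hf j).le) (Finset.mem_univ 0)
    have h4 : Λ * f 0 ≤ Λ * 1 := mul_le_mul_of_nonneg_left h3 hΛ.le
    linarith
  refine pisot_of (inc (compList l)) κ f Λ hcmp hfA (lt_of_lt_of_le hQ hΛQ) ?_ (list_det l hdet)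
  intro z hz
  refine (list_con l hl f hf z ?_).2 hne
  rw [hfA, pa_smul_left, hz, mul_zero]

theorem det_pow_pm (M : Matrix (Fin (m+1)) (Fin (m+1)) ℤ) (h : M.det = 1 ∨ M.det = -1) (k : ℕ) :
    (M ^ k).det = 1 ∨ (M ^ k).det = -1 := by
  rw [Matrix.det_pow]
  rcases h with h | h
  · left; rw [h, one_pow]
  · rw [h]
    exact neg_one_pow_eq_or ℤ k

/-- compositions of blocks -/
theorem blocks_good {σ : Fin (m+1) → List (Fin (m+1))} (hσ : PisotMat (inc σ)) (P : PD (inc σ))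
    (hg : GCC P.ell σ) {ι : Type*} [Fintype ι] (M : ι → Matrix (Fin (m+1)) (Fin (m+1)) ℤ)
    (hM : ∀ i, PisotMat (M i)) (R : ∀ i, PD (M i)) (T : ℕ) (B : ℝ) :
    ∃ K : ℕ, ∀ l : List (Fin (m+1) → List (Fin (m+1))),
      (∀ τ ∈ l, Block σ M (fun i => (R i).u) B T K τ) →
      (∃ (ρ : Fin (m+1) → List (Fin (m+1))) (k : ℕ), K ≤ k ∧ (inc ρ).det ≠ 0 ∧
        comp ρ (iter σ k) ∈ l) →
      PisotMat (inc (compList l)) ∧
      ∀ P' : PD (inc (compList l)), Good P'.ell (compList l) := by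
  classical
  obtain ⟨Bσ, hBσ⟩ := iter_prefix P
  obtain ⟨κσ, hκσ1, hblkσ⟩ := blk_sub P T Bσ
  have hall : ∀ i, ∃ κ₀ : ℝ, 1 ≤ κ₀ ∧ ∀ κ ≥ κ₀, ∃ E₀ : ℝ, 1 + κ ≤ E₀ ∧ ∀ E ≥ E₀, ∀ Q : ℝ, ∃ K : ℕ,
      ∀ k ≥ K, ∀ ρ : Fin (m+1) → List (Fin (m+1)), (inc ρ).det ≠ 0 → (∀ a, (ρ a).length ≤ T) →
      ∀ τ : Fin (m+1) → List (Fin (m+1)), inc τ = M i ^ k →
        (∀ a j, (R i).N (rv (ab ((τ a).take j))) ≤ (R i).c * |B|) → Blk κ E Q (comp ρ τ) :=
    fun i => blk_sub (R i) T ((R i).c * |B|)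
  choose κi hκi1 hblki using hall
  obtain ⟨κ, hκd⟩ : ∃ κ : ℝ, κ = κσ + ∑ i, κi i := ⟨_, rfl⟩
  have hs0 : 0 ≤ ∑ i, κi i := Finset.sum_nonneg fun i _ => zero_le_one.trans (hκi1 i)
  have hκσ : κ ≥ κσ := by rw [hκd]; linarith
  have hκi : ∀ i, κ ≥ κi i := by
    intro i
    have := Finset.single_le_sum (f := κi) (fun i _ => zero_le_one.trans (hκi1 i))
      (Finset.mem_univ i)
    rw [hκd]
    linarith
  have hκ : 1 ≤ κ := hκσ1.trans hκσ
  obtain ⟨Eσ, hEσ1, hblkσ⟩ := hblkσ κ hκσ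
  have hall2 := fun i => hblki i κ (hκi i)
  choose Ei hEi1 hblki using hall2
  obtain ⟨E, hEd⟩ : ∃ E : ℝ, E = Eσ + ∑ i, Ei i := ⟨_, rfl⟩
  have hs1 : 0 ≤ ∑ i, Ei i := Finset.sum_nonneg fun i _ => by linarith [hEi1 i]
  have hEσ : E ≥ Eσ := by rw [hEd]; linarith
  have hEi : ∀ i, E ≥ Ei i := by
    intro i
    have := Finset.single_le_sum (f := Ei) (fun i _ => by linarith [hEi1 i])
      (Finset.mem_univ i)
    rw [hEd]
    linarith
  have hE : 1 + κ ≤ E := hEσ1.trans hEσ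
  obtain ⟨Q, hQ⟩ : ∃ Q : ℝ, Q = ((m:ℝ) + 1) * (2 + κ) + 1 := ⟨_, rfl⟩
  obtain ⟨Kσ, hKσ⟩ := hblkσ E hEσ Q
  have hall3 := fun i => hblki i E (hEi i) Q
  choose Ki hKi using hall3
  obtain ⟨K2, hK2⟩ := hb_pow P hg ((16 * (2 + (1 + κ) * (m + 1)) ^ 2 + 4) * (2 * E) + κ)
  have hm0 : (0:ℝ) ≤ m := Nat.cast_nonneg m
  have hQ0 : 0 < Q := by
    rw [hQ]
    positivity
  refine ⟨max (max Kσ K2) (∑ i, Ki i), fun l hl hex => ?_⟩
  obtain ⟨ρ0, k0, hk0, hdet0, hmem⟩ := hex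
  have hb : ∀ τ ∈ l, Blk κ E Q τ := by
    intro τ hτ
    obtain ⟨ρ, τ', rfl, hdet, hT, k, hk, h⟩ := hl τ hτ
    have hdet' : (inc ρ).det ≠ 0 := by
      rcases hdet with h | h <;> rw [h] <;> norm_num
    rcases h with rfl | ⟨i, hi⟩
    · exact hKσ k (((le_max_left _ _).trans (le_max_left _ _)).trans hk) ρ hdet' hT _
        (inc_iter σ k) (hBσ k)
    · have h1 : Ki i ≤ ∑ i, Ki i := Finset.single_le_sum (f := Ki) (fun i _ => Nat.zero_le _)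
        (Finset.mem_univ i)
      refine hKi i k (h1.trans ((le_max_right _ _).trans hk)) ρ hdet' hT τ' hi.1 fun a j => ?_
      exact GFin_dis_N (R i) |B| (abs_nonneg B) _ ((hi.2 a j).trans (sq_abs B).ge)
  have hd : ∀ τ ∈ l, (inc τ).det = 1 ∨ (inc τ).det = -1 := by
    intro τ hτ
    obtain ⟨ρ, τ', rfl, hdet, hT, k, hk, h⟩ := hl τ hτ
    rw [inc_comp, Matrix.det_mul]
    have h1 : (inc τ').det = 1 ∨ (inc τ').det = -1 := by
      rcases h with rfl | ⟨i, hi⟩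
      · rw [inc_iter]
        exact det_pow_pm _ hσ.2.1 k
      · rw [hi.1]
        exact det_pow_pm _ (hM i).2.1 k
    rcases hdet with h2 | h2 <;> rcases h1 with h3 | h3 <;> rw [h2, h3] <;> norm_num
  have hne : l ≠ [] := List.ne_nil_of_mem hmem
  have hpis : PisotMat (inc (compList l)) := by
    refine list_pisot ?_ hκ _ hb hne hd
    rw [hQ]
    linarith
  refine ⟨hpis, fun P' => ?_⟩
  obtain ⟨l1, l2, hl12⟩ := List.append_of_mem hmem
  have hl3 : l = l1 ++ [comp ρ0 (iter σ k0)] ++ l2 := by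
    rw [hl12]
    simp
  subst hl3
  exact list_good2 hQ0 hE l1 l2 _ hb
    (hK2 k0 (((le_max_right _ _).trans (le_max_left _ _)).trans hk0) ρ0 hdet0) hpis P'

theorem coinc_iff {σ : Fin (m+1) → List (Fin (m+1))} (P : PD (inc σ)) :
    Coinc σ ↔ GCC P.ell σ := by
  constructor
  · rintro ⟨lam, ell, h1, h2, h3⟩
    obtain ⟨c, hc, h4⟩ := ell_unique P ell lam h1 h2
    exact (gcc_smul hc h4 σ).1 h3
  · intro h
    exact ⟨P.lam, P.ell, P.ell_pos, P.ell_M, h⟩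

/-- final form -/
theorem main_blocks {σ : Fin (m+1) → List (Fin (m+1))} (hσ : PisotMat (inc σ)) (hg : Coinc σ)
    {ι : Type*} [Fintype ι] (M : ι → Matrix (Fin (m+1)) (Fin (m+1)) ℤ)
    (hnn : ∀ i a b, 0 ≤ M i a b) (hM : ∀ i, PisotMat (M i)) (lam : ι → ℝ) (hlam : ∀ i, 1 < lam i)
    (u : ι → Fin (m+1) → ℝ) (hu : ∀ i a, ∑ b, (M i a b : ℝ) * u i b = lam i * u i a)
    (husum : ∀ i, ∑ a, u i a = 1) (T : ℕ) (B : ℝ) :
    ∃ K : ℕ, ∀ l : List (Fin (m+1) → List (Fin (m+1))),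
      (∀ τ ∈ l, Block σ M u B T K τ) →
      (∃ (ρ : Fin (m+1) → List (Fin (m+1))) (k : ℕ), K ≤ k ∧
        ((inc ρ).det = 1 ∨ (inc ρ).det = -1) ∧ comp ρ (iter σ k) ∈ l) →
      PisotMat (inc (compList l)) ∧ Coinc (compList l) ∧ SemiConjToral (compList l) := by
  obtain ⟨lamσ, uσ, hlamσ, huσ, hsσ⟩ := exists_u (inc σ) (inc_nonneg σ) hσ
  obtain ⟨P, -, -⟩ := exists_PD (inc σ) (inc_nonneg σ) hσ lamσ hlamσ uσ huσ hsσ
  have hall : ∀ i, ∃ R : PD (M i), R.u = u i := fun i => by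
    obtain ⟨R, h, -⟩ := exists_PD (M i) (hnn i) (hM i) (lam i) (hlam i) (u i) (hu i) (husum i)
    exact ⟨R, h⟩
  choose R hR using hall
  have hR' : (fun i => (R i).u) = u := funext hR
  obtain ⟨K, hK⟩ := blocks_good hσ P ((coinc_iff P).1 hg) M hM R T B
  rw [hR'] at hK
  refine ⟨K, fun l hl hex => ?_⟩
  obtain ⟨ρ, k, hk, hdet, hmem⟩ := hex
  obtain ⟨h1, h2⟩ := hK l hl ⟨ρ, k, hk, by rcases hdet with h | h <;> rw [h] <;> norm_num, hmem⟩
  obtain ⟨lam', u', hlam', hu', hs'⟩ := exists_u (inc (compList l)) (inc_nonneg _) h1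
  obtain ⟨P', -, -⟩ := exists_PD (inc (compList l)) (inc_nonneg _) h1 lam' hlam' u' hu' hs'
  have h3 := h2 P'
  exact ⟨h1, (coinc_iff P').2 h3.2.1, h3.2.2⟩

end Pool.Agent.R889.PZ
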