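import Pool.Agent.R889.PZ.NList

/-!
Compositions of blocks satisfy the conclusion of the Pisot conjecture.
-/

set_option autoImplicit false

namespace Pool.Agent.R889.PZ
open Pool.Agent.H812R2.PI Pool.Agent.TH100.Pisot
open scoped BigOperators

variable {m : ℕ} {κ E Q : ℝ}

/-- every pair of edges which overlap for a positive row vector in the image of the block and which
are at distance at most `D` is sent to a pair of paths with a common edge -/
def Hb (D : ℝ) (τ : Fin (m+1) → List (Fin (m+1))) : Prop :=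
  ∀ f : Fin (m+1) → ℝ, (∀ i, 0 < f i) → ∀ a b v, nm (rv v) ≤ D → Overlap (ra f (inc τ)) a b v →
    ∃ e, e ∈ edges 0 (τ a) ∧ e ∈ edges ((inc τ).mulVec v) (τ b)

theorem ne_nil_of_rpos {S : Fin (m+1) → List (Fin (m+1))} {f : Fin (m+1) → ℝ}
    (h : ∀ i, 0 < ra f (inc S) i) (a : Fin (m+1)) : S a ≠ [] := by
  intro h0
  have h1 := h a
  unfold ra inc at h1
  rw [h0] at h1
  simp at h1

theorem pd_ra {A : Matrix (Fin (m+1)) (Fin (m+1)) ℤ} (P : PD A) :
    ra P.ell A = fun i => P.lam * P.ell i := by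
  funext j
  exact P.ell_M j

theorem pd_act {A : Matrix (Fin (m+1)) (Fin (m+1)) ℤ} (P : PD A) :
    act A P.u = fun i => P.lam * P.u i := by
  funext j
  exact P.M_u j

theorem comp_split (l' : List (Fin (m+1) → List (Fin (m+1)))) (τ : Fin (m+1) → List (Fin (m+1))) :
    compList (l' ++ [τ]) = comp (compList l') τ := by
  have : compList [τ] = τ := by
    funext a
    simp [compList, comp, ext]
  rw [compList_append, this]

theorem ra_split (l' : List (Fin (m+1) → List (Fin (m+1)))) (τ : Fin (m+1) → List (Fin (m+1)))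
    (f : Fin (m+1) → ℝ) :
    ra f (inc (compList (l' ++ [τ]))) = ra (ra f (inc (compList l'))) (inc τ) := by
  rw [comp_split, inc_comp, ra_mul]

theorem pd_cmp (hQ : 0 < Q) (l : List (Fin (m+1) → List (Fin (m+1))))
    (hl : ∀ τ ∈ l, Blk κ E Q τ) (hne : l ≠ []) (P : PD (inc (compList l))) : Cmp κ P.ell := by
  obtain ⟨l', τ, rfl⟩ : ∃ l' τ, l = l' ++ [τ] := by
    rcases List.eq_nil_or_concat l with h | ⟨l', τ, h⟩
    · exact absurd h hne
    · exact ⟨l', τ, by rw [h, List.concat_eq_append]⟩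
  have hlam : 0 < P.lam := lt_trans one_pos P.lam_gt
  have h1 := pd_ra P
  have h2 := ra_split l' τ P.ell
  have h3 := list_rpos hQ l' (fun τ' h => hl τ' (List.mem_append_left _ h)) P.ell_pos
  have h4 := (hl τ (List.mem_append_right _ (List.mem_singleton_self τ))).cmp _ h3
  rw [← h2, h1] at h4
  have h5 := h4.smul (inv_pos.2 hlam)
  have h6 : (fun i => P.lam⁻¹ * (P.lam * P.ell i)) = P.ell := by
    funext i
    rw [inv_mul_cancel_left₀ hlam.ne']
  rw [h6] at h5
  exact h5

/-- spectral data with uniform constants -/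
noncomputable def mkPD (hQ : 0 < Q) (l : List (Fin (m+1) → List (Fin (m+1))))
    (hl : ∀ τ ∈ l, Blk κ E Q τ) (hne : l ≠ []) (P : PD (inc (compList l))) :
    PD (inc (compList l)) where
  lam := P.lam
  ell := P.ell
  u := P.u
  N := fun x => nm (pj P.ell P.u x)
  rho := 1 / 2
  c := 2 + (1 + κ) * (m + 1)
  lam_gt := P.lam_gt
  ell_pos := P.ell_pos
  u_pos := P.u_pos
  u_sum := P.u_sum
  ell_M := P.ell_M
  M_u := P.M_u
  u_ind := P.u_ind
  ell_ind := P.ell_ind
  c_pos := by
    have := (pd_cmp hQ l hl hne P).one_le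
    positivity
  rho_nonneg := by norm_num
  rho_lt := by norm_num
  N_add := fun x y => by
    rw [pj_add]
    exact nm_add _ _
  N_neg := fun x => by
    have : pj P.ell P.u (-x) = -pj P.ell P.u x := by
      funext i
      have h1 : pa P.ell (-x) = -pa P.ell x := by
        simp [pa]
      simp only [pj, h1, Pi.neg_apply]
      ring
    rw [this, nm_neg]
  N_nonneg := fun x => nm_nonneg _
  N_act := fun x => by
    have hlam : 0 < P.lam := lt_trans one_pos P.lam_gt
    have h1 : pj P.ell P.u (act (inc (compList l)) x) =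
        act (inc (compList l)) (pj P.ell P.u x) := by
      have h2 := pj_comm P.ell P.u x (inc (compList l))
      rw [pd_ra, pd_act] at h2
      have h3 := pj_dir P.ell P.u x P.lam 1 hlam.ne' one_ne_zero
      have h4 := pj_dir P.ell P.u (act (inc (compList l)) x) 1 P.lam one_ne_zero hlam.ne'
      simp only [one_mul] at h3 h4
      rw [h3, h4] at h2
      exact h2.symm
    rw [h1]
    refine (list_con l hl P.ell P.ell_pos _ ?_).2 hne
    rw [pd_ra, pa_smul_left, pa_pj _ _ _ (pa_pos P.ell_pos P.u_pos).ne', mul_zero]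
  le_cN := fun x i => by
    have hκ := (pd_cmp hQ l hl hne P).one_le
    obtain ⟨t, ht⟩ : ∃ t, t = pa P.ell x / pa P.ell P.u := ⟨_, rfl⟩
    have h1 : ∀ j, x j = pj P.ell P.u x j + t * P.u j := fun j => by
      rw [ht]
      simp [pj]
    have h2 : ∑ j, x j = ∑ j, pj P.ell P.u x j + t := by
      rw [Finset.sum_congr rfl fun j _ => h1 j, Finset.sum_add_distrib, ← Finset.mul_sum, P.u_sum,
        mul_one]
    have h3 : x i - (∑ j, x j) * P.u i =
        pj P.ell P.u x i - (∑ j, pj P.ell P.u x j) * P.u i := by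
      rw [h2, h1 i]
      ring
    rw [h3]
    have h4 : P.u i ≤ 1 := by
      rw [← P.u_sum]
      exact Finset.single_le_sum (f := P.u) (fun j _ => (P.u_pos j).le) (Finset.mem_univ i)
    have h5 := abs_le_nm (pj P.ell P.u x) i
    have h6 := abs_sum_le_nm (pj P.ell P.u x)
    have h7 : |(∑ j, pj P.ell P.u x j) * P.u i| ≤ nm (pj P.ell P.u x) := by
      rw [abs_mul, abs_of_pos (P.u_pos i)]
      have h8 := mul_le_mul h6 h4 (P.u_pos i).le (nm_nonneg _)
      linarith
    have h8 := abs_sub (pj P.ell P.u x i) ((∑ j, pj P.ell P.u x j) * P.u i)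
    have h9 : 0 ≤ (1 + κ) * ((m:ℝ) + 1) * nm (pj P.ell P.u x) := by
      have := nm_nonneg (pj P.ell P.u x)
      positivity
    linarith
  N_le := fun x K hK => by
    have hcmp := pd_cmp hQ l hl hne P
    have hκ := hcmp.one_le
    have h1 : pj P.ell P.u x = pj P.ell P.u (fun i => x i - (∑ j, x j) * P.u i) := by
      have h2 : (fun i => x i - (∑ j, x j) * P.u i) = x - fun i => (∑ j, x j) * P.u i := rfl
      rw [h2, pj_sub, pj_smul, pj_self _ _ (pa_pos P.ell_pos P.u_pos).ne']
      funext i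
      simp
    rw [h1]
    refine (nm_pj hcmp P.u_pos _).trans ?_
    have h3 : nm (fun i => x i - (∑ j, x j) * P.u i) ≤ ((m:ℝ) + 1) * K := by
      unfold nm
      refine (Finset.sum_le_card_nsmul _ _ K fun i _ => hK i).trans ?_
      simp
    have hK0 : 0 ≤ K := (abs_nonneg _).trans (hK 0)
    have h4 := mul_le_mul_of_nonneg_left h3 (by linarith : 0 ≤ 1 + κ)
    linarith

theorem list_good (hQ : 0 < Q) (hE : 1 + κ ≤ E) (l : List (Fin (m+1) → List (Fin (m+1))))
    (hl : ∀ τ ∈ l, Blk κ E Q τ) (hne : l ≠ [])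
    (hb : ∀ τ ∈ l, Hb ((16 * (2 + (1 + κ) * (m + 1)) ^ 2 + 4) * (2 * E) + κ) τ)
    (hM : PisotMat (inc (compList l))) (P : PD (inc (compList l))) :
    Good P.ell (compList l) := by
  have hcmp := pd_cmp hQ l hl hne P
  have hκ := hcmp.one_le
  have hlam : 0 < P.lam := lt_trans one_pos P.lam_gt
  obtain ⟨R, hR⟩ : ∃ R, R = mkPD hQ l hl hne P := ⟨_, rfl⟩
  have hRN : ∀ x, R.N x = nm (pj P.ell P.u x) := fun x => by rw [hR]; rfl
  have hRc : R.c = 2 + (1 + κ) * (m + 1) := by rw [hR]; rfl
  have hRr : R.rho = 1 / 2 := by rw [hR]; rfl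
  have hRe : R.ell = P.ell := by rw [hR]; rfl
  obtain ⟨D, hD⟩ : ∃ D, D = (16 * (2 + (1 + κ) * ((m:ℝ) + 1)) ^ 2 + 4) * (2 * E) := ⟨_, rfl⟩
  have hE0 : 0 < 2 * E := by linarith
  have hpre : ∀ a j, R.N (rv (ab ((compList l a).take j))) ≤ 2 * E := by
    intro a j
    rw [hRN]
    have h1 := list_pre hQ hE l hl P.ell hcmp P.u P.u_pos a j
    rw [pd_act] at h1
    have h4 := pj_dir P.ell P.u (rv (ab ((compList l a).take j))) 1 P.lam one_ne_zero hlam.ne'
    simp only [one_mul] at h4
    rw [h4] at h1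
    exact h1
  have hhit : R.Hit (compList l) D := by
    intro a b v hv hO
    rw [ov_pos_iff, hRe] at hO
    rw [hRN] at hv
    obtain ⟨l', τ, rfl⟩ : ∃ l' τ, l = l' ++ [τ] := by
      rcases List.eq_nil_or_concat l with h | ⟨l', τ, h⟩
      · exact absurd h hne
      · exact ⟨l', τ, by rw [h, List.concat_eq_append]⟩
    have hS := comp_split l' τ
    have hpos := list_rpos hQ l' (fun τ' h => hl τ' (List.mem_append_left _ h)) P.ell_pos
    have hO2 : Overlap (ra (ra P.ell (inc (compList l'))) (inc τ)) a b v := by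
      rw [← ra_split, pd_ra]
      exact (overlap_smul hlam (fun i => rfl) a b v).2 hO
    have hv2 : nm (rv v) ≤ D + κ := by
      have h1 : rv v = pj P.ell P.u (rv v) + fun i => pa P.ell (rv v) / pa P.ell P.u * P.u i := by
        funext i
        simp [pj]
      have hp := pa_pos P.ell_pos P.u_pos
      rw [h1]
      refine (nm_add _ _).trans (add_le_add hv ?_)
      rw [nm_smul, abs_div, abs_of_pos hp, div_mul_eq_mul_div, div_le_iff₀ hp]
      have h2 : ∃ c, |pa P.ell (rv v)| ≤ P.ell c := by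
        unfold Overlap at hO
        have h3 : ∑ i, P.ell i * (v i : ℝ) = pa P.ell (rv v) := rfl
        rw [h3, max_lt_iff, lt_min_iff, lt_min_iff] at hO
        rcases abs_cases (pa P.ell (rv v)) with h | h
        · exact ⟨a, by rw [h.1]; exact hO.2.1.le⟩
        · exact ⟨b, by rw [h.1]; linarith [hO.1.2]⟩
      obtain ⟨c, hc⟩ := h2
      refine (mul_le_mul_of_nonneg_right hc (nm_nonneg _)).trans ?_
      rw [nm_pos_eq P.u_pos, Finset.mul_sum]
      unfold pa
      rw [Finset.mul_sum]
      refine Finset.sum_le_sum fun j _ => ?_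
      have h4 := mul_le_mul_of_nonneg_right (hcmp.2 c j) (P.u_pos j).le
      linarith
    rw [hD] at hv2
    have h5 := hb τ (List.mem_append_right _ (List.mem_singleton_self τ)) _ hpos a b v hv2 hO2
    have h6 := persist (S := compList l') (T := τ) (ne_nil_of_rpos hpos) h5
    rw [hS]
    exact h6
  have hdet : IsUnit (inc (compList l)).det := by
    rcases hM.2.1 with h | h <;> rw [h] <;> simp
  refine ⟨hM, ?_, ?_⟩
  · have h := gcc_of_hit R (compList l) rfl (2 * E) D hE0 (by rw [hRc, hD]) (by rw [hRr]) hpre hhit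
    rw [hRe] at h
    exact h
  · exact JFin_semi R hdet (2 * E) D hE0.le (by rw [hRc, hD]) (by rw [hRr]) 1 le_rfl _
      (by rw [pow_one]) hpre hhit

end Pool.Agent.R889.PZ
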