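import Mathlib

/-!
The probability that a random word of length `k` avoids a given word decays exponentially.
-/

set_option autoImplicit false

namespace Pool.Agent.R889.PZ
open scoped BigOperators

/-- the word `f` contains the word `W` -/
def Has {α : Type*} (W : List α) {k : ℕ} (f : Fin k → α) : Prop :=
  ∃ l₁ l₂ : List α, List.ofFn f = l₁ ++ W ++ l₂

theorem has_append_left {α : Type*} {W : List α} {k R : ℕ} {g : Fin k → α} (h : Fin R → α)
    (hg : Has W g) : Has W (Fin.append g h) := by
  obtain ⟨l₁, l₂, e⟩ := hg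
  refine ⟨l₁, l₂ ++ List.ofFn h, ?_⟩
  rw [List.ofFn_fin_append, e]
  simp [List.append_assoc]

theorem has_append_right {α : Type*} {W : List α} {k R : ℕ} (g : Fin k → α) {h : Fin R → α}
    (hh : List.ofFn h = W) : Has W (Fin.append g h) := by
  refine ⟨List.ofFn g, [], ?_⟩
  rw [List.ofFn_fin_append, hh, List.append_nil]

open Classical in
/-- total weight of the words of length `k` which avoid `W` -/
noncomputable def wt {α : Type*} [Fintype α] (p : α → ℝ) (W : List α) (k : ℕ) : ℝ :=
  ∑ f : Fin k → α, if Has W f then 0 else ∏ i, p (f i)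

open Classical in
theorem wt_step {α : Type*} [Fintype α] (p : α → ℝ) (hp : ∀ i, 0 < p i)
    (hs : ∑ i, p i = 1) (W : List α) (k : ℕ) :
    wt p W (k + W.length) ≤ wt p W k * (1 - ∏ j : Fin W.length, p (W.get j)) := by
  have h1 : ∑ h : Fin W.length → α, ∏ j, p (h j) = 1 := by
    rw [← Fintype.sum_pow, hs, one_pow]
  have hpr : ∀ {n : ℕ} (f : Fin n → α), 0 ≤ ∏ i, p (f i) := fun f =>
    Finset.prod_nonneg fun i _ => (hp _).le
  have h2 : ∑ h : Fin W.length → α, (if h = W.get then 0 else ∏ j, p (h j)) =
      1 - ∏ j : Fin W.length, p (W.get j) := by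
    rw [← h1]
    have : ∀ h : Fin W.length → α, (if h = W.get then 0 else ∏ j, p (h j)) =
        (∏ j, p (h j)) - (if h = W.get then ∏ j, p (h j) else 0) := by
      intro h
      split_ifs <;> simp
    rw [Finset.sum_congr rfl fun h _ => this h, Finset.sum_sub_distrib]
    congr 1
    rw [Finset.sum_ite_eq' Finset.univ W.get (fun h => ∏ j, p (h j))]
    simp
  have hterm : ∀ (g : Fin k → α) (h : Fin W.length → α),
      (if Has W (Fin.append g h) then (0:ℝ) else ∏ i, p (Fin.append g h i)) ≤
        (if Has W g then 0 else ∏ i, p (g i)) * (if h = W.get then 0 else ∏ j, p (h j)) := by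
    intro g h
    by_cases hg : Has W g
    · rw [if_pos hg, if_pos (has_append_left h hg), zero_mul]
    · rw [if_neg hg]
      by_cases hh : h = W.get
      · rw [if_pos hh, if_pos (has_append_right g (by rw [hh]; exact List.ofFn_get W)), mul_zero]
      · rw [if_neg hh]
        have h3 : ∏ i, p (Fin.append g h i) = (∏ i, p (g i)) * ∏ j, p (h j) := by
          rw [Fin.prod_univ_add]
          simp [Fin.append_left, Fin.append_right]
        split_ifs
        · exact mul_nonneg (hpr _) (hpr _)
        · rw [h3]
  unfold wt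
  rw [← h2, Finset.sum_mul_sum, ← Finset.sum_product', Finset.univ_product_univ]
  refine le_trans (le_of_eq ((Fin.appendEquiv k W.length).sum_comp
    (fun f => if Has W f then (0:ℝ) else ∏ i, p (f i))).symm) ?_
  exact Finset.sum_le_sum fun x _ => hterm x.1 x.2

open Classical in
theorem wt_le {α : Type*} [Fintype α] (p : α → ℝ) (hp : ∀ i, 0 < p i)
    (hs : ∑ i, p i = 1) (W : List α) (k : ℕ) : wt p W k ≤ 1 := by
  have h1 : ∑ h : Fin k → α, ∏ j, p (h j) = 1 := by
    rw [← Fintype.sum_pow, hs, one_pow]
  rw [← h1]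
  refine Finset.sum_le_sum fun f _ => ?_
  split_ifs
  · exact Finset.prod_nonneg fun i _ => (hp _).le
  · exact le_rfl

open Classical in
theorem wt_nonneg {α : Type*} [Fintype α] (p : α → ℝ) (hp : ∀ i, 0 < p i) (W : List α) (k : ℕ) :
    0 ≤ wt p W k := by
  refine Finset.sum_nonneg fun f _ => ?_
  split_ifs
  · exact le_rfl
  · exact Finset.prod_nonneg fun i _ => (hp _).le

theorem wt_exp {α : Type*} [Fintype α] (p : α → ℝ) (hp : ∀ i, 0 < p i)
    (hs : ∑ i, p i = 1) (W : List α) (hW : W ≠ []) :
    ∃ C c : ℝ, 0 < c ∧ ∀ k : ℕ, wt p W k ≤ C * Real.exp (-(c * k)) := by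
  have hR : 0 < W.length := List.length_pos_iff.2 hW
  have hR' : (0 : ℝ) < W.length := by exact_mod_cast hR
  obtain ⟨q, hq⟩ : ∃ q : ℝ, q = ∏ j : Fin W.length, p (W.get j) := ⟨_, rfl⟩
  have hq0 : 0 < q := by rw [hq]; exact Finset.prod_pos fun i _ => hp _
  obtain ⟨c, hc⟩ : ∃ c : ℝ, c = q / W.length := ⟨_, rfl⟩
  have hc0 : 0 < c := by rw [hc]; positivity
  have hcR : c * W.length = q := by rw [hc]; field_simp
  have key : ∀ k : ℕ, wt p W k ≤ Real.exp (c * W.length) * Real.exp (-(c * k)) := by
    intro k
    induction k using Nat.strong_induction_on with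
    | _ k ih =>
      rcases lt_or_ge k W.length with h | h
      · refine (wt_le p hp hs W k).trans ?_
        rw [← Real.exp_add]
        apply Real.one_le_exp
        have : (k:ℝ) ≤ W.length := by exact_mod_cast h.le
        nlinarith
      · obtain ⟨j, rfl⟩ : ∃ j, k = j + W.length := ⟨k - W.length, by omega⟩
        have h1 := wt_step p hp hs W j
        rw [← hq] at h1
        have h2 : 1 - q ≤ Real.exp (-(c * W.length)) := by
          rw [hcR]
          have := Real.add_one_le_exp (-q)
          linarith
        calc wt p W (j + W.length) ≤ wt p W j * (1 - q) := h1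
          _ ≤ wt p W j * Real.exp (-(c * W.length)) :=
              mul_le_mul_of_nonneg_left h2 (wt_nonneg p hp W j)
          _ ≤ (Real.exp (c * W.length) * Real.exp (-(c * j))) * Real.exp (-(c * W.length)) :=
              mul_le_mul_of_nonneg_right (ih j (by omega)) (Real.exp_pos _).le
          _ = _ := by
              rw [← Real.exp_add, ← Real.exp_add, ← Real.exp_add]
              congr 1
              push_cast
              ring
  exact ⟨_, c, hc0, key⟩

end Pool.Agent.R889.PZ
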