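import Pool.Agent.TH100.Pisot.Absorb
import Pool.Agent.TH100.Pisot.Pow
import Pool.Agent.Y316.Pisot.Power

/-!
Substitutions which satisfy the geometric coincidence condition are absorbing.
-/

set_option autoImplicit false

namespace Pool.Agent.R889.PZ
open Pool.Agent.H812R2.PI Pool.Agent.TH100.Pisot
open scoped BigOperators

variable {d : ℕ}

/-- The edges `(0, a)` and `(v, b)` overlap: the intervals `(0, ell a)` and
`(ell · v, ell · v + ell b)` intersect. -/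
def Overlap (ell : Fin d → ℝ) (a b : Fin d) (v : Fin d → ℤ) : Prop :=
  max 0 (∑ i, ell i * (v i : ℝ)) < min (ell a) ((∑ i, ell i * (v i : ℝ)) + ell b)

/-- geometric coincidence condition -/
def GCC (ell : Fin d → ℝ) (σ : Fin d → List (Fin d)) : Prop :=
  ∀ (a b : Fin d) (v : Fin d → ℤ), Overlap ell a b v →
    ∃ (n : ℕ) (e : (Fin d → ℤ) × Fin d), e ∈ edges 0 (iter σ n a) ∧
      e ∈ edges (((inc σ) ^ n).mulVec v) (iter σ n b)

theorem ov_pos_iff {M : Matrix (Fin d) (Fin d) ℤ} (P : PD M) (a b : Fin d) (v : Fin d → ℤ) :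
    0 < P.OV (0, a) (v, b) ↔ Overlap P.ell a b v := by
  unfold PD.OV ovl Overlap
  simp only [ht_zero, zero_add]
  rw [lt_max_iff]
  simp only [lt_irrefl, false_or, sub_pos]
  rfl

/-- a common edge persists -/
theorem persist {S T : Fin d → List (Fin d)} (hS : ∀ a, S a ≠ []) {a b : Fin d}
    {v : Fin d → ℤ} (h : ∃ e, e ∈ edges 0 (T a) ∧ e ∈ edges ((inc T).mulVec v) (T b)) :
    ∃ e, e ∈ edges 0 (comp S T a) ∧ e ∈ edges ((inc (comp S T)).mulVec v) (comp S T b) := by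
  obtain ⟨e, he1, he2⟩ := h
  obtain ⟨c, w, hcw⟩ := List.exists_cons_of_ne_nil (hS e.2)
  have hh : ((inc S).mulVec e.1, c) ∈ edges ((inc S).mulVec e.1) (S e.2) := by
    rw [hcw]
    simp [edges]
  refine ⟨((inc S).mulVec e.1, c), ?_, ?_⟩
  · have h2 := JComp_mem (S := S) he1 hh
    rw [Matrix.mulVec_zero] at h2
    exact h2
  · have h2 := JComp_mem (S := S) he2 hh
    rw [Matrix.mulVec_mulVec, ← inc_comp] at h2
    exact h2

theorem comp_iter (σ : Fin d → List (Fin d)) (m n : ℕ) :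
    comp (iter σ m) (iter σ n) = iter σ (m + n) := by
  funext a
  rw [iter_add]
  rfl

theorem iter_ne_nil {M : Matrix (Fin d) (Fin d) ℤ} (P : PD M) (σ : Fin d → List (Fin d))
    (s : ℕ) (hs : 1 ≤ s) (hσ : inc σ = M ^ s) (n : ℕ) (a : Fin d) : iter σ n a ≠ [] := by
  rcases Nat.eq_zero_or_pos n with h0 | h0
  · subst h0
    simp [iter_zero]
  · refine JList_ne_nil (P.pow (s * n) (Nat.mul_pos hs h0)) _ ?_ a
    rw [inc_iter, hσ, ← pow_mul]

/-- coincidences of all strengths -/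
theorem gcc_hit {M : Matrix (Fin d) (Fin d) ℤ} (P : PD M) (σ : Fin d → List (Fin d))
    (s : ℕ) (hs : 1 ≤ s) (hσ : inc σ = M ^ s) (hg : GCC P.ell σ) (D : ℝ) :
    ∃ n₀ : ℕ, ∀ n ≥ n₀, P.Hit (iter σ n) D := by
  classical
  have hfin := pairs_finite P D
  have key : ∀ t : Fin d × Fin d × (Fin d → ℤ), ∃ n : ℕ, t ∈ hfin.toFinset →
      ∃ e, e ∈ edges 0 (iter σ n t.1) ∧
        e ∈ edges ((inc (iter σ n)).mulVec t.2.2) (iter σ n t.2.1) := by
    intro t
    by_cases ht : t ∈ hfin.toFinset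
    · rw [Set.Finite.mem_toFinset] at ht
      obtain ⟨n, e, he1, he2⟩ := hg t.1 t.2.1 t.2.2 ((ov_pos_iff P _ _ _).1 ht.2)
      exact ⟨n, fun _ => ⟨e, he1, by rw [inc_iter]; exact he2⟩⟩
    · exact ⟨0, fun h => absurd h ht⟩
  choose f hf using key
  refine ⟨hfin.toFinset.sup f, fun n hn a b v hv hO => ?_⟩
  have hmem : (a, b, v) ∈ hfin.toFinset := by
    rw [Set.Finite.mem_toFinset]
    exact ⟨hv, hO⟩
  have h1 : f (a, b, v) ≤ n := le_trans (Finset.le_sup hmem) hn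
  have h2 := hf (a, b, v) hmem
  obtain ⟨j, rfl⟩ : ∃ j, n = j + f (a, b, v) := ⟨n - f (a, b, v), by omega⟩
  rw [← comp_iter]
  exact persist (iter_ne_nil P σ s hs hσ j) h2

/-- iterates of a substitution bring all overlapping pairs near to each other -/
theorem gcc_of_hit {A : Matrix (Fin d) (Fin d) ℤ} (Q : PD A) (S : Fin d → List (Fin d))
    (hS : inc S = A) (BS D : ℝ) (hBS : 0 < BS) (hD : (16 * Q.c ^ 2 + 4) * BS ≤ D)
    (hrho : Q.rho ≤ 1 / 2) (hpre : ∀ a j, Q.N (rv (ab ((S a).take j))) ≤ BS)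
    (hhit : Q.Hit S D) : GCC Q.ell S := by
  intro a b v hO
  have hc := Q.c_pos
  have hr : 0 < 1 - Q.rho := by linarith [Q.rho_lt]
  have hpos : 0 < 16 * Q.c ^ 2 * BS := by positivity
  obtain ⟨j, hj⟩ := exists_pow_lt_of_lt_one
    (div_pos hpos (by have := Q.N_nonneg (rv v); linarith : 0 < Q.N (rv v) + 1)) Q.rho_lt
  have hj' : Q.rho ^ j * Q.N (rv v) ≤ 16 * Q.c ^ 2 * BS := by
    have h0 := Q.N_nonneg (rv v)
    rw [lt_div_iff₀ (by linarith)] at hj
    have h1 : Q.rho ^ j * Q.N (rv v) ≤ Q.rho ^ j * (Q.N (rv v) + 1) :=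
      mul_le_mul_of_nonneg_left (by linarith) (pow_nonneg Q.rho_nonneg j)
    linarith
  have h2 : 2 * BS / (1 - Q.rho) ≤ 4 * BS := by
    rw [div_le_iff₀ hr]
    nlinarith
  have h3 := JList_rep Q S hS BS (Q.N (rv v)) hBS.le hpre j
  have h4 : Q.rho ^ j * Q.N (rv v) + 2 * BS / (1 - Q.rho) ≤ D := by linarith
  have h5 := ovTo_mono Q _ _ _ D h3 h4
  rw [Pool.Agent.Y316.Pisot.compList_replicate] at h5
  have h6 := hit_comp_left Q S (iter S j) (Q.N (rv v)) D h5 hhit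
  obtain ⟨e, he1, he2⟩ := h6 a b v le_rfl ((ov_pos_iff Q a b v).2 hO)
  have h7 : comp S (iter S j) = iter S (j + 1) := by
    rw [Nat.add_comm, ← comp_iter]
    congr 1
    funext x
    rw [iter_succ, iter_zero]
    simp [ext]
  rw [h7] at he1 he2
  exact ⟨j + 1, e, he1, by rw [← inc_iter]; exact he2⟩

/-- the conclusion for one substitution -/
def Good {m : ℕ} (ell : Fin (m+1) → ℝ) (S : Fin (m+1) → List (Fin (m+1))) : Prop :=
  PisotMat (inc S) ∧ GCC ell S ∧ SemiConjToral S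

theorem absorb {m : ℕ} (M : Matrix (Fin (m+1)) (Fin (m+1)) ℤ) (hnn : ∀ i j, 0 ≤ M i j)
    (hM : PisotMat M) (P : PD M) (σ : Fin (m+1) → List (Fin (m+1))) (s : ℕ) (hs : 1 ≤ s)
    (hσ : inc σ = M ^ s) (hg : GCC P.ell σ) (B0 : ℝ) :
    ∃ K : ℕ, ∀ k ≥ K, ∀ l₁ l₂ : List (Fin (m+1) → List (Fin (m+1))),
      (∀ ρ ∈ l₁ ++ l₂, Fac P B0 ρ) →
        Good P.ell (compList (l₁ ++ List.replicate k σ ++ l₂)) := by
  classical
  have hdet : IsUnit M.det := by
    rcases hM.2.1 with h | h <;> rw [h] <;> simp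
  have hr : 0 < 1 - P.rho := by linarith [P.rho_lt]
  -- bound for the factors
  obtain ⟨BF, hBF⟩ : ∃ BF : ℝ, BF = max B0 (P.c * ∑ a, ∑ b, ((M ^ s) a b : ℝ)) := ⟨_, rfl⟩
  have hfac0 : ∀ ρ, Fac P B0 ρ → Fac P BF ρ := fun ρ h =>
    ⟨h.1, fun a k => (h.2 a k).trans (by rw [hBF]; exact le_max_left _ _)⟩
  have hfacσ : Fac P BF σ := by
    refine ⟨⟨s, hs, hσ⟩, fun a k => ?_⟩
    have h1 := JFin_BT (P.pow s hs) (GFin_pow_nonneg M hnn s) σ hσ a k
    exact h1.trans (by rw [hBF]; exact le_max_right _ _)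
  have hBF0 : 0 ≤ BF := le_trans (P.N_nonneg _) (hfacσ.2 0 0)
  obtain ⟨BS, hBS⟩ : ∃ BS : ℝ, BS = BF / (1 - P.rho) + ∑ a, P.N (rv (ev a)) + 1 := ⟨_, rfl⟩
  have hBS0 : 0 < BS := by
    have h1 : 0 ≤ BF / (1 - P.rho) := div_nonneg hBF0 hr.le
    have h2 : 0 ≤ ∑ a, P.N (rv (ev a)) := Finset.sum_nonneg fun a _ => P.N_nonneg _
    rw [hBS]
    linarith
  obtain ⟨D, hD⟩ : ∃ D : ℝ, D = (16 * P.c ^ 2 + 4) * BS + 2 * BF / (1 - P.rho) := ⟨_, rfl⟩
  have hq1 : 0 ≤ 2 * BF / (1 - P.rho) := div_nonneg (by linarith) hr.le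
  have hq2 : 0 ≤ (16 * P.c ^ 2 + 4) * BS := mul_nonneg (by positivity) hBS0.le
  have hD0 : 0 ≤ D := by rw [hD]; linarith
  have hDBS : (16 * P.c ^ 2 + 4) * BS ≤ D := by rw [hD]; linarith
  have hDBF : 2 * BF ≤ (1 - P.rho) * D := by
    have h1 : 2 * BF / (1 - P.rho) ≤ D := by rw [hD]; linarith
    rw [div_le_iff₀ hr] at h1
    linarith
  have hrho : ∀ᶠ n : ℕ in Filter.atTop, P.rho ^ n ≤ 1 / 2 := by
    have h := tendsto_pow_atTop_nhds_zero_of_lt_one P.rho_nonneg P.rho_lt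
    exact (h.eventually (gt_mem_nhds (show (0:ℝ) < 1/2 by norm_num))).mono fun n hn => hn.le
  obtain ⟨n1, hn1⟩ := Filter.eventually_atTop.mp hrho
  obtain ⟨n0, hn0⟩ := gcc_hit P σ s hs hσ hg D
  refine ⟨max (max n0 n1) 1, fun k hk l₁ l₂ hl => ?_⟩
  have hk0 : n0 ≤ k := le_trans (le_trans (le_max_left _ _) (le_max_left _ _)) hk
  have hk1 : n1 ≤ k := le_trans (le_trans (le_max_right _ _) (le_max_left _ _)) hk
  have h1k : 1 ≤ k := le_trans (le_max_right _ _) hk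
  have hl1 : ∀ ρ ∈ l₁, Fac P BF ρ := fun ρ h => hfac0 ρ (hl ρ (List.mem_append_left _ h))
  have hl2 : ∀ ρ ∈ l₂, Fac P BF ρ := fun ρ h => hfac0 ρ (hl ρ (List.mem_append_right _ h))
  have hrep : ∀ ρ ∈ List.replicate k σ, Fac P BF ρ := fun ρ h => by
    rw [List.eq_of_mem_replicate h]
    exact hfacσ
  have hall : ∀ ρ ∈ l₁ ++ List.replicate k σ ++ l₂, Fac P BF ρ := by
    intro ρ h
    rw [List.mem_append, List.mem_append] at h
    rcases h with (h | h) | h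
    · exact hl1 ρ h
    · exact hrep ρ h
    · exact hl2 ρ h
  obtain ⟨N, hNlen, hinc⟩ := fac_inc P BF (l₁ ++ List.replicate k σ ++ l₂) hall
  have hNk : k ≤ N := by
    simp only [List.length_append, List.length_replicate] at hNlen
    omega
  have hN1 : 1 ≤ N := le_trans h1k hNk
  have hhit : P.Hit (compList (l₁ ++ List.replicate k σ ++ l₂)) D := by
    rw [compList_append, compList_append, comp_assoc]
    refine hit_comp_right P _ _ (fac_ne_nil P BF l₁ hl1) D ?_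
    refine hit_comp_left P _ _ D D (fac_ovTo P l₂ BF D hD0 hl2 hDBF) ?_
    rw [Pool.Agent.Y316.Pisot.compList_replicate]
    exact hn0 k hk0
  have hpre : ∀ a j, P.N (rv (ab ((compList (l₁ ++ List.replicate k σ ++ l₂) a).take j))) ≤ BS := by
    intro a j
    refine (fac_prefix P _ BF hBF0 hall a j).trans ?_
    rw [hBS]
    have := Finset.single_le_sum (f := fun a => P.N (rv (ev a)))
      (fun a _ => P.N_nonneg _) (Finset.mem_univ a)
    linarith
  have hrN : P.rho ^ N ≤ 1 / 2 := hn1 _ (le_trans hk1 hNk)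
  refine ⟨?_, ?_, ?_⟩
  · rw [hinc]
    exact pisotMat_pow M hnn hM N hN1
  · have h := gcc_of_hit (P.pow N hN1) (compList (l₁ ++ List.replicate k σ ++ l₂)) hinc BS D hBS0
      hDBS hrN hpre (fun a b v hv hO => hhit a b v hv hO)
    exact h
  · refine JFin_semi (P.pow N hN1) (by rw [Matrix.det_pow]; exact hdet.pow _) BS D hBS0.le
      hDBS hrN 1 le_rfl _ (by rw [pow_one]; exact hinc) hpre ?_
    intro a b v hv hO
    exact hhit a b v hv hO

end Pool.Agent.R889.PZ
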