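import Pool.Agent.R889.PZ.Core

/-!
The positive left eigenvector of a Pisot matrix is unique up to a factor.
-/

set_option autoImplicit false

namespace Pool.Agent.R889.PZ
open Pool.Agent.H812R2.PI Pool.Agent.TH100.Pisot
open scoped BigOperators

variable {d : ℕ}

theorem act_iter_pair {M : Matrix (Fin d) (Fin d) ℤ} (w : Fin d → ℝ) (lam : ℝ)
    (hw : ∀ j, ∑ i, w i * (M i j : ℝ) = lam * w j) (x : Fin d → ℝ) (n : ℕ) :
    ∑ i, w i * ((act M)^[n] x) i = lam ^ n * ∑ i, w i * x i := by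
  induction n with
  | zero => simp
  | succ n ih =>
    rw [Function.iterate_succ_apply', pow_succ, mul_comm (lam ^ n) lam, mul_assoc, ← ih]
    unfold act
    simp only [Finset.mul_sum]
    rw [Finset.sum_comm]
    refine Finset.sum_congr rfl fun j _ => ?_
    have h1 : ∀ i, w i * ((M i j : ℝ) * (act M)^[n] x j) =
        (w i * (M i j : ℝ)) * (act M)^[n] x j := fun i => by ring
    have h2 : ∑ i, w i * ((M i j : ℝ) * (act M)^[n] x j) = lam * (w j * (act M)^[n] x j) := by
      rw [Finset.sum_congr rfl fun i _ => h1 i, ← Finset.sum_mul, hw j]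
      ring
    exact h2

theorem ell_unique {M : Matrix (Fin d) (Fin d) ℤ} (P : PD M) (ell : Fin d → ℝ) (lam' : ℝ)
    (hpos : ∀ i, 0 < ell i) (hell : ∀ j, ∑ i, ell i * (M i j : ℝ) = lam' * ell j) :
    ∃ κ : ℝ, 0 < κ ∧ ∀ i, ell i = κ * P.ell i := by
  classical
  have hne : (Finset.univ : Finset (Fin d)).Nonempty := by
    by_contra h
    rw [Finset.not_nonempty_iff_eq_empty] at h
    have := P.u_sum
    rw [h, Finset.sum_empty] at this
    norm_num at this
  have hA : 0 < ∑ i, ell i * P.u i := Finset.sum_pos (fun i _ => mul_pos (hpos i) (P.u_pos i)) hne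
  have hB : 0 < ∑ i, P.ell i * P.u i :=
    Finset.sum_pos (fun i _ => mul_pos (P.ell_pos i) (P.u_pos i)) hne
  have hlam : lam' = P.lam := by
    have h1 := act_iter_pair (M := M) ell lam' hell P.u 1
    rw [Function.iterate_one, pow_one] at h1
    have h2 : act M P.u = fun i => P.lam * P.u i := by
      funext i
      exact P.M_u i
    rw [h2] at h1
    have h3 : ∑ i, ell i * (P.lam * P.u i) = P.lam * ∑ i, ell i * P.u i := by
      rw [Finset.mul_sum]
      exact Finset.sum_congr rfl fun i _ => by ring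
    rw [h3] at h1
    exact (mul_right_cancel₀ hA.ne' h1).symm
  subst hlam
  obtain ⟨κ, hκ⟩ : ∃ κ : ℝ, κ = (∑ i, ell i * P.u i) / ∑ i, P.ell i * P.u i := ⟨_, rfl⟩
  have hκ0 : 0 < κ := by rw [hκ]; positivity
  refine ⟨κ, hκ0, ?_⟩
  obtain ⟨w, hw⟩ : ∃ w : Fin d → ℝ, w = fun i => ell i - κ * P.ell i := ⟨_, rfl⟩
  have hwu : ∑ i, w i * P.u i = 0 := by
    have : ∀ i, w i * P.u i = ell i * P.u i - κ * (P.ell i * P.u i) := fun i => by
      rw [hw]; ring
    rw [Finset.sum_congr rfl fun i _ => this i, Finset.sum_sub_distrib, ← Finset.mul_sum, hκ,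
      div_mul_cancel₀ _ hB.ne', sub_self]
  have hwM : ∀ j, ∑ i, w i * (M i j : ℝ) = P.lam * w j := by
    intro j
    have : ∀ i, w i * (M i j : ℝ) = ell i * (M i j : ℝ) - κ * (P.ell i * (M i j : ℝ)) := fun i => by
      rw [hw]; ring
    rw [Finset.sum_congr rfl fun i _ => this i, Finset.sum_sub_distrib, ← Finset.mul_sum, hell,
      P.ell_M, hw]
    ring
  have hbd : ∀ x : Fin d → ℝ, |∑ i, w i * x i| ≤ (∑ i, |w i|) * (P.c * P.N x) := by
    intro x
    have h1 : ∑ i, w i * x i = ∑ i, w i * (x i - (∑ j, x j) * P.u i) := by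
      have : ∀ i, w i * (x i - (∑ j, x j) * P.u i) = w i * x i - (∑ j, x j) * (w i * P.u i) :=
        fun i => by ring
      rw [Finset.sum_congr rfl fun i _ => this i, Finset.sum_sub_distrib, ← Finset.mul_sum, hwu,
        mul_zero, sub_zero]
    rw [h1, Finset.sum_mul]
    refine (Finset.abs_sum_le_sum_abs _ _).trans (Finset.sum_le_sum fun i _ => ?_)
    rw [abs_mul]
    exact mul_le_mul_of_nonneg_left (P.le_cN x i) (abs_nonneg _)
  have hdec : ∀ (x : Fin d → ℝ) (n : ℕ), P.N ((act M)^[n] x) ≤ P.N x := by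
    intro x n
    induction n with
    | zero => exact le_rfl
    | succ n ih =>
      rw [Function.iterate_succ_apply']
      refine (P.N_act _).trans ?_
      have h0 := P.N_nonneg ((act M)^[n] x)
      have := P.rho_lt
      have h2 : P.rho * P.N ((act M)^[n] x) ≤ 1 * P.N ((act M)^[n] x) :=
        mul_le_mul_of_nonneg_right this.le h0
      linarith
  have hzero : ∀ x : Fin d → ℝ, ∑ i, w i * x i = 0 := by
    intro x
    by_contra hx
    have hx' : 0 < |∑ i, w i * x i| := abs_pos.2 hx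
    obtain ⟨n, hn⟩ := pow_unbounded_of_one_lt
      ((∑ i, |w i|) * (P.c * P.N x) / |∑ i, w i * x i|) P.lam_gt
    rw [div_lt_iff₀ hx'] at hn
    have h1 := hbd ((act M)^[n] x)
    rw [act_iter_pair w P.lam hwM x n, abs_mul, abs_of_pos (pow_pos (lt_trans one_pos P.lam_gt) n)]
      at h1
    have h2 : (∑ i, |w i|) * (P.c * P.N ((act M)^[n] x)) ≤ (∑ i, |w i|) * (P.c * P.N x) :=
      mul_le_mul_of_nonneg_left (mul_le_mul_of_nonneg_left (hdec x n) P.c_pos.le)
        (Finset.sum_nonneg fun i _ => abs_nonneg _)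
    linarith
  intro i
  have h1 := hzero (fun j => if j = i then 1 else 0)
  simp only [mul_ite, mul_one, mul_zero] at h1
  rw [Finset.sum_ite_eq' Finset.univ i w] at h1
  simp only [Finset.mem_univ, if_true] at h1
  rw [hw] at h1
  linarith

theorem overlap_smul {ell ell' : Fin d → ℝ} {κ : ℝ} (hκ : 0 < κ) (h : ∀ i, ell i = κ * ell' i)
    (a b : Fin d) (v : Fin d → ℤ) : Overlap ell a b v ↔ Overlap ell' a b v := by
  unfold Overlap
  have h1 : ∑ i, ell i * (v i : ℝ) = κ * ∑ i, ell' i * (v i : ℝ) := by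
    rw [Finset.mul_sum]
    exact Finset.sum_congr rfl fun i _ => by rw [h i]; ring
  rw [h1, h a, h b, ← mul_add]
  have h2 : max 0 (κ * ∑ i, ell' i * (v i : ℝ)) = κ * max 0 (∑ i, ell' i * (v i : ℝ)) := by
    rw [mul_max_of_nonneg _ _ hκ.le, mul_zero]
  have h3 : min (κ * ell' a) (κ * ((∑ i, ell' i * (v i : ℝ)) + ell' b)) =
      κ * min (ell' a) ((∑ i, ell' i * (v i : ℝ)) + ell' b) := by
    rw [mul_min_of_nonneg _ _ hκ.le]
  rw [h2, h3]
  exact mul_lt_mul_iff_right₀ hκ

theorem gcc_smul {ell ell' : Fin d → ℝ} {κ : ℝ} (hκ : 0 < κ) (h : ∀ i, ell i = κ * ell' i)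
    (σ : Fin d → List (Fin d)) : GCC ell σ ↔ GCC ell' σ := by
  unfold GCC
  simp only [overlap_smul hκ h]

end Pool.Agent.R889.PZ
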