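import Pool.Agent.R889.PZ.NMain

/-!
Generic substitutions of bounded discrepancy absorb in all compositions of blocks.
-/

set_option autoImplicit false

namespace Pool.Agent.R889.PZ
open Pool.Agent.H812R2.PI Pool.Agent.TH100.Pisot
open scoped BigOperators

variable {m : ℕ} {κ E Q : ℝ}

/-- `ρ ∘ τ` with `ρ` of determinant `± 1` and size at most `T`, and `τ` a substitution with incidence
matrix `M i ^ k`, `k ≥ K`, and discrepancy at most `B` -/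
def TubeBlock {ι : Type*} (M : ι → Matrix (Fin (m+1)) (Fin (m+1)) ℤ) (u : ι → Fin (m+1) → ℝ)
    (B : ℝ) (T K : ℕ) (τ : Fin (m+1) → List (Fin (m+1))) : Prop :=
  ∃ ρ τ' : Fin (m+1) → List (Fin (m+1)), τ = comp ρ τ' ∧
    ((inc ρ).det = 1 ∨ (inc ρ).det = -1) ∧ (∀ a, (ρ a).length ≤ T) ∧
    ∃ i k, K ≤ k ∧ τ' ∈ SubSet (u i) (M i ^ k) B

theorem hb_hit {M : Matrix (Fin (m+1)) (Fin (m+1)) ℤ} (P : PD M) (D : ℝ) :
    ∃ K : ℕ, ∀ k ≥ K, ∀ ρ : Fin (m+1) → List (Fin (m+1)), (inc ρ).det ≠ 0 →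
      ∀ τ : Fin (m+1) → List (Fin (m+1)), inc τ = M ^ k → P.Hit τ (P.c * (2 * D)) →
        Hb D (comp ρ τ) := by
  obtain ⟨K1, hK1⟩ := sign_all P (D + 1)
  obtain ⟨κ, K3, hK3⟩ := cmp_pow P
  refine ⟨max K1 K3, fun k hk ρ hdet τ hτ hhit f hf a b v hv hO => ?_⟩
  have hk1 : K1 ≤ k := le_trans (le_max_left _ _) hk
  have hk3 : K3 ≤ k := le_trans (le_max_right _ _) hk
  have hh := col_pos ρ hdet hf
  rw [inc_comp, hτ, ra_mul] at hO
  have hpos := (hK3 k hk3 _ hh).1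
  rw [overlap_iff hpos] at hO
  have hn1 : nm (rv (v + ev b)) ≤ D + 1 := by
    rw [rv_add]
    refine (nm_add _ _).trans ?_
    rw [nm_ev]
    linarith
  have hn2 : nm (rv (ev a - v)) ≤ D + 1 := by
    rw [rv_sub, sub_eq_add_neg]
    refine (nm_add _ _).trans ?_
    rw [nm_ev, nm_neg]
    linarith
  have h1 := hK1 k hk1 _ hn1 _ hh hO.1
  have h2 := hK1 k hk1 _ hn2 _ hh hO.2
  have hO2 : Overlap P.ell a b v := (overlap_iff P.ell_pos a b v).2 ⟨h1, h2⟩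
  have hv2 : P.N (rv v) ≤ P.c * (2 * D) :=
    (N_le_nm P _).trans (mul_le_mul_of_nonneg_left (by linarith) P.c_pos.le)
  have h3 := hhit a b v hv2 ((ov_pos_iff P a b v).2 hO2)
  exact persist (S := ρ) (T := τ) (ne_nil_of_rpos hh) h3

/-- constants for a finite family of Pisot matrices -/
theorem family_consts {ι : Type*} [Fintype ι] (M : ι → Matrix (Fin (m+1)) (Fin (m+1)) ℤ)
    (R : ∀ i, PD (M i)) (T : ℕ) (B : ℝ) :
    ∃ κ E Q : ℝ, 1 ≤ κ ∧ 1 + κ ≤ E ∧ 0 < Q ∧ ((m:ℝ) + 1) * (2 + κ) < Q ∧ ∃ K : ℕ,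
      ∀ τ : Fin (m+1) → List (Fin (m+1)), TubeBlock M (fun i => (R i).u) B T K τ →
        Blk κ E Q τ := by
  classical
  have hall : ∀ i, ∃ κ₀ : ℝ, 1 ≤ κ₀ ∧ ∀ κ ≥ κ₀, ∃ E₀ : ℝ, 1 + κ ≤ E₀ ∧ ∀ E ≥ E₀, ∀ Q : ℝ, ∃ K : ℕ,
      ∀ k ≥ K, ∀ ρ : Fin (m+1) → List (Fin (m+1)), (inc ρ).det ≠ 0 → (∀ a, (ρ a).length ≤ T) →
      ∀ τ : Fin (m+1) → List (Fin (m+1)), inc τ = M i ^ k →
        (∀ a j, (R i).N (rv (ab ((τ a).take j))) ≤ (R i).c * |B|) → Blk κ E Q (comp ρ τ) :=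
    fun i => blk_sub (R i) T ((R i).c * |B|)
  choose κi hκi1 hblki using hall
  obtain ⟨κ, hκd⟩ : ∃ κ : ℝ, κ = 1 + ∑ i, κi i := ⟨_, rfl⟩
  have hs0 : 0 ≤ ∑ i, κi i := Finset.sum_nonneg fun i _ => zero_le_one.trans (hκi1 i)
  have hκi : ∀ i, κ ≥ κi i := by
    intro i
    have := Finset.single_le_sum (f := κi) (fun i _ => zero_le_one.trans (hκi1 i))
      (Finset.mem_univ i)
    rw [hκd]
    linarith
  have hκ : 1 ≤ κ := by rw [hκd]; linarith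
  have hall2 := fun i => hblki i κ (hκi i)
  choose Ei hEi1 hblki using hall2
  obtain ⟨E, hEd⟩ : ∃ E : ℝ, E = (1 + κ) + ∑ i, Ei i := ⟨_, rfl⟩
  have hs1 : 0 ≤ ∑ i, Ei i := Finset.sum_nonneg fun i _ => by linarith [hEi1 i]
  have hEi : ∀ i, E ≥ Ei i := by
    intro i
    have := Finset.single_le_sum (f := Ei) (fun i _ => by linarith [hEi1 i])
      (Finset.mem_univ i)
    rw [hEd]
    linarith
  have hE : 1 + κ ≤ E := by rw [hEd]; linarith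
  obtain ⟨Q, hQ⟩ : ∃ Q : ℝ, Q = ((m:ℝ) + 1) * (2 + κ) + 1 := ⟨_, rfl⟩
  have hall3 := fun i => hblki i E (hEi i) Q
  choose Ki hKi using hall3
  have hm0 : (0:ℝ) ≤ m := Nat.cast_nonneg m
  refine ⟨κ, E, Q, hκ, hE, by rw [hQ]; positivity, by rw [hQ]; linarith, ∑ i, Ki i, ?_⟩
  rintro τ ⟨ρ, τ', rfl, hdet, hT, i, k, hk, hi⟩
  have hdet' : (inc ρ).det ≠ 0 := by
    rcases hdet with h | h <;> rw [h] <;> norm_num
  have h1 : Ki i ≤ ∑ i, Ki i := Finset.single_le_sum (f := Ki) (fun i _ => Nat.zero_le _)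
    (Finset.mem_univ i)
  refine hKi i k (h1.trans hk) ρ hdet' hT τ' hi.1 fun a j => ?_
  exact GFin_dis_N (R i) |B| (abs_nonneg B) _ ((hi.2 a j).trans (sq_abs B).ge)

theorem tube_det {ι : Type*} {M : ι → Matrix (Fin (m+1)) (Fin (m+1)) ℤ}
    (hM : ∀ i, PisotMat (M i)) {u : ι → Fin (m+1) → ℝ} {B : ℝ} {T K : ℕ}
    {τ : Fin (m+1) → List (Fin (m+1))} (h : TubeBlock M u B T K τ) :
    (inc τ).det = 1 ∨ (inc τ).det = -1 := by
  obtain ⟨ρ, τ', rfl, hdet, hT, i, k, hk, hi⟩ := h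
  rw [inc_comp, Matrix.det_mul]
  have h1 : (inc τ').det = 1 ∨ (inc τ').det = -1 := by
    rw [hi.1]
    exact det_pow_pm _ (hM i).2.1 k
  rcases hdet with h2 | h2 <;> rcases h1 with h3 | h3 <;> rw [h2, h3] <;> norm_num

theorem generic_blocks {ι : Type*} [Fintype ι] (M : ι → Matrix (Fin (m+1)) (Fin (m+1)) ℤ)
    (hnn : ∀ i a b, 0 ≤ M i a b) (hM : ∀ i, PisotMat (M i)) (R : ∀ i, PD (M i)) :
    ∃ B₀ : ℝ, ∀ B ≥ B₀, ∀ T : ℕ, ∃ (K : ℕ) (c : ℝ), 0 < c ∧ ∀ i, ∀ n ≥ K,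
      (SubSet (R i).u (M i ^ n) B).Finite ∧ (SubSet (R i).u (M i ^ n) B).Nonempty ∧
      ({τ | τ ∈ SubSet (R i).u (M i ^ n) B ∧ ¬ ∀ ρ : Fin (m+1) → List (Fin (m+1)),
          ((inc ρ).det = 1 ∨ (inc ρ).det = -1) → (∀ a, (ρ a).length ≤ T) →
          ∀ l₁ l₂ : List (Fin (m+1) → List (Fin (m+1))),
          (∀ τ' ∈ l₁ ++ l₂, TubeBlock M (fun i => (R i).u) B T K τ') →
            PisotMat (inc (compList (l₁ ++ [comp ρ τ] ++ l₂))) ∧
            Coinc (compList (l₁ ++ [comp ρ τ] ++ l₂)) ∧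
            SemiConjToral (compList (l₁ ++ [comp ρ τ] ++ l₂))}.ncard : ℝ) ≤
        Real.exp (-(c * ∑ a, ∑ b, ((M i ^ n) a b : ℝ))) *
          ((SubSet (R i).u (M i ^ n) B).ncard : ℝ) := by
  classical
  have hall := fun i => generic_UC (M i) (hnn i) (R i)
  choose B1 hB1 using hall
  refine ⟨∑ i, |B1 i|, fun B hB T => ?_⟩
  have hBi : ∀ i, B ≥ B1 i := by
    intro i
    have := Finset.single_le_sum (f := fun i => |B1 i|) (fun i _ => abs_nonneg _)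
      (Finset.mem_univ i)
    exact (le_abs_self _).trans (this.trans hB)
  obtain ⟨κ, E, Q, hκ, hE, hQ0, hQ, K0, hK0⟩ := family_consts M R T B
  obtain ⟨D, hD⟩ : ∃ D : ℝ, D = (16 * (2 + (1 + κ) * ((m:ℝ) + 1)) ^ 2 + 4) * (2 * E) + κ :=
    ⟨_, rfl⟩
  have hall1 := fun i => hb_hit (R i) D
  choose K1 hK1 using hall1
  have hall2 := fun i => hB1 i B (hBi i) ((R i).c * (2 * D))
  choose c hc n0 hn0 hgen using hall2
  obtain ⟨c0, hc0, hc0i⟩ : ∃ c0 : ℝ, 0 < c0 ∧ ∀ i, c0 ≤ c i := by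
    have hs : 0 ≤ ∑ i, (c i)⁻¹ := Finset.sum_nonneg fun i _ => (inv_pos.2 (hc i)).le
    refine ⟨(1 + ∑ i, (c i)⁻¹)⁻¹, by positivity, fun i => ?_⟩
    have h1 := Finset.single_le_sum (f := fun i => (c i)⁻¹)
      (fun i _ => (inv_pos.2 (hc i)).le) (Finset.mem_univ i)
    exact inv_le_of_inv_le₀ (hc i) (by linarith)
  refine ⟨K0 + ∑ i, K1 i + ∑ i, n0 i, c0, hc0, fun i n hn => ?_⟩
  have hKi : K1 i ≤ ∑ i, K1 i := Finset.single_le_sum (f := K1) (fun i _ => Nat.zero_le _)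
    (Finset.mem_univ i)
  have hni : n0 i ≤ ∑ i, n0 i := Finset.single_le_sum (f := n0) (fun i _ => Nat.zero_le _)
    (Finset.mem_univ i)
  have h1n : 1 ≤ n := le_trans (hn0 i) (by omega)
  obtain ⟨hfin, hne, hcard⟩ := hgen i n (by omega) h1n
  refine ⟨hfin, hne, ?_⟩
  refine le_trans ?_ (le_trans hcard ?_)
  · have hsub : {τ | τ ∈ SubSet (R i).u (M i ^ n) B ∧ ¬ ∀ ρ : Fin (m+1) → List (Fin (m+1)),
          ((inc ρ).det = 1 ∨ (inc ρ).det = -1) → (∀ a, (ρ a).length ≤ T) →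
          ∀ l₁ l₂ : List (Fin (m+1) → List (Fin (m+1))),
          (∀ τ' ∈ l₁ ++ l₂, TubeBlock M (fun i => (R i).u) B T (K0 + ∑ i, K1 i + ∑ i, n0 i) τ') →
            PisotMat (inc (compList (l₁ ++ [comp ρ τ] ++ l₂))) ∧
            Coinc (compList (l₁ ++ [comp ρ τ] ++ l₂)) ∧
            SemiConjToral (compList (l₁ ++ [comp ρ τ] ++ l₂))} ⊆
        {σ | σ ∈ SubSet (R i).u (M i ^ n) B ∧
          ¬ ((R i).pow n h1n).UC σ ((R i).c * (2 * D))} := by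
      rintro τ ⟨hτ, hnot⟩
      refine ⟨hτ, fun hUC => hnot ?_⟩
      intro ρ hdet hT l₁ l₂ hl
      have hhit : (R i).Hit τ ((R i).c * (2 * D)) := by
        intro a b v hv hO
        have := hUC a b v hv hO
        rw [hτ.1]
        exact this
      have hdet' : (inc ρ).det ≠ 0 := by
        rcases hdet with h | h <;> rw [h] <;> norm_num
      have hHb : Hb D (comp ρ τ) := hK1 i n (by omega) ρ hdet' τ hτ.1 hhit
      have hmem : ∀ τ' ∈ l₁ ++ [comp ρ τ] ++ l₂,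
          TubeBlock M (fun i => (R i).u) B T K0 τ' := by
        intro τ' h
        rw [List.mem_append, List.mem_append] at h
        have hmono : ∀ τ'', TubeBlock M (fun i => (R i).u) B T (K0 + ∑ i, K1 i + ∑ i, n0 i) τ'' →
            TubeBlock M (fun i => (R i).u) B T K0 τ'' := by
          rintro τ'' ⟨ρ', τ₀, h1, h2, h3, i', k, hk, h4⟩
          exact ⟨ρ', τ₀, h1, h2, h3, i', k, by omega, h4⟩
        rcases h with (h | h) | h
        · exact hmono _ (hl τ' (List.mem_append_left _ h))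
        · rw [List.mem_singleton.1 h]
          exact ⟨ρ, τ, rfl, hdet, hT, i, n, by omega, hτ⟩
        · exact hmono _ (hl τ' (List.mem_append_right _ h))
      have hb : ∀ τ' ∈ l₁ ++ [comp ρ τ] ++ l₂, Blk κ E Q τ' := fun τ' h => hK0 τ' (hmem τ' h)
      have hpis : PisotMat (inc (compList (l₁ ++ [comp ρ τ] ++ l₂))) :=
        list_pisot hQ hκ _ hb (by simp) fun τ' h => tube_det hM (hmem τ' h)
      obtain ⟨lam', u', hlam', hu', hs'⟩ := exists_u _ (inc_nonneg _) hpis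
      obtain ⟨P', -, -⟩ := exists_PD _ (inc_nonneg _) hpis lam' hlam' u' hu' hs'
      rw [hD] at hHb
      have hgood := list_good2 hQ0 hE l₁ l₂ (comp ρ τ) hb hHb hpis P'
      exact ⟨hpis, (coinc_iff P').2 hgood.2.1, hgood.2.2⟩
    exact_mod_cast Set.ncard_le_ncard hsub (hfin.subset fun σ h => h.1)
  · refine mul_le_mul_of_nonneg_right ?_ (Nat.cast_nonneg _)
    rw [Real.exp_le_exp]
    have h0 : 0 ≤ ∑ a, ∑ b, ((M i ^ n) a b : ℝ) := Finset.sum_nonneg fun a _ =>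
      Finset.sum_nonneg fun b _ => by exact_mod_cast GFin_pow_nonneg (M i) (hnn i) n a b
    have := mul_le_mul_of_nonneg_right (hc0i i) h0
    linarith

/-- final form -/
theorem main_generic {ι : Type*} [Fintype ι] (M : ι → Matrix (Fin (m+1)) (Fin (m+1)) ℤ)
    (hnn : ∀ i a b, 0 ≤ M i a b) (hM : ∀ i, PisotMat (M i)) (lam : ι → ℝ) (hlam : ∀ i, 1 < lam i)
    (u : ι → Fin (m+1) → ℝ) (hu : ∀ i a, ∑ b, (M i a b : ℝ) * u i b = lam i * u i a)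
    (husum : ∀ i, ∑ a, u i a = 1) :
    ∃ B₀ : ℝ, ∀ B ≥ B₀, ∀ T : ℕ, ∃ (K : ℕ) (c : ℝ), 0 < c ∧ ∀ i, ∀ n ≥ K,
      (SubSet (u i) (M i ^ n) B).Finite ∧ (SubSet (u i) (M i ^ n) B).Nonempty ∧
      ({τ | τ ∈ SubSet (u i) (M i ^ n) B ∧ ¬ ∀ ρ : Fin (m+1) → List (Fin (m+1)),
          ((inc ρ).det = 1 ∨ (inc ρ).det = -1) → (∀ a, (ρ a).length ≤ T) →
          ∀ l₁ l₂ : List (Fin (m+1) → List (Fin (m+1))),
          (∀ τ' ∈ l₁ ++ l₂, TubeBlock M u B T K τ') →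
            PisotMat (inc (compList (l₁ ++ [comp ρ τ] ++ l₂))) ∧
            Coinc (compList (l₁ ++ [comp ρ τ] ++ l₂)) ∧
            SemiConjToral (compList (l₁ ++ [comp ρ τ] ++ l₂))}.ncard : ℝ) ≤
        Real.exp (-(c * ∑ a, ∑ b, ((M i ^ n) a b : ℝ))) *
          ((SubSet (u i) (M i ^ n) B).ncard : ℝ) := by
  have hall : ∀ i, ∃ R : PD (M i), R.u = u i := fun i => by
    obtain ⟨R, h, -⟩ := exists_PD (M i) (hnn i) (hM i) (lam i) (hlam i) (u i) (hu i) (husum i)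
    exact ⟨R, h⟩
  choose R hR using hall
  have hR' : u = fun i => (R i).u := (funext hR).symm
  subst hR'
  exact generic_blocks M hnn hM R

end Pool.Agent.R889.PZ
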