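import Pool.Agent.R889.PZ.Ell
import Pool.Agent.R889.PZ.Cnt

/-!
The zero-one law for compositions of substitutions whose incidence matrices are powers of a Pisot
matrix.
-/

set_option autoImplicit false

namespace Pool.Agent.R889.PZ
open Pool.Agent.H812R2.PI Pool.Agent.TH100.Pisot
open scoped BigOperators

theorem good_smul {m : ℕ} {ell ell' : Fin (m+1) → ℝ} {κ : ℝ} (hκ : 0 < κ)
    (h : ∀ i, ell i = κ * ell' i) (S : Fin (m+1) → List (Fin (m+1))) :
    Good ell S ↔ Good ell' S := by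
  unfold Good
  rw [gcc_smul hκ h]

theorem good_self {m : ℕ} (M : Matrix (Fin (m+1)) (Fin (m+1)) ℤ) (hnn : ∀ i j, 0 ≤ M i j)
    (hM : PisotMat M) (P : PD M) (σ : Fin (m+1) → List (Fin (m+1))) (s : ℕ) (hs : 1 ≤ s)
    (hσ : inc σ = M ^ s) (hg : GCC P.ell σ) : Good P.ell σ := by
  obtain ⟨K, hK⟩ := absorb M hnn hM P σ s hs hσ hg 0
  have h := (hK (max K 1) (le_max_left _ _) [] [] (by simp)).2.2
  rw [List.nil_append, List.append_nil, Pool.Agent.Y316.Pisot.compList_replicate] at h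
  have P' : PD (inc σ) := by
    rw [hσ]
    exact P.pow s hs
  refine ⟨?_, hg, Pool.Agent.Y316.Pisot.semi_of_iter P' (max K 1) (le_max_right _ _) h⟩
  rw [hσ]
  exact pisotMat_pow M hnn hM s hs

/-- the factors of a finite family have bounded discrepancy -/
theorem fac_family {m : ℕ} (M : Matrix (Fin (m+1)) (Fin (m+1)) ℤ) (hnn : ∀ i j, 0 ≤ M i j)
    (P : PD M) {ι : Type*} [Fintype ι] (F : ι → Fin (m+1) → List (Fin (m+1))) (e : ι → ℕ)
    (he : ∀ i, 1 ≤ e i ∧ inc (F i) = M ^ e i) : ∃ B : ℝ, ∀ i, Fac P B (F i) := by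
  classical
  refine ⟨∑ i, P.c * ∑ a, ∑ b, ((M ^ e i) a b : ℝ), fun i => ⟨⟨e i, (he i).1, (he i).2⟩, ?_⟩⟩
  intro a k
  have h1 := JFin_BT (P.pow (e i) (he i).1) (GFin_pow_nonneg M hnn (e i)) (F i) (he i).2 a k
  refine h1.trans ?_
  refine Finset.single_le_sum (f := fun i => P.c * ∑ a, ∑ b, ((M ^ e i) a b : ℝ)) ?_
    (Finset.mem_univ i)
  intro j _
  refine mul_nonneg P.c_pos.le (Finset.sum_nonneg fun a _ => Finset.sum_nonneg fun b _ => ?_)
  exact_mod_cast GFin_pow_nonneg M hnn (e j) a b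

theorem inc_family {m : ℕ} (M : Matrix (Fin (m+1)) (Fin (m+1)) ℤ) (hnn : ∀ i j, 0 ≤ M i j)
    (P : PD M) {ι : Type*} [Fintype ι] (F : ι → Fin (m+1) → List (Fin (m+1))) (e : ι → ℕ)
    (he : ∀ i, 1 ≤ e i ∧ inc (F i) = M ^ e i) (w : List ι) (hw : w ≠ []) :
    ∃ s, 1 ≤ s ∧ inc (compList (w.map F)) = M ^ s := by
  obtain ⟨B, hB⟩ := fac_family M hnn P F e he
  obtain ⟨s, hs, hinc⟩ := fac_inc P B (w.map F) (by
    intro ρ hρ
    obtain ⟨i, -, rfl⟩ := List.mem_map.1 hρ
    exact hB i)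
  refine ⟨s, ?_, hinc⟩
  have h1 : 0 < w.length := List.length_pos_iff.2 hw
  rw [List.length_map] at hs
  omega

theorem map_flatten_replicate {α β : Type*} (F : α → β) (w : List α) (n : ℕ) :
    ((List.replicate n w).flatten).map F = (List.replicate n (w.map F)).flatten := by
  induction n with
  | zero => rfl
  | succ n ih =>
    rw [List.replicate_succ, List.replicate_succ, List.flatten_cons, List.flatten_cons,
      List.map_append, ih]

open Classical in
theorem law {m : ℕ} (M : Matrix (Fin (m+1)) (Fin (m+1)) ℤ) (hnn : ∀ i j, 0 ≤ M i j)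
    (hM : PisotMat M) (P : PD M) {ι : Type*} [Fintype ι] 
    (F : ι → Fin (m+1) → List (Fin (m+1))) (e : ι → ℕ)
    (he : ∀ i, 1 ≤ e i ∧ inc (F i) = M ^ e i) (w : List ι) (hw : w ≠ [])
    (hg : GCC P.ell (compList (w.map F))) :
    (∃ K : ℕ, ∀ k ≥ K, ∀ l₁ l₂ : List ι,
      Good P.ell (compList ((l₁ ++ (List.replicate k w).flatten ++ l₂).map F))) ∧
    ∀ p : ι → ℝ, (∀ i, 0 < p i) → ∑ i, p i = 1 → ∃ C c : ℝ, 0 < c ∧ ∀ k : ℕ,
      ∑ f : Fin k → ι, (if Good P.ell (compList (List.ofFn fun j => F (f j))) then 0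
        else ∏ j, p (f j)) ≤ C * Real.exp (-(c * k)) := by
  obtain ⟨B, hB⟩ := fac_family M hnn P F e he
  have hfl : ∀ l : List ι, ∀ ρ ∈ l.map F, Fac P B ρ := by
    intro l ρ hρ
    obtain ⟨i, -, rfl⟩ := List.mem_map.1 hρ
    exact hB i
  obtain ⟨s, hs, hinc⟩ := fac_inc P B (w.map F) (hfl w)
  have hs1 : 1 ≤ s := by
    have h1 : 0 < w.length := List.length_pos_iff.2 hw
    rw [List.length_map] at hs
    omega
  obtain ⟨K, hK⟩ := absorb M hnn hM P (compList (w.map F)) s hs1 hinc hg B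
  have key : ∀ k ≥ K, ∀ l₁ l₂ : List ι,
      Good P.ell (compList ((l₁ ++ (List.replicate k w).flatten ++ l₂).map F)) := by
    intro k hk l₁ l₂
    have h1 := hK k hk (l₁.map F) (l₂.map F) (by
      intro ρ hρ
      rw [← List.map_append] at hρ
      exact hfl _ ρ hρ)
    have h2 : compList ((l₁ ++ (List.replicate k w).flatten ++ l₂).map F) =
        compList (l₁.map F ++ List.replicate k (compList (w.map F)) ++ l₂.map F) := by
      rw [List.map_append, List.map_append, map_flatten_replicate, compList_append,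
        compList_append, compList_append, compList_append,
        Pool.Agent.Y316.Pisot.compList_flatten, Pool.Agent.Y316.Pisot.compList_replicate]
    rw [h2]
    exact h1
  refine ⟨⟨K, key⟩, fun p hp hps => ?_⟩
  obtain ⟨W, hW⟩ : ∃ W : List ι, W = (List.replicate (K + 1) w).flatten := ⟨_, rfl⟩
  have hW0 : W ≠ [] := by
    rw [hW, List.replicate_succ, List.flatten_cons]
    intro h
    exact hw (List.append_eq_nil_iff.1 h).1
  obtain ⟨C, c, hc, h⟩ := wt_exp p hp hps W hW0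
  refine ⟨C, c, hc, fun k => le_trans ?_ (h k)⟩
  unfold wt
  refine Finset.sum_le_sum fun f _ => ?_
  by_cases hf : Has W f
  · have hgood : Good P.ell (compList (List.ofFn fun j => F (f j))) := by
      obtain ⟨l₁, l₂, hl⟩ := hf
      have h3 : (List.ofFn fun j => F (f j)) = (l₁ ++ (List.replicate (K + 1) w).flatten ++ l₂).map F := by
        rw [← hW, ← hl, List.map_ofFn]
        rfl
      rw [h3]
      exact key (K + 1) (Nat.le_succ K) l₁ l₂
    rw [if_pos hf, if_pos hgood]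
  · rw [if_neg hf]
    have h0 : 0 ≤ ∏ j, p (f j) := Finset.prod_nonneg fun j _ => (hp _).le
    split_ifs
    · exact h0
    · exact le_rfl

end Pool.Agent.R889.PZ
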