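import Pool.Agent.R889.PZ.Ell

/-!
Pairings, the sum norm and the projections along positive vectors.
-/

set_option autoImplicit false

namespace Pool.Agent.R889.PZ
open Pool.Agent.H812R2.PI Pool.Agent.TH100.Pisot
open scoped BigOperators

variable {d : ℕ}

/-- the sum norm -/
noncomputable def nm (x : Fin d → ℝ) : ℝ := ∑ i, |x i|

/-- pairing of a row vector and a column vector -/
noncomputable def pa (f x : Fin d → ℝ) : ℝ := ∑ i, f i * x i

/-- row vector times matrix -/
noncomputable def ra (f : Fin d → ℝ) (C : Matrix (Fin d) (Fin d) ℤ) : Fin d → ℝ :=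
  fun j => ∑ i, f i * (C i j : ℝ)

/-- projection to the kernel of `f` along `g` -/
noncomputable def pj (f g x : Fin d → ℝ) : Fin d → ℝ := fun i => x i - pa f x / pa f g * g i

/-- positive with comparable entries -/
def Cmp (κ : ℝ) (f : Fin d → ℝ) : Prop := (∀ i, 0 < f i) ∧ ∀ i j, f i ≤ κ * f j

theorem nm_nonneg (x : Fin d → ℝ) : 0 ≤ nm x := Finset.sum_nonneg fun _ _ => abs_nonneg _

theorem abs_le_nm (x : Fin d → ℝ) (i : Fin d) : |x i| ≤ nm x :=
  Finset.single_le_sum (f := fun i => |x i|) (fun _ _ => abs_nonneg _) (Finset.mem_univ i)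

theorem nm_add (x y : Fin d → ℝ) : nm (x + y) ≤ nm x + nm y := by
  unfold nm
  rw [← Finset.sum_add_distrib]
  exact Finset.sum_le_sum fun i _ => abs_add_le _ _

theorem nm_neg (x : Fin d → ℝ) : nm (-x) = nm x := by
  unfold nm
  simp

theorem nm_smul (t : ℝ) (x : Fin d → ℝ) : nm (fun i => t * x i) = |t| * nm x := by
  unfold nm
  rw [Finset.mul_sum]
  exact Finset.sum_congr rfl fun i _ => abs_mul _ _

theorem nm_zero : nm (0 : Fin d → ℝ) = 0 := by simp [nm]

theorem abs_sum_le_nm (x : Fin d → ℝ) : |∑ i, x i| ≤ nm x := Finset.abs_sum_le_sum_abs _ _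

theorem nm_pos_eq {g : Fin d → ℝ} (hg : ∀ i, 0 < g i) : nm g = ∑ i, g i :=
  Finset.sum_congr rfl fun i _ => abs_of_pos (hg i)

theorem pa_add (f x y : Fin d → ℝ) : pa f (x + y) = pa f x + pa f y := by
  unfold pa
  rw [← Finset.sum_add_distrib]
  exact Finset.sum_congr rfl fun i _ => by rw [Pi.add_apply]; ring

theorem pa_sub (f x y : Fin d → ℝ) : pa f (x - y) = pa f x - pa f y := by
  unfold pa
  rw [← Finset.sum_sub_distrib]
  exact Finset.sum_congr rfl fun i _ => by rw [Pi.sub_apply]; ring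

theorem pa_smul (f : Fin d → ℝ) (t : ℝ) (x : Fin d → ℝ) :
    pa f (fun i => t * x i) = t * pa f x := by
  unfold pa
  rw [Finset.mul_sum]
  exact Finset.sum_congr rfl fun i _ => by ring

theorem pa_smul_left (f : Fin d → ℝ) (t : ℝ) (x : Fin d → ℝ) :
    pa (fun i => t * f i) x = t * pa f x := by
  unfold pa
  rw [Finset.mul_sum]
  exact Finset.sum_congr rfl fun i _ => by ring

theorem pa_ra (f : Fin d → ℝ) (C : Matrix (Fin d) (Fin d) ℤ) (x : Fin d → ℝ) :
    pa (ra f C) x = pa f (act C x) := by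
  unfold pa ra act
  simp only [Finset.sum_mul, Finset.mul_sum]
  rw [Finset.sum_comm]
  exact Finset.sum_congr rfl fun i _ => Finset.sum_congr rfl fun j _ => by ring

theorem act_mul (A B : Matrix (Fin d) (Fin d) ℤ) (x : Fin d → ℝ) :
    act (A * B) x = act A (act B x) := by
  funext i
  unfold act
  simp only [Matrix.mul_apply, Finset.mul_sum]
  push_cast
  simp only [Finset.sum_mul]
  rw [Finset.sum_comm]
  exact Finset.sum_congr rfl fun i _ => Finset.sum_congr rfl fun j _ => by ring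

theorem ra_mul (f : Fin d → ℝ) (A B : Matrix (Fin d) (Fin d) ℤ) :
    ra f (A * B) = ra (ra f A) B := by
  funext j
  unfold ra
  simp only [Matrix.mul_apply, Finset.sum_mul]
  push_cast
  simp only [Finset.mul_sum]
  rw [Finset.sum_comm]
  exact Finset.sum_congr rfl fun i _ => Finset.sum_congr rfl fun j _ => by ring

theorem act_one (x : Fin d → ℝ) : act (1 : Matrix (Fin d) (Fin d) ℤ) x = x := by
  funext i
  unfold act
  simp [Matrix.one_apply]

theorem ra_one (f : Fin d → ℝ) : ra f (1 : Matrix (Fin d) (Fin d) ℤ) = f := by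
  funext i
  unfold ra
  simp [Matrix.one_apply]

theorem act_smul' (C : Matrix (Fin d) (Fin d) ℤ) (t : ℝ) (x : Fin d → ℝ) :
    act C (fun i => t * x i) = fun i => t * act C x i := by
  funext i
  unfold act
  rw [Finset.mul_sum]
  exact Finset.sum_congr rfl fun j _ => by ring

theorem act_sub' (C : Matrix (Fin d) (Fin d) ℤ) (x y : Fin d → ℝ) :
    act C (x - y) = act C x - act C y := by
  funext i
  unfold act
  rw [Pi.sub_apply, ← Finset.sum_sub_distrib]
  exact Finset.sum_congr rfl fun j _ => by rw [Pi.sub_apply]; ring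

theorem pj_comm (f g x : Fin d → ℝ) (C : Matrix (Fin d) (Fin d) ℤ) :
    act C (pj (ra f C) g x) = pj f (act C g) (act C x) := by
  have h : pj (ra f C) g x = x - fun i => pa (ra f C) x / pa (ra f C) g * g i := rfl
  rw [h, act_sub', act_smul', pa_ra, pa_ra]
  rfl

theorem pa_pos {f g : Fin (d+1) → ℝ} (hf : ∀ i, 0 < f i) (hg : ∀ i, 0 < g i) : 0 < pa f g :=
  Finset.sum_pos (fun i _ => mul_pos (hf i) (hg i)) Finset.univ_nonempty

theorem pa_pj (f g x : Fin d → ℝ) (h : pa f g ≠ 0) : pa f (pj f g x) = 0 := by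
  have h1 : pj f g x = x - fun i => pa f x / pa f g * g i := rfl
  rw [h1, pa_sub, pa_smul, div_mul_cancel₀ _ h, sub_self]

theorem pj_add (f g x y : Fin d → ℝ) : pj f g (x + y) = pj f g x + pj f g y := by
  funext i
  unfold pj
  rw [pa_add, Pi.add_apply, Pi.add_apply]
  ring

theorem pj_sub (f g x y : Fin d → ℝ) : pj f g (x - y) = pj f g x - pj f g y := by
  funext i
  unfold pj
  rw [pa_sub, Pi.sub_apply, Pi.sub_apply]
  ring

theorem pj_smul (f g : Fin d → ℝ) (t : ℝ) (x : Fin d → ℝ) :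
    pj f g (fun i => t * x i) = fun i => t * pj f g x i := by
  funext i
  unfold pj
  rw [pa_smul]
  ring

theorem pj_self (f g : Fin d → ℝ) (h : pa f g ≠ 0) : pj f g g = 0 := by
  funext i
  unfold pj
  rw [div_self h, Pi.zero_apply]
  ring

/-- the projection depends only on the directions -/
theorem pj_dir (f g x : Fin d → ℝ) (s t : ℝ) (hs : s ≠ 0) (ht : t ≠ 0) :
    pj (fun i => s * f i) (fun i => t * g i) x = pj f g x := by
  funext i
  unfold pj
  rw [pa_smul, pa_smul_left, pa_smul_left]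
  have h : s * pa f x / (t * (s * pa f g)) * (t * g i) =
      (s * t) / (s * t) * (pa f x / pa f g * g i) := by
    ring
  rw [h, div_self (mul_ne_zero hs ht), one_mul]

/-- main bound for the coefficients -/
theorem pa_nm_le {κ : ℝ} {f g : Fin d → ℝ} (hf : Cmp κ f) (hg : ∀ i, 0 < g i) (x : Fin d → ℝ) :
    |pa f x| * nm g ≤ κ * nm x * pa f g := by
  have h1 : |pa f x| ≤ ∑ i, f i * |x i| := by
    refine (Finset.abs_sum_le_sum_abs _ _).trans (le_of_eq ?_)
    exact Finset.sum_congr rfl fun i _ => by rw [abs_mul, abs_of_pos (hf.1 i)]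
  refine (mul_le_mul_of_nonneg_right h1 (nm_nonneg g)).trans ?_
  rw [nm_pos_eq hg, Finset.sum_mul_sum]
  unfold nm pa
  rw [mul_assoc, Finset.sum_mul_sum, Finset.mul_sum]
  refine Finset.sum_le_sum fun i _ => ?_
  rw [Finset.mul_sum]
  refine Finset.sum_le_sum fun j _ => ?_
  have h2 := mul_le_mul_of_nonneg_right (hf.2 i j) (mul_nonneg (abs_nonneg (x i)) (hg j).le)
  calc f i * |x i| * g j = f i * (|x i| * g j) := by ring
    _ ≤ κ * f j * (|x i| * g j) := h2
    _ = κ * (|x i| * (f j * g j)) := by ring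

theorem nm_pj {κ : ℝ} {f g : Fin (d+1) → ℝ} (hf : Cmp κ f) (hg : ∀ i, 0 < g i)
    (x : Fin (d+1) → ℝ) : nm (pj f g x) ≤ (1 + κ) * nm x := by
  have hp := pa_pos hf.1 hg
  have h1 : pj f g x = x + -(fun i => pa f x / pa f g * g i) := by
    funext i
    simp [pj, sub_eq_add_neg]
  rw [h1]
  refine (nm_add _ _).trans ?_
  rw [nm_neg, nm_smul, abs_div, abs_of_pos hp]
  have h2 := pa_nm_le hf hg x
  have h3 : |pa f x| / pa f g * nm g ≤ κ * nm x := by
    rw [div_mul_eq_mul_div, div_le_iff₀ hp]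
    exact h2
  linarith

theorem Cmp.smul {κ : ℝ} {f : Fin d → ℝ} (hf : Cmp κ f) {t : ℝ} (ht : 0 < t) :
    Cmp κ (fun i => t * f i) :=
  ⟨fun i => mul_pos ht (hf.1 i), fun i j => by
    have := mul_le_mul_of_nonneg_left (hf.2 i j) ht.le
    calc t * f i ≤ t * (κ * f j) := this
      _ = κ * (t * f j) := by ring⟩

theorem Cmp.one_le {κ : ℝ} {f : Fin (d+1) → ℝ} (hf : Cmp κ f) : 1 ≤ κ := by
  have h1 := hf.2 0 0
  have h2 := hf.1 0
  by_contra h
  push Not at h
  nlinarith

theorem nm_rv_ab (w : List (Fin d)) : nm (rv (ab w)) = w.length := by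
  unfold nm rv ab
  have h1 : ∀ i : Fin d, |(((w.count i : ℕ) : ℤ) : ℝ)| = ((w.count i : ℕ) : ℝ) := fun i => by
    rw [Int.cast_natCast]
    exact abs_of_nonneg (Nat.cast_nonneg _)
  simp only [h1]
  induction w with
  | nil => simp
  | cons a w ih =>
    simp only [List.count_cons, List.length_cons]
    push_cast
    rw [Finset.sum_add_distrib, ih (fun i => by
      rw [Int.cast_natCast]
      exact abs_of_nonneg (Nat.cast_nonneg _))]
    congr 1
    simp

/-- overlapping in terms of two positive pairings -/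
theorem overlap_iff {f : Fin d → ℝ} (hf : ∀ i, 0 < f i) (a b : Fin d) (v : Fin d → ℤ) :
    Overlap f a b v ↔ 0 < pa f (rv (v + ev b)) ∧ 0 < pa f (rv (ev a - v)) := by
  have hev : ∀ c : Fin d, ∑ i, f i * (((ev c i : ℤ)) : ℝ) = f c := by
    intro c
    unfold ev
    simp
  have h1 : pa f (rv (v + ev b)) = (∑ i, f i * (v i : ℝ)) + f b := by
    unfold pa rv
    rw [← hev b, ← Finset.sum_add_distrib]
    exact Finset.sum_congr rfl fun i _ => by rw [Pi.add_apply]; push_cast; ring
  have h2 : pa f (rv (ev a - v)) = f a - ∑ i, f i * (v i : ℝ) := by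
    unfold pa rv
    rw [← hev a, ← Finset.sum_sub_distrib]
    exact Finset.sum_congr rfl fun i _ => by rw [Pi.sub_apply]; push_cast; ring
  unfold Overlap
  rw [h1, h2]
  have ha := hf a
  have hb := hf b
  constructor
  · intro h
    rw [max_lt_iff, lt_min_iff, lt_min_iff] at h
    exact ⟨h.1.2, by linarith [h.2.1]⟩
  · rintro ⟨h3, h4⟩
    rw [max_lt_iff, lt_min_iff, lt_min_iff]
    exact ⟨⟨ha, h3⟩, by linarith, by linarith⟩

end Pool.Agent.R889.PZ
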