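import Pool.Agent.R889.PZ.NFact2

/-!
The substitutions `ρ ∘ σ ^ k` are blocks.
-/

set_option autoImplicit false

namespace Pool.Agent.R889.PZ
open Pool.Agent.H812R2.PI Pool.Agent.TH100.Pisot
open scoped BigOperators

variable {m : ℕ}

theorem Cmp.mono {κ κ' : ℝ} {f : Fin (m+1) → ℝ} (hf : Cmp κ f) (h : κ ≤ κ') : Cmp κ' f :=
  ⟨hf.1, fun i j => (hf.2 i j).trans (mul_le_mul_of_nonneg_right h (hf.1 j).le)⟩

theorem sum_inc (ρ : Fin (m+1) → List (Fin (m+1))) (j : Fin (m+1)) :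
    ∑ i, ((inc ρ i j : ℤ) : ℝ) = (ρ j).length := by
  have h : ((ρ j).length : ℤ) = ∑ i, inc ρ i j := GBad_length rfl j
  have h2 : (((ρ j).length : ℤ) : ℝ) = ((∑ i, inc ρ i j : ℤ) : ℝ) := by rw [h]
  push_cast at h2
  exact h2.symm

theorem nm_act_le (ρ : Fin (m+1) → List (Fin (m+1))) (T : ℕ) (hT : ∀ a, (ρ a).length ≤ T)
    (x : Fin (m+1) → ℝ) : nm (act (inc ρ) x) ≤ (T : ℝ) * nm x := by
  have h0 : ∀ i j, 0 ≤ ((inc ρ i j : ℤ) : ℝ) := fun i j => by exact_mod_cast inc_nonneg ρ i j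
  unfold nm act
  calc ∑ i, |∑ j, ((inc ρ i j : ℤ) : ℝ) * x j| ≤ ∑ i, ∑ j, ((inc ρ i j : ℤ) : ℝ) * |x j| := by
        refine Finset.sum_le_sum fun i _ => ?_
        refine (Finset.abs_sum_le_sum_abs _ _).trans (le_of_eq ?_)
        exact Finset.sum_congr rfl fun j _ => by rw [abs_mul, abs_of_nonneg (h0 i j)]
    _ = ∑ j, ((ρ j).length : ℝ) * |x j| := by
        rw [Finset.sum_comm]
        refine Finset.sum_congr rfl fun j _ => ?_
        rw [← Finset.sum_mul, sum_inc]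
    _ ≤ ∑ j, (T : ℝ) * |x j| := by
        refine Finset.sum_le_sum fun j _ => mul_le_mul_of_nonneg_right ?_ (abs_nonneg _)
        exact_mod_cast hT j
    _ = (T : ℝ) * ∑ i, |x i| := by rw [Finset.mul_sum]

theorem col_pos (ρ : Fin (m+1) → List (Fin (m+1))) (hdet : (inc ρ).det ≠ 0)
    {f : Fin (m+1) → ℝ} (hf : ∀ i, 0 < f i) (j : Fin (m+1)) : 0 < ra f (inc ρ) j := by
  have h0 : ∀ i j, 0 ≤ ((inc ρ i j : ℤ) : ℝ) := fun i j => by exact_mod_cast inc_nonneg ρ i j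
  obtain ⟨i, hi⟩ : ∃ i, inc ρ i j ≠ 0 := by
    by_contra h
    push Not at h
    exact hdet (Matrix.det_eq_zero_of_column_eq_zero j h)
  refine Finset.sum_pos' (fun i _ => mul_nonneg (hf i).le (h0 i j)) ⟨i, Finset.mem_univ i, ?_⟩
  refine mul_pos (hf i) ?_
  have h1 : 0 < inc ρ i j := lt_of_le_of_ne (inc_nonneg ρ i j) (Ne.symm hi)
  exact_mod_cast h1

theorem row_one (ρ : Fin (m+1) → List (Fin (m+1))) (hdet : (inc ρ).det ≠ 0) (i : Fin (m+1)) :
    ∃ l, 1 ≤ inc ρ i l := by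
  obtain ⟨l, hl⟩ : ∃ l, inc ρ i l ≠ 0 := by
    by_contra h
    push Not at h
    exact hdet (Matrix.det_eq_zero_of_row_eq_zero i h)
  refine ⟨l, ?_⟩
  have h1 := inc_nonneg ρ i l
  omega

theorem finite_nm (D : ℝ) : {w : Fin (m+1) → ℤ | nm (rv w) ≤ D}.Finite := by
  refine Set.Finite.subset (Set.finite_Icc (fun _ : Fin (m+1) => -⌈D⌉) (fun _ => ⌈D⌉)) ?_
  intro w hw
  have h1 : ∀ i, |(w i : ℝ)| ≤ D := fun i => (abs_le_nm (rv w) i).trans hw
  refine ⟨fun i => ?_, fun i => ?_⟩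
  · have h2 := (abs_le.1 (h1 i)).1
    have h3 := Int.le_ceil D
    have h4 : (-⌈D⌉ : ℝ) ≤ (w i : ℝ) := by linarith
    exact_mod_cast h4
  · have h2 := (abs_le.1 (h1 i)).2
    have h3 := Int.le_ceil D
    have h4 : (w i : ℝ) ≤ (⌈D⌉ : ℝ) := by linarith
    exact_mod_cast h4

theorem sign_all {M : Matrix (Fin (m+1)) (Fin (m+1)) ℤ} (P : PD M) (D : ℝ) :
    ∃ K : ℕ, ∀ k ≥ K, ∀ w : Fin (m+1) → ℤ, nm (rv w) ≤ D → ∀ h : Fin (m+1) → ℝ,
      (∀ i, 0 < h i) → 0 < pa (ra h (M ^ k)) (rv w) → 0 < pa P.ell (rv w) := by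
  classical
  choose K hK using sign_pow P
  refine ⟨(finite_nm (m := m) D).toFinset.sup K, fun k hk w hw h hh h1 => ?_⟩
  refine hK w k (le_trans ?_ hk) h hh h1
  exact Finset.le_sup ((finite_nm (m := m) D).mem_toFinset.2 hw)

theorem nm_ev (a : Fin (m+1)) : nm (rv (ev a)) = 1 := by
  have h := nm_rv_ab [a]
  rw [ab_single] at h
  simpa using h

theorem hb_pow {σ : Fin (m+1) → List (Fin (m+1))} (P : PD (inc σ)) (hg : GCC P.ell σ) (D : ℝ) :
    ∃ K : ℕ, ∀ k ≥ K, ∀ ρ : Fin (m+1) → List (Fin (m+1)), (inc ρ).det ≠ 0 →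
      Hb D (comp ρ (iter σ k)) := by
  obtain ⟨K1, hK1⟩ := sign_all P (D + 1)
  obtain ⟨K2, hK2⟩ := gcc_hit P σ 1 le_rfl (pow_one _).symm hg (P.c * (2 * D))
  obtain ⟨κ, K3, hK3⟩ := cmp_pow P
  refine ⟨max (max K1 K2) K3, fun k hk ρ hdet f hf a b v hv hO => ?_⟩
  have hk1 : K1 ≤ k := le_trans (le_trans (le_max_left _ _) (le_max_left _ _)) hk
  have hk2 : K2 ≤ k := le_trans (le_trans (le_max_right _ _) (le_max_left _ _)) hk
  have hk3 : K3 ≤ k := le_trans (le_max_right _ _) hk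
  have hh := col_pos ρ hdet hf
  rw [inc_comp, inc_iter, ra_mul] at hO
  have hpos := (hK3 k hk3 _ hh).1
  rw [overlap_iff hpos] at hO
  have hn1 : nm (rv (v + ev b)) ≤ D + 1 := by
    rw [rv_add]
    refine (nm_add _ _).trans ?_
    rw [nm_ev]
    linarith
  have hn2 : nm (rv (ev a - v)) ≤ D + 1 := by
    rw [rv_sub, sub_eq_add_neg]
    refine (nm_add _ _).trans ?_
    rw [nm_ev, nm_neg]
    linarith
  have h1 := hK1 k hk1 _ hn1 _ hh hO.1
  have h2 := hK1 k hk1 _ hn2 _ hh hO.2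
  have hO2 : Overlap P.ell a b v := (overlap_iff P.ell_pos a b v).2 ⟨h1, h2⟩
  have hv2 : P.N (rv v) ≤ P.c * (2 * D) :=
    (N_le_nm P _).trans (mul_le_mul_of_nonneg_left (by linarith) P.c_pos.le)
  have h3 := hK2 k hk2 a b v hv2 ((ov_pos_iff P a b v).2 hO2)
  exact persist (S := ρ) (T := iter σ k) (ne_nil_of_rpos hh) h3

/-- `ρ ∘ τ` is a block if the incidence matrix of `τ` is a high power of `M` and the prefixes of
its images are bounded -/
theorem blk_sub {M : Matrix (Fin (m+1)) (Fin (m+1)) ℤ} (P : PD M) (T : ℕ) (Bs : ℝ) :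
    ∃ κ₀ : ℝ, 1 ≤ κ₀ ∧ ∀ κ ≥ κ₀, ∃ E₀ : ℝ, 1 + κ ≤ E₀ ∧ ∀ E ≥ E₀, ∀ Q : ℝ, ∃ K : ℕ, ∀ k ≥ K,
      ∀ ρ : Fin (m+1) → List (Fin (m+1)), (inc ρ).det ≠ 0 → (∀ a, (ρ a).length ≤ T) →
      ∀ τ : Fin (m+1) → List (Fin (m+1)), inc τ = M ^ k →
        (∀ a j, P.N (rv (ab ((τ a).take j))) ≤ Bs) → Blk κ E Q (comp ρ τ) := by
  classical
  obtain ⟨κ₀, K1, hK10⟩ := cmp_pow P
  refine ⟨κ₀, (hK10 K1 le_rfl (fun _ => 1) (fun _ => one_pos)).one_le, fun κ hκκ => ?_⟩
  have hK1 : ∀ k ≥ K1, ∀ h : Fin (m+1) → ℝ, (∀ i, 0 < h i) → Cmp κ (ra h (M ^ k)) :=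
    fun k hk h hh => (hK10 k hk h hh).mono hκκ
  obtain ⟨C2, hC2, hcon⟩ := con_pow P
  obtain ⟨Cd, hCd, hdir⟩ := dir_pow P
  obtain ⟨K4, hK4⟩ := entries P
  have hc := P.c_pos
  have hlam : 0 < P.lam := lt_trans one_pos P.lam_gt
  have hκ : 1 ≤ κ := (hK1 K1 le_rfl (fun _ => 1) (fun _ => one_pos)).one_le
  obtain ⟨C3, hC3d⟩ : ∃ C3 : ℝ, C3 = 3 / 2 * ∑ c, P.ell c / pa P.ell P.u := ⟨_, rfl⟩
  have hL := pa_pos P.ell_pos P.u_pos
  have hC3 : 0 < C3 := by
    rw [hC3d]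
    have : 0 < ∑ c, P.ell c / pa P.ell P.u :=
      Finset.sum_pos (fun c _ => div_pos (P.ell_pos c) hL) Finset.univ_nonempty
    positivity
  have hlen : ∀ k ≥ K4, ∀ τ : Fin (m+1) → List (Fin (m+1)), inc τ = M ^ k → ∀ c,
      ((τ c).length : ℝ) ≤ C3 * P.lam ^ k := by
    intro k hk τ hτ c
    rw [← sum_inc, hτ]
    have h1 : ∑ i, (((M ^ k) i c : ℤ) : ℝ) ≤
        ∑ i, 3 / 2 * (P.lam ^ k * (P.ell c / pa P.ell P.u) * P.u i) :=
      Finset.sum_le_sum fun i _ => (hK4 k hk i c).2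
    refine h1.trans ?_
    have h2 : ∑ i, 3 / 2 * (P.lam ^ k * (P.ell c / pa P.ell P.u) * P.u i) =
        3 / 2 * (P.lam ^ k * (P.ell c / pa P.ell P.u)) := by
      have : ∀ i, 3 / 2 * (P.lam ^ k * (P.ell c / pa P.ell P.u) * P.u i) =
          3 / 2 * (P.lam ^ k * (P.ell c / pa P.ell P.u)) * P.u i := fun i => by ring
      rw [Finset.sum_congr rfl fun i _ => this i, ← Finset.mul_sum, P.u_sum, mul_one]
    rw [h2, hC3d]
    have h3 : P.ell c / pa P.ell P.u ≤ ∑ c, P.ell c / pa P.ell P.u :=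
      Finset.single_le_sum (f := fun c => P.ell c / pa P.ell P.u)
        (fun c _ => (div_pos (P.ell_pos c) hL).le) (Finset.mem_univ c)
    have h4 := mul_le_mul_of_nonneg_left h3 (pow_pos hlam k).le
    linarith
  by_cases hBs0 : 0 ≤ Bs
  swap
  · refine ⟨1 + κ, le_rfl, fun E hE Q => ⟨0, fun k _ ρ _ _ τ _ hpre => ?_⟩⟩
    exact absurd ((P.N_nonneg _).trans (hpre 0 0)) hBs0
  obtain ⟨E₀, hE⟩ : ∃ E₀ : ℝ, E₀ = (1 + κ) * ((T:ℝ) + (T:ℝ) * (((m:ℝ) + 1) * (P.c * Bs)) +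
    C3 * ((T:ℝ) * Cd) + 1) := ⟨_, rfl⟩
  have hT0 : (0:ℝ) ≤ T := Nat.cast_nonneg T
  have hm0 : (0:ℝ) ≤ m := Nat.cast_nonneg m
  refine ⟨E₀, ?_, fun E hEE Q => ?_⟩
  · rw [hE]
    have h1 : 0 ≤ (T:ℝ) + (T:ℝ) * (((m:ℝ) + 1) * (P.c * Bs)) + C3 * ((T:ℝ) * Cd) := by positivity
    nlinarith
  · obtain ⟨Q', hQ'⟩ : ∃ Q', Q' = max |Q| 1 := ⟨_, rfl⟩
    have hQ1 : 1 ≤ Q' := by rw [hQ']; exact le_max_right _ _
    have hQ2 : Q ≤ Q' := by rw [hQ']; exact (le_abs_self Q).trans (le_max_left _ _)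
    have hQ0 : 0 ≤ Q' := zero_le_one.trans hQ1
    obtain ⟨K2, hK2⟩ := big_pow P Q'
    obtain ⟨K3, hK3⟩ : ∃ K3 : ℕ, ∀ k ≥ K3, (T:ℝ) * C2 * P.rho ^ k ≤ 1 / 2 := by
      have h := tendsto_pow_atTop_nhds_zero_of_lt_one P.rho_nonneg P.rho_lt
      have h2 : Filter.Tendsto (fun k : ℕ => (T:ℝ) * C2 * P.rho ^ k) Filter.atTop (nhds 0) := by
        have := h.const_mul ((T:ℝ) * C2)
        rwa [mul_zero] at this
      exact Filter.eventually_atTop.1 ((h2.eventually (gt_mem_nhds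
        (show (0:ℝ) < 1/2 by norm_num))).mono fun n hn => hn.le)
    refine ⟨max (max K1 K2) (max K3 K4), fun k hk ρ hdet hT τ hτ hpre => ?_⟩
    have hk1 : K1 ≤ k := le_trans (le_trans (le_max_left _ _) (le_max_left _ _)) hk
    have hk2 : K2 ≤ k := le_trans (le_trans (le_max_right _ _) (le_max_left _ _)) hk
    have hk3 : K3 ≤ k := le_trans (le_trans (le_max_left _ _) (le_max_right _ _)) hk
    have hk4 : K4 ≤ k := le_trans (le_trans (le_max_right _ _) (le_max_right _ _)) hk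
    have hinc : inc (comp ρ τ) = inc ρ * M ^ k := by rw [inc_comp, hτ]
    have hbig : ∀ i j, Q' ≤ (((inc ρ * M ^ k) i j : ℤ) : ℝ) := by
      intro i j
      obtain ⟨l, hl⟩ := row_one ρ hdet i
      rw [Matrix.mul_apply]
      push_cast
      have h1 : ∀ l, 0 ≤ ((inc ρ i l : ℤ) : ℝ) * (((M ^ k) l j : ℤ) : ℝ) := fun l => by
        refine mul_nonneg ?_ (hQ0.trans (hK2 k hk2 l j))
        exact_mod_cast inc_nonneg ρ i l
      have h2 := Finset.single_le_sum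
        (f := fun l => ((inc ρ i l : ℤ) : ℝ) * (((M ^ k) l j : ℤ) : ℝ))
        (fun l _ => h1 l) (Finset.mem_univ l)
      have h3 : (1:ℝ) ≤ ((inc ρ i l : ℤ) : ℝ) := by exact_mod_cast hl
      have h4 := hK2 k hk2 l j
      have h5 := hQ0
      have h6 : 1 * Q' ≤ ((inc ρ i l : ℤ) : ℝ) * (((M ^ k) l j : ℤ) : ℝ) :=
        mul_le_mul h3 h4 h5 (by linarith)
      linarith
    refine ⟨?_, ?_, ?_, ?_⟩
    · intro f hf
      rw [hinc, ra_mul]
      exact hK1 k hk1 _ (col_pos ρ hdet hf)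
    · intro f hf z hz
      rw [hinc, ra_mul] at hz
      rw [hinc, act_mul]
      have h1 := hcon k _ (col_pos ρ hdet hf) z hz
      have h2 := nm_act_le ρ T hT (act (M ^ k) z)
      have h3 := mul_le_mul_of_nonneg_left h1 hT0
      have h4 := mul_le_mul_of_nonneg_right (hK3 k hk3) (nm_nonneg z)
      linarith
    · intro f hf g hgp c j
      rw [hinc]
      have hgg : ∀ i, 0 < act (inc ρ * M ^ k) g i := by
        intro i
        exact Finset.sum_pos (fun j _ => mul_pos (lt_of_lt_of_le one_pos (hQ1.trans (hbig i j)))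
          (hgp j)) Finset.univ_nonempty
      simp only [comp]
      refine le_trans ?_ hEE
      rcases DBd_take_ext ρ (τ c) j with h | ⟨i, j', b, h⟩
      · rw [h, ab_nil, rv_zero]
        have h1 : pj f (act (inc ρ * M ^ k) g) 0 = 0 := by
          funext i
          simp [pj, pa]
        rw [h1, nm_zero, hE]
        positivity
      · rw [h, ab_append, ab_ext, rv_add, pj_add, rv_mulVec]
        refine (nm_add _ _).trans ?_
        have h1 : nm (pj f (act (inc ρ * M ^ k) g) (rv (ab ((ρ b).take j')))) ≤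
            (1 + κ) * T := by
          refine (nm_pj hf hgg _).trans (mul_le_mul_of_nonneg_left ?_ (by linarith))
          rw [nm_rv_ab]
          have : ((ρ b).take j').length ≤ T := by
            rw [List.length_take]
            exact (min_le_right _ _).trans (hT b)
          exact_mod_cast this
        obtain ⟨y, hy⟩ : ∃ y, y = (τ c).take i := ⟨_, rfl⟩
        rw [← hy]
        obtain ⟨s, hs⟩ : ∃ s, s = ∑ l, rv (ab y) l := ⟨_, rfl⟩
        have hsl : |s| ≤ C3 * P.lam ^ k := by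
          rw [hs]
          refine (abs_sum_le_nm _).trans ?_
          rw [nm_rv_ab]
          refine le_trans ?_ (hlen k hk4 τ hτ c)
          rw [hy, List.length_take]
          exact_mod_cast min_le_right _ _
        have h2 : rv (ab y) = (fun l => rv (ab y) l - s * P.u l) + fun l => s * P.u l := by
          funext l
          simp
        have h3 : nm (fun l => rv (ab y) l - s * P.u l) ≤ ((m:ℝ) + 1) * (P.c * Bs) := by
          unfold nm
          refine (Finset.sum_le_card_nsmul _ _ (P.c * Bs) fun l _ => ?_).trans ?_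
          · rw [hs]
            refine (P.le_cN _ l).trans (mul_le_mul_of_nonneg_left ?_ hc.le)
            rw [hy]
            exact hpre c i
          · simp
        have h4 : nm (pj f (act (inc ρ * M ^ k) g) (act (inc ρ) (rv (ab y)))) ≤
            (1 + κ) * ((T:ℝ) * (((m:ℝ) + 1) * (P.c * Bs))) + C3 * ((1 + κ) * ((T:ℝ) * Cd)) := by
          rw [h2, act_add, pj_add, act_smul', pj_smul]
          refine (nm_add _ _).trans (add_le_add ?_ ?_)
          · refine (nm_pj hf hgg _).trans (mul_le_mul_of_nonneg_left ?_ (by linarith))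
            exact (nm_act_le ρ T hT _).trans (mul_le_mul_of_nonneg_left h3 hT0)
          · rw [nm_smul]
            have h5 := hdir k κ f hf (inc ρ) T (nm_act_le ρ T hT) g hgp hgg
            have h6 := nm_nonneg (pj f (act (inc ρ * M ^ k) g) (act (inc ρ) P.u))
            have h7 := mul_le_mul_of_nonneg_right hsl h6
            have h8 := mul_le_mul_of_nonneg_left h5 hC3.le
            linarith
        rw [hE]
        nlinarith
    · intro i j
      rw [hinc]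
      exact hQ2.trans (hbig i j)

/-- prefixes of the iterates -/
theorem iter_prefix {σ : Fin (m+1) → List (Fin (m+1))} (P : PD (inc σ)) :
    ∃ Bs : ℝ, ∀ k a j, P.N (rv (ab ((iter σ k a).take j))) ≤ Bs := by
  have hr : 0 < 1 - P.rho := by linarith [P.rho_lt]
  obtain ⟨B1, hB1⟩ : ∃ B1 : ℝ, B1 = P.c * ∑ i, ∑ j, ((inc σ i j : ℤ) : ℝ) := ⟨_, rfl⟩
  have hB10 : 0 ≤ B1 := by
    rw [hB1]
    refine mul_nonneg P.c_pos.le (Finset.sum_nonneg fun i _ => Finset.sum_nonneg fun j _ => ?_)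
    exact_mod_cast inc_nonneg σ i j
  refine ⟨B1 / (1 - P.rho) + ∑ a : Fin (m+1), P.N (rv (ev a)), fun k a j => ?_⟩
  rw [← Pool.Agent.Y316.Pisot.compList_replicate]
  refine (compList_prefix P (List.replicate k σ) B1 hB10 ?_ a j).trans ?_
  · intro τ hτ
    rw [List.mem_replicate] at hτ
    rw [hτ.2]
    refine ⟨rfl, fun a k => ?_⟩
    rw [hB1]
    exact JFin_BT P (inc_nonneg σ) σ rfl a k
  · have := Finset.single_le_sum (f := fun a : Fin (m+1) => P.N (rv (ev a)))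
      (fun i _ => P.N_nonneg _) (Finset.mem_univ a)
    linarith

end Pool.Agent.R889.PZ
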