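import Pool.Agent.R889.PZ.NMain

/-!
Substitutions with the geometric coincidence condition exist for powers of every Pisot matrix.
-/

set_option autoImplicit false

namespace Pool.Agent.R889.PZ
open Pool.Agent.H812R2.PI Pool.Agent.TH100.Pisot
open scoped BigOperators

variable {m : ℕ}

theorem exists_coinc (M : Matrix (Fin (m+1)) (Fin (m+1)) ℤ) (hnn : ∀ i j, 0 ≤ M i j)
    (hM : PisotMat M) : ∃ (n : ℕ) (σ : Fin (m+1) → List (Fin (m+1))), 1 ≤ n ∧
      inc σ = M ^ n ∧ PisotMat (inc σ) ∧ Coinc σ := by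
  obtain ⟨lam, u, hlam, hu, husum⟩ := exists_u M hnn hM
  obtain ⟨P, -, -⟩ := exists_PD M hnn hM lam hlam u hu husum
  obtain ⟨B, hB0, hgood⟩ := exists_good M hnn P
  obtain ⟨n0, hn0, hgD⟩ := hgood ((16 * P.c ^ 2 + 4) * (B + 1))
  have hrho : ∀ᶠ n : ℕ in Filter.atTop, P.rho ^ n ≤ 1 / 2 := by
    have h := tendsto_pow_atTop_nhds_zero_of_lt_one P.rho_nonneg P.rho_lt
    exact (h.eventually (gt_mem_nhds (show (0:ℝ) < 1/2 by norm_num))).mono fun n hn => hn.le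
  obtain ⟨n1, hn1⟩ := Filter.eventually_atTop.mp hrho
  obtain ⟨n, hn⟩ : ∃ n : ℕ, n = max n0 n1 := ⟨_, rfl⟩
  have hn00 : n0 ≤ n := by rw [hn]; exact le_max_left _ _
  have hn01 : n1 ≤ n := by rw [hn]; exact le_max_right _ _
  have h1n : 1 ≤ n := le_trans hn0 hn00
  obtain ⟨s, hs, hpre, hhit⟩ := hgD n hn00
  have hg : GCC P.ell s := gcc_of_hit (P.pow n h1n) s hs (B + 1) ((16 * P.c ^ 2 + 4) * (B + 1))
    (by linarith) le_rfl (hn1 n hn01) (fun a j => (hpre a j).trans (by linarith))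
    (fun a b v hv hO => hhit a b v hv hO)
  refine ⟨n, s, h1n, hs, ?_, P.lam ^ n, P.ell, P.ell_pos, fun j => ?_, hg⟩
  · rw [hs]
    exact pisotMat_pow M hnn hM n h1n
  · rw [hs]
    exact congrFun (ra_pow_ell P n) j

end Pool.Agent.R889.PZ
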