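import Pool.Agent.R889.PZ.NPD

/-!
Powers of a Pisot matrix.
-/

set_option autoImplicit false

namespace Pool.Agent.R889.PZ
open Pool.Agent.H812R2.PI Pool.Agent.TH100.Pisot
open scoped BigOperators

variable {m : ℕ} {M : Matrix (Fin (m+1)) (Fin (m+1)) ℤ}

theorem act_pow_u (P : PD M) (k : ℕ) : act (M ^ k) P.u = fun i => P.lam ^ k * P.u i := by
  induction k with
  | zero =>
    rw [pow_zero, act_one]
    funext i
    simp
  | succ k ih =>
    rw [pow_succ', act_mul, ih, act_smul', pd_act]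
    funext i
    ring

theorem ra_pow_ell (P : PD M) (k : ℕ) : ra P.ell (M ^ k) = fun i => P.lam ^ k * P.ell i := by
  induction k with
  | zero =>
    rw [pow_zero, ra_one]
    funext i
    simp
  | succ k ih =>
    have h1 : ∀ (t : ℝ) (f : Fin (m+1) → ℝ), ra (fun i => t * f i) M = fun i => t * ra f M i := by
      intro t f
      funext j
      unfold ra
      rw [Finset.mul_sum]
      exact Finset.sum_congr rfl fun i _ => by ring
    rw [pow_succ, ra_mul, ih, h1, pd_ra]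
    funext i
    ring

theorem u_le_one (P : PD M) (i : Fin (m+1)) : P.u i ≤ 1 := by
  rw [← P.u_sum]
  exact Finset.single_le_sum (f := P.u) (fun j _ => (P.u_pos j).le) (Finset.mem_univ i)

theorem N_le_nm (P : PD M) (y : Fin (m+1) → ℝ) : P.N y ≤ P.c * (2 * nm y) := by
  refine P.N_le y _ fun i => ?_
  have h5 := abs_le_nm y i
  have h6 := abs_sum_le_nm y
  have h7 : |(∑ j, y j) * P.u i| ≤ nm y := by
    rw [abs_mul, abs_of_pos (P.u_pos i)]
    have h8 := mul_le_mul h6 (u_le_one P i) (P.u_pos i).le (nm_nonneg _)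
    linarith
  have h8 := abs_sub (y i) ((∑ j, y j) * P.u i)
  linarith

theorem nm_le_N (P : PD M) : ∃ C : ℝ, 0 < C ∧ ∀ y, pa P.ell y = 0 → nm y ≤ C * P.N y := by
  have hL := pa_pos P.ell_pos P.u_pos
  have hc := P.c_pos
  have hS : 0 ≤ ∑ i, P.ell i := Finset.sum_nonneg fun i _ => (P.ell_pos i).le
  refine ⟨((m:ℝ) + 1) * P.c + (∑ i, P.ell i) * P.c / pa P.ell P.u, by positivity, ?_⟩
  intro y hy
  obtain ⟨s, hs⟩ : ∃ s, s = ∑ j, y j := ⟨_, rfl⟩
  have h1 : ∀ i, |y i - s * P.u i| ≤ P.c * P.N y := fun i => by rw [hs]; exact P.le_cN y i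
  have h2 : |s| * pa P.ell P.u ≤ (∑ i, P.ell i) * (P.c * P.N y) := by
    have h3 : s * pa P.ell P.u = -∑ i, P.ell i * (y i - s * P.u i) := by
      have h4 : ∀ i, P.ell i * (y i - s * P.u i) = P.ell i * y i - s * (P.ell i * P.u i) :=
        fun i => by ring
      rw [Finset.sum_congr rfl fun i _ => h4 i, Finset.sum_sub_distrib, ← Finset.mul_sum]
      have h5 : ∑ i, P.ell i * y i = 0 := hy
      rw [h5]
      unfold pa
      ring
    rw [← abs_of_pos hL, ← abs_mul, h3, abs_neg, Finset.sum_mul]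
    refine (Finset.abs_sum_le_sum_abs _ _).trans (Finset.sum_le_sum fun i _ => ?_)
    rw [abs_mul, abs_of_pos (P.ell_pos i)]
    exact mul_le_mul_of_nonneg_left (h1 i) (P.ell_pos i).le
  have h3 : |s| ≤ (∑ i, P.ell i) * P.c / pa P.ell P.u * P.N y := by
    rw [div_mul_eq_mul_div, le_div_iff₀ hL]
    linarith
  have h4 : y = (fun i => y i - s * P.u i) + fun i => s * P.u i := by
    funext i
    simp
  have h5 : nm (fun i => y i - s * P.u i) ≤ ((m:ℝ) + 1) * (P.c * P.N y) := by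
    unfold nm
    refine (Finset.sum_le_card_nsmul _ _ _ fun i _ => h1 i).trans ?_
    simp
  have h6 : nm (fun i => s * P.u i) = |s| := by
    rw [nm_smul, nm_pos_eq P.u_pos, P.u_sum, mul_one]
  have h7 := nm_add (fun i => y i - s * P.u i) (fun i => s * P.u i)
  rw [← h4, h6] at h7
  linarith

theorem exists_cmp {f : Fin (m+1) → ℝ} (hf : ∀ i, 0 < f i) : ∃ κ, Cmp κ f := by
  refine ⟨∑ i, ∑ j, f i / f j, hf, fun i j => ?_⟩
  have h1 : f i / f j ≤ ∑ i, ∑ j, f i / f j := by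
    refine le_trans ?_ (Finset.single_le_sum (f := fun i => ∑ j, f i / f j)
      (fun i _ => Finset.sum_nonneg fun j _ => (div_pos (hf i) (hf j)).le) (Finset.mem_univ i))
    exact Finset.single_le_sum (f := fun j => f i / f j)
      (fun j _ => (div_pos (hf i) (hf j)).le) (Finset.mem_univ j)
  rw [div_le_iff₀ (hf j)] at h1
  exact h1

/-- decomposition of the powers -/
theorem dec (P : PD M) : ∃ C : ℝ, 0 < C ∧ ∀ (x : Fin (m+1) → ℝ) (k : ℕ),
    nm (act (M ^ k) x - fun i => P.lam ^ k * (pa P.ell x / pa P.ell P.u) * P.u i) ≤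
      C * P.rho ^ k * nm x := by
  obtain ⟨C, hC, h⟩ := nm_le_N P
  obtain ⟨κ, hκ⟩ := exists_cmp P.ell_pos
  have hκ1 := hκ.one_le
  have hc := P.c_pos
  refine ⟨C * (P.c * (2 * (1 + κ))), by positivity, fun x k => ?_⟩
  have h1 : (act (M ^ k) x - fun i => P.lam ^ k * (pa P.ell x / pa P.ell P.u) * P.u i) =
      act (M ^ k) (pj P.ell P.u x) := by
    have h2 : pj P.ell P.u x = x - fun i => pa P.ell x / pa P.ell P.u * P.u i := rfl
    rw [h2, act_sub', act_smul', act_pow_u]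
    congr 1
    funext i
    ring
  rw [h1]
  have h3 : pa P.ell (act (M ^ k) (pj P.ell P.u x)) = 0 := by
    rw [← pa_ra, ra_pow_ell, pa_smul_left, pa_pj _ _ _ (pa_pos P.ell_pos P.u_pos).ne', mul_zero]
  refine (h _ h3).trans ?_
  have h4 := N_pow_act P k (pj P.ell P.u x)
  have h5 := N_le_nm P (pj P.ell P.u x)
  have h6 := nm_pj hκ P.u_pos x
  have hr := pow_nonneg P.rho_nonneg k
  calc C * P.N (act (M ^ k) (pj P.ell P.u x)) ≤ C * (P.rho ^ k * (P.c * (2 * ((1 + κ) * nm x)))) := by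
        refine mul_le_mul_of_nonneg_left (h4.trans (mul_le_mul_of_nonneg_left (h5.trans ?_) hr)) hC.le
        refine mul_le_mul_of_nonneg_left ?_ hc.le
        linarith
    _ = C * (P.c * (2 * (1 + κ))) * P.rho ^ k * nm x := by ring

theorem rho_pow_one (P : PD M) (k : ℕ) : P.rho ^ k ≤ 1 := pow_le_one₀ P.rho_nonneg P.rho_lt.le

/-- contraction on the kernels of positive row vectors -/
theorem con_pow (P : PD M) : ∃ C : ℝ, 0 < C ∧ ∀ (k : ℕ) (h : Fin (m+1) → ℝ), (∀ i, 0 < h i) →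
    ∀ z, pa (ra h (M ^ k)) z = 0 → nm (act (M ^ k) z) ≤ C * P.rho ^ k * nm z := by
  obtain ⟨C, hC, hd⟩ := dec P
  obtain ⟨κ, hκ⟩ := exists_cmp P.u_pos
  have hκ1 := hκ.one_le
  have hU : 0 < ∑ i, (P.u i)⁻¹ :=
    Finset.sum_pos (fun i _ => inv_pos.2 (P.u_pos i)) Finset.univ_nonempty
  refine ⟨(∑ i, (P.u i)⁻¹ + 1) * C, by positivity, fun k h hh z hz => ?_⟩
  obtain ⟨t, ht⟩ : ∃ t, t = P.lam ^ k * (pa P.ell z / pa P.ell P.u) := ⟨_, rfl⟩
  obtain ⟨r, hr⟩ : ∃ r, r = act (M ^ k) z - fun i => t * P.u i := ⟨_, rfl⟩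
  have hrb : nm r ≤ C * P.rho ^ k * nm z := by
    have := hd z k
    rw [← ht, ← hr] at this
    exact this
  have h1 : act (M ^ k) z = r + fun i => t * P.u i := by
    rw [hr]
    simp
  rw [pa_ra, h1, pa_add, pa_smul] at hz
  have hp := pa_pos hh P.u_pos
  have h2 : |pa h r| ≤ pa h P.u * ((∑ i, (P.u i)⁻¹) * nm r) := by
    have h3 : |pa h r| ≤ ∑ i, h i * |r i| := by
      refine (Finset.abs_sum_le_sum_abs _ _).trans (le_of_eq ?_)
      exact Finset.sum_congr rfl fun i _ => by rw [abs_mul, abs_of_pos (hh i)]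
    refine h3.trans ?_
    unfold pa
    rw [Finset.sum_mul]
    refine Finset.sum_le_sum fun i _ => ?_
    have h4 : (P.u i)⁻¹ ≤ ∑ i, (P.u i)⁻¹ :=
      Finset.single_le_sum (f := fun i => (P.u i)⁻¹) (fun j _ => (inv_pos.2 (P.u_pos j)).le)
        (Finset.mem_univ i)
    have h5 : 1 ≤ P.u i * ∑ i, (P.u i)⁻¹ := by
      have := mul_le_mul_of_nonneg_left h4 (P.u_pos i).le
      rwa [mul_inv_cancel₀ (P.u_pos i).ne'] at this
    have h6 := abs_le_nm r i
    calc h i * |r i| ≤ h i * (1 * nm r) := by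
          rw [one_mul]
          exact mul_le_mul_of_nonneg_left h6 (hh i).le
      _ ≤ h i * (P.u i * (∑ i, (P.u i)⁻¹) * nm r) :=
          mul_le_mul_of_nonneg_left (mul_le_mul_of_nonneg_right h5 (nm_nonneg r)) (hh i).le
      _ = h i * P.u i * ((∑ i, (P.u i)⁻¹) * nm r) := by ring
  have h3 : |t| ≤ (∑ i, (P.u i)⁻¹) * nm r := by
    have h4 : t * pa h P.u = -pa h r := by linarith
    have h5 : |t| * pa h P.u = |pa h r| := by
      rw [← abs_of_pos hp, ← abs_mul, h4, abs_neg]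
    rw [← h5] at h2
    have h6 : pa h P.u * |t| ≤ pa h P.u * ((∑ i, (P.u i)⁻¹) * nm r) := by linarith
    exact le_of_mul_le_mul_left h6 hp
  rw [h1]
  refine (nm_add _ _).trans ?_
  rw [nm_smul, nm_pos_eq P.u_pos, P.u_sum, mul_one]
  have h7 := mul_le_mul_of_nonneg_left hrb (by positivity : 0 ≤ ∑ i, (P.u i)⁻¹ + 1)
  linarith

end Pool.Agent.R889.PZ
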