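import Pool.Agent.R889.PZ.NFact

/-!
Powers of a Pisot matrix: entries, directions of row vectors and column vectors.
-/

set_option autoImplicit false

namespace Pool.Agent.R889.PZ
open Pool.Agent.H812R2.PI Pool.Agent.TH100.Pisot
open scoped BigOperators

variable {m : ℕ} {M : Matrix (Fin (m+1)) (Fin (m+1)) ℤ}

theorem nm_le_pa {f g : Fin (m+1) → ℝ} (hf : ∀ i, 0 < f i) (hg : ∀ i, 0 < g i) :
    nm g ≤ (∑ i, (f i)⁻¹) * pa f g := by
  rw [nm_pos_eq hg]
  unfold pa
  rw [Finset.mul_sum]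
  refine Finset.sum_le_sum fun i _ => ?_
  have h4 : (f i)⁻¹ ≤ ∑ i, (f i)⁻¹ :=
    Finset.single_le_sum (f := fun i => (f i)⁻¹) (fun j _ => (inv_pos.2 (hf j)).le)
      (Finset.mem_univ i)
  have h5 := mul_le_mul_of_nonneg_right h4 (mul_pos (hf i) (hg i)).le
  rw [inv_mul_cancel_left₀ (hf i).ne'] at h5
  exact h5

/-- two sided bounds for the entries -/
theorem entries (P : PD M) : ∃ K : ℕ, ∀ k ≥ K, ∀ i j,
    1 / 2 * (P.lam ^ k * (P.ell j / pa P.ell P.u) * P.u i) ≤ (((M ^ k) i j : ℤ) : ℝ) ∧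
    (((M ^ k) i j : ℤ) : ℝ) ≤ 3 / 2 * (P.lam ^ k * (P.ell j / pa P.ell P.u) * P.u i) := by
  obtain ⟨C, hC, hd⟩ := dec P
  have hL := pa_pos P.ell_pos P.u_pos
  have key : ∀ i j, ∀ k : ℕ, |(((M ^ k) i j : ℤ) : ℝ) -
      P.lam ^ k * (P.ell j / pa P.ell P.u) * P.u i| ≤ C := by
    intro i j k
    have h1 := hd (fun l => if l = j then 1 else 0) k
    have h2 : pa P.ell (fun l => if l = j then (1:ℝ) else 0) = P.ell j := by
      unfold pa
      simp
    have h3 : nm (fun l : Fin (m+1) => if l = j then (1:ℝ) else 0) = 1 := by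
      unfold nm
      have : ∀ l : Fin (m+1), |if l = j then (1:ℝ) else 0| = if l = j then 1 else 0 := fun l => by
        split_ifs <;> simp
      simp only [this]
      simp
    have h4 : ∀ l, act (M ^ k) (fun l => if l = j then (1:ℝ) else 0) l =
        (((M ^ k) l j : ℤ) : ℝ) := by
      intro l
      unfold act
      simp
    rw [h2, h3, mul_one] at h1
    have h5 := (abs_le_nm _ i).trans h1
    rw [Pi.sub_apply, h4] at h5
    refine h5.trans ?_
    have := mul_le_mul_of_nonneg_left (rho_pow_one P k) hC.le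
    linarith
  obtain ⟨W, hW⟩ : ∃ W : ℝ, W = ∑ i, ∑ j, (P.ell j / pa P.ell P.u * P.u i)⁻¹ := ⟨_, rfl⟩
  obtain ⟨K, hK⟩ := pow_unbounded_of_one_lt (2 * C * W) P.lam_gt
  refine ⟨K, fun k hk i j => ?_⟩
  have hwp : ∀ i j, 0 < P.ell j / pa P.ell P.u * P.u i := fun i j =>
    mul_pos (div_pos (P.ell_pos j) hL) (P.u_pos i)
  have h1 : (P.ell j / pa P.ell P.u * P.u i)⁻¹ ≤ W := by
    rw [hW]
    refine le_trans ?_ (Finset.single_le_sum
      (f := fun i => ∑ j, (P.ell j / pa P.ell P.u * P.u i)⁻¹)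
      (fun i _ => Finset.sum_nonneg fun j _ => (inv_pos.2 (hwp i j)).le) (Finset.mem_univ i))
    exact Finset.single_le_sum (f := fun j => (P.ell j / pa P.ell P.u * P.u i)⁻¹)
      (fun j _ => (inv_pos.2 (hwp i j)).le) (Finset.mem_univ j)
  have h2 : P.lam ^ K ≤ P.lam ^ k := pow_le_pow_right₀ P.lam_gt.le hk
  have h3 : 1 ≤ W * (P.ell j / pa P.ell P.u * P.u i) := by
    have := mul_le_mul_of_nonneg_right h1 (hwp i j).le
    rwa [inv_mul_cancel₀ (hwp i j).ne'] at this
  have h4 : C ≤ 1 / 2 * (P.lam ^ k * (P.ell j / pa P.ell P.u) * P.u i) := by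
    have h5 : 2 * C * W * (P.ell j / pa P.ell P.u * P.u i) ≤
        P.lam ^ k * (P.ell j / pa P.ell P.u * P.u i) :=
      mul_le_mul_of_nonneg_right (hK.le.trans h2) (hwp i j).le
    have h6 : 2 * C * 1 ≤ 2 * C * (W * (P.ell j / pa P.ell P.u * P.u i)) :=
      mul_le_mul_of_nonneg_left h3 (by linarith)
    linarith
  have h5 := abs_le.1 (key i j k)
  constructor
  · linarith [h5.1]
  · linarith [h5.2]

/-- the rows of large powers have comparable entries -/
theorem cmp_pow (P : PD M) : ∃ κ : ℝ, ∃ K : ℕ, ∀ k ≥ K, ∀ h : Fin (m+1) → ℝ, (∀ i, 0 < h i) →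
    Cmp κ (ra h (M ^ k)) := by
  obtain ⟨K, hK⟩ := entries P
  obtain ⟨κ, hκ⟩ := exists_cmp P.ell_pos
  have hL := pa_pos P.ell_pos P.u_pos
  have hlam : 0 < P.lam := lt_trans one_pos P.lam_gt
  refine ⟨3 * κ, K, fun k hk h hh => ⟨fun j => ?_, fun j j' => ?_⟩⟩
  · refine Finset.sum_pos (fun i _ => mul_pos (hh i) ?_) Finset.univ_nonempty
    refine lt_of_lt_of_le ?_ (hK k hk i j).1
    have h1 := P.ell_pos j
    have h2 := P.u_pos i
    positivity
  · unfold ra
    rw [Finset.mul_sum]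
    refine Finset.sum_le_sum fun i _ => ?_
    have h1 := (hK k hk i j).2
    have h2 := (hK k hk i j').1
    have h3 : P.lam ^ k * (P.ell j / pa P.ell P.u) * P.u i ≤
        κ * (P.lam ^ k * (P.ell j' / pa P.ell P.u) * P.u i) := by
      have h4 : P.ell j / pa P.ell P.u ≤ κ * (P.ell j' / pa P.ell P.u) := by
        rw [← mul_div_assoc]
        exact div_le_div_of_nonneg_right (hκ.2 j j') hL.le
      have h5 := mul_le_mul_of_nonneg_left h4 (mul_pos (pow_pos hlam k) (P.u_pos i)).le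
      linarith
    have hκ0 : 0 ≤ κ := zero_le_one.trans hκ.one_le
    have h6 : κ * (1 / 2 * (P.lam ^ k * (P.ell j' / pa P.ell P.u) * P.u i)) ≤
        κ * (((M ^ k) i j' : ℤ) : ℝ) := mul_le_mul_of_nonneg_left h2 hκ0
    have h7 : (((M ^ k) i j : ℤ) : ℝ) ≤ 3 * κ * (((M ^ k) i j' : ℤ) : ℝ) := by linarith
    have h8 := mul_le_mul_of_nonneg_left h7 (hh i).le
    linarith

/-- the entries tend to infinity -/
theorem big_pow (P : PD M) (Q : ℝ) : ∃ K : ℕ, ∀ k ≥ K, ∀ i j, Q ≤ (((M ^ k) i j : ℤ) : ℝ) := by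
  obtain ⟨K, hK⟩ := entries P
  have hL := pa_pos P.ell_pos P.u_pos
  have hwp : ∀ i j, 0 < P.ell j / pa P.ell P.u * P.u i := fun i j =>
    mul_pos (div_pos (P.ell_pos j) hL) (P.u_pos i)
  have h1 : ∀ᶠ k : ℕ in Filter.atTop, ∀ i j : Fin (m+1),
      2 * |Q| / (P.ell j / pa P.ell P.u * P.u i) ≤ P.lam ^ k := by
    rw [Filter.eventually_all]
    intro i
    rw [Filter.eventually_all]
    intro j
    exact (tendsto_pow_atTop_atTop_of_one_lt P.lam_gt).eventually_ge_atTop _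
  obtain ⟨K', hK'⟩ := Filter.eventually_atTop.1 h1
  refine ⟨max K K', fun k hk i j => ?_⟩
  have h2 := (hK k ((le_max_left _ _).trans hk) i j).1
  have h3 := hK' k ((le_max_right _ _).trans hk) i j
  rw [div_le_iff₀ (hwp i j)] at h3
  have h4 := le_abs_self Q
  linarith

/-- the signs of the pairings with integer vectors -/
theorem sign_pow (P : PD M) (w : Fin (m+1) → ℤ) : ∃ K : ℕ, ∀ k ≥ K, ∀ h : Fin (m+1) → ℝ,
    (∀ i, 0 < h i) → 0 < pa (ra h (M ^ k)) (rv w) → 0 < pa P.ell (rv w) := by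
  obtain ⟨C, hC, hd⟩ := dec P
  have hL := pa_pos P.ell_pos P.u_pos
  by_cases hw : 0 < pa P.ell (rv w)
  · exact ⟨0, fun _ _ _ _ _ => hw⟩
  · by_cases hw0 : w = 0
    · refine ⟨0, fun k _ h hh h1 => ?_⟩
      subst hw0
      exfalso
      have : pa (ra h (M ^ k)) (rv (0 : Fin (m+1) → ℤ)) = 0 := by
        simp [pa, rv]
      linarith
    · have hneg : pa P.ell (rv w) < 0 := by
        rcases lt_or_eq_of_le (not_lt.1 hw) with h | h
        · exact h
        · exact absurd (P.ell_ind w h) hw0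
      obtain ⟨U, hU⟩ : ∃ U, U = ∑ i, (P.u i)⁻¹ := ⟨_, rfl⟩
      have hU0 : 0 < U := by
        rw [hU]
        exact Finset.sum_pos (fun i _ => inv_pos.2 (P.u_pos i)) Finset.univ_nonempty
      obtain ⟨δ, hδ⟩ : ∃ δ, δ = -(pa P.ell (rv w) / pa P.ell P.u) := ⟨_, rfl⟩
      have hδ0 : 0 < δ := by
        rw [hδ]
        have := div_neg_of_neg_of_pos hneg hL
        linarith
      obtain ⟨K, hK⟩ := pow_unbounded_of_one_lt (U * C * nm (rv w) / δ) P.lam_gt
      refine ⟨K, fun k hk h hh h1 => ?_⟩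
      exfalso
      obtain ⟨r, hr⟩ : ∃ r, r = act (M ^ k) (rv w) -
        fun i => P.lam ^ k * (pa P.ell (rv w) / pa P.ell P.u) * P.u i := ⟨_, rfl⟩
      have hrb := hd (rv w) k
      rw [← hr] at hrb
      have h2 : act (M ^ k) (rv w) = r + fun i => -(P.lam ^ k * δ) * P.u i := by
        rw [hr, hδ]
        funext i
        simp
      rw [pa_ra, h2, pa_add, pa_smul] at h1
      have h3 : pa h r ≤ pa h P.u * (U * nm r) := by
        unfold pa
        rw [Finset.sum_mul]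
        refine Finset.sum_le_sum fun i _ => ?_
        have h4 : (P.u i)⁻¹ ≤ U := by
          rw [hU]
          exact Finset.single_le_sum (f := fun i => (P.u i)⁻¹)
            (fun j _ => (inv_pos.2 (P.u_pos j)).le) (Finset.mem_univ i)
        have h5 : 1 ≤ P.u i * U := by
          have := mul_le_mul_of_nonneg_left h4 (P.u_pos i).le
          rwa [mul_inv_cancel₀ (P.u_pos i).ne'] at this
        have h6 := (le_abs_self _).trans (abs_le_nm r i)
        calc h i * r i ≤ h i * (1 * nm r) := by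
              rw [one_mul]
              exact mul_le_mul_of_nonneg_left h6 (hh i).le
          _ ≤ h i * (P.u i * U * nm r) :=
              mul_le_mul_of_nonneg_left (mul_le_mul_of_nonneg_right h5 (nm_nonneg r)) (hh i).le
          _ = h i * P.u i * (U * nm r) := by ring
      have hp := pa_pos hh P.u_pos
      have h4 : nm r ≤ C * nm (rv w) := by
        refine hrb.trans ?_
        have h5 := mul_le_mul_of_nonneg_left (rho_pow_one P k)
          (mul_nonneg hC.le (nm_nonneg (rv w)))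
        linarith
      have h5 : P.lam ^ K ≤ P.lam ^ k := pow_le_pow_right₀ P.lam_gt.le hk
      rw [div_lt_iff₀ hδ0] at hK
      have h6 : U * nm r ≤ U * (C * nm (rv w)) := mul_le_mul_of_nonneg_left h4 hU0.le
      have h7 : P.lam ^ K * δ ≤ P.lam ^ k * δ := mul_le_mul_of_nonneg_right h5 hδ0.le
      have h8 : U * nm r < P.lam ^ k * δ := by linarith
      have h9 := mul_lt_mul_of_pos_left h8 hp
      linarith

/-- images of the direction `u` under a matrix, projected along the image of a positive vector -/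
theorem dir_pow (P : PD M) : ∃ C : ℝ, 0 < C ∧ ∀ (k : ℕ) (κ : ℝ) (f : Fin (m+1) → ℝ), Cmp κ f →
    ∀ (R : Matrix (Fin (m+1)) (Fin (m+1)) ℤ) (T : ℝ), (∀ x, nm (act R x) ≤ T * nm x) →
    ∀ g : Fin (m+1) → ℝ, (∀ i, 0 < g i) → (∀ i, 0 < act (R * M ^ k) g i) →
      P.lam ^ k * nm (pj f (act (R * M ^ k) g) (act R P.u)) ≤ (1 + κ) * (T * C) := by
  obtain ⟨C, hC, hd⟩ := dec P
  have hL := pa_pos P.ell_pos P.u_pos
  have hlam : 0 < P.lam := lt_trans one_pos P.lam_gt
  have hI : 0 < ∑ i, (P.ell i)⁻¹ :=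
    Finset.sum_pos (fun i _ => inv_pos.2 (P.ell_pos i)) Finset.univ_nonempty
  refine ⟨C * ((∑ i, (P.ell i)⁻¹) * pa P.ell P.u), by positivity, ?_⟩
  intro k κ f hf R T hT g hg hgg
  have hκ := hf.one_le
  obtain ⟨α, hα⟩ : ∃ α, α = pa P.ell g / pa P.ell P.u := ⟨_, rfl⟩
  have hα0 : 0 < α := by rw [hα]; exact div_pos (pa_pos P.ell_pos hg) hL
  obtain ⟨r, hr⟩ : ∃ r, r = act (M ^ k) g - fun i => P.lam ^ k * α * P.u i := ⟨_, rfl⟩
  have hrb : nm r ≤ C * P.rho ^ k * nm g := by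
    have := hd g k
    rw [← hα, ← hr] at this
    exact this
  have ht : 0 < P.lam ^ k * α := mul_pos (pow_pos hlam k) hα0
  have h1 : (fun i => P.lam ^ k * α * act R P.u i) = act (R * M ^ k) g - act R r := by
    rw [act_mul, ← act_smul', ← act_sub']
    congr 1
    rw [hr]
    simp
  have h2 : (fun i => P.lam ^ k * α * pj f (act (R * M ^ k) g) (act R P.u) i) =
      -pj f (act (R * M ^ k) g) (act R r) := by
    rw [← pj_smul, h1, pj_sub, pj_self _ _ (pa_pos hf.1 hgg).ne']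
    simp
  have h3 : P.lam ^ k * α * nm (pj f (act (R * M ^ k) g) (act R P.u)) ≤
      (1 + κ) * (T * (C * nm g)) := by
    have h4 := congrArg nm h2
    rw [nm_smul, nm_neg, abs_of_pos ht] at h4
    rw [h4]
    refine (nm_pj hf hgg _).trans (mul_le_mul_of_nonneg_left ?_ (by linarith))
    have hT0 : 0 ≤ T := by
      have h5 := (nm_nonneg _).trans (hT P.u)
      rw [nm_pos_eq P.u_pos, P.u_sum, mul_one] at h5
      exact h5
    refine (hT r).trans (mul_le_mul_of_nonneg_left (hrb.trans ?_) hT0)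
    have h5 := mul_le_mul_of_nonneg_left (rho_pow_one P k) (mul_nonneg hC.le (nm_nonneg g))
    linarith
  have h4 : nm g ≤ (∑ i, (P.ell i)⁻¹) * pa P.ell P.u * α := by
    have h5 := nm_le_pa P.ell_pos hg
    rw [hα]
    have h6 : (∑ i, (P.ell i)⁻¹) * pa P.ell P.u * (pa P.ell g / pa P.ell P.u) =
        (∑ i, (P.ell i)⁻¹) * pa P.ell g := by
      field_simp
    rw [h6]
    exact h5
  have hT0 : 0 ≤ T := by
    have h5 := (nm_nonneg _).trans (hT P.u)
    rw [nm_pos_eq P.u_pos, P.u_sum, mul_one] at h5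
    exact h5
  have h5 : (1 + κ) * (T * (C * nm g)) ≤
      (1 + κ) * (T * (C * ((∑ i, (P.ell i)⁻¹) * pa P.ell P.u))) * α := by
    have h6 := mul_le_mul_of_nonneg_left h4 (by positivity : 0 ≤ (1 + κ) * (T * C))
    linarith
  have h6 := h3.trans h5
  have h7 : α * (P.lam ^ k * nm (pj f (act (R * M ^ k) g) (act R P.u))) ≤
      α * ((1 + κ) * (T * (C * ((∑ i, (P.ell i)⁻¹) * pa P.ell P.u)))) := by linarith
  exact le_of_mul_le_mul_left h7 hα0

end Pool.Agent.R889.PZ
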