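import Pool.Agent.R889.PZ.NBase

/-!
Compositions of blocks.
-/

set_option autoImplicit false

namespace Pool.Agent.R889.PZ
open Pool.Agent.H812R2.PI Pool.Agent.TH100.Pisot
open scoped BigOperators

variable {m : ℕ}

/-- blocks -/
structure Blk (κ E Q : ℝ) (τ : Fin (m+1) → List (Fin (m+1))) : Prop where
  cmp : ∀ f : Fin (m+1) → ℝ, (∀ i, 0 < f i) → Cmp κ (ra f (inc τ))
  con : ∀ f : Fin (m+1) → ℝ, (∀ i, 0 < f i) → ∀ z, pa (ra f (inc τ)) z = 0 →
    nm (act (inc τ) z) ≤ 1 / 2 * nm z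
  pre : ∀ f : Fin (m+1) → ℝ, Cmp κ f → ∀ g : Fin (m+1) → ℝ, (∀ i, 0 < g i) → ∀ c j,
    nm (pj f (act (inc τ) g) (rv (ab ((τ c).take j)))) ≤ E
  big : ∀ i j, Q ≤ ((inc τ i j : ℤ) : ℝ)

theorem inc_nonneg (τ : Fin (m+1) → List (Fin (m+1))) (i j : Fin (m+1)) : 0 ≤ inc τ i j := by
  unfold inc
  positivity

variable {κ E Q : ℝ}

theorem Blk.one_le (hQ : 0 < Q) {τ : Fin (m+1) → List (Fin (m+1))} (h : Blk κ E Q τ)
    (i j : Fin (m+1)) : 1 ≤ inc τ i j := by
  have h1 := lt_of_lt_of_le hQ (h.big i j)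
  have h2 : 0 < inc τ i j := by exact_mod_cast h1
  omega

theorem act_pos {A : Matrix (Fin (m+1)) (Fin (m+1)) ℤ} (hA : ∀ i j, 1 ≤ A i j)
    {g : Fin (m+1) → ℝ} (hg : ∀ i, 0 < g i) (i : Fin (m+1)) : 0 < act A g i := by
  refine Finset.sum_pos (fun j _ => mul_pos ?_ (hg j)) Finset.univ_nonempty
  exact_mod_cast lt_of_lt_of_le one_pos (hA i j)

theorem ra_pos {A : Matrix (Fin (m+1)) (Fin (m+1)) ℤ} (hA : ∀ i j, 1 ≤ A i j)
    {f : Fin (m+1) → ℝ} (hf : ∀ i, 0 < f i) (j : Fin (m+1)) : 0 < ra f A j := by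
  refine Finset.sum_pos (fun i _ => mul_pos (hf i) ?_) Finset.univ_nonempty
  exact_mod_cast lt_of_lt_of_le one_pos (hA i j)

theorem mul_big {A B : Matrix (Fin (m+1)) (Fin (m+1)) ℤ} (hA : ∀ i j, Q ≤ (A i j : ℝ))
    (hQ : 0 < Q) (hB : ∀ i j, 1 ≤ B i j) (i j : Fin (m+1)) : Q ≤ ((A * B) i j : ℝ) := by
  rw [Matrix.mul_apply]
  push_cast
  have h1 : ∀ l, 0 ≤ (A i l : ℝ) * (B l j : ℝ) := fun l => by
    refine mul_nonneg (hQ.le.trans (hA i l)) ?_
    exact_mod_cast zero_le_one.trans (hB l j)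
  have h2 : (A i 0 : ℝ) * (B 0 j : ℝ) ≤ ∑ l, (A i l : ℝ) * (B l j : ℝ) :=
    Finset.single_le_sum (f := fun l => (A i l : ℝ) * (B l j : ℝ)) (fun l _ => h1 l)
      (Finset.mem_univ 0)
  have h3 : (1:ℝ) ≤ (B 0 j : ℝ) := by exact_mod_cast hB 0 j
  have h4 := hA i 0
  nlinarith

/-- entries of compositions of blocks -/
theorem list_big (hQ : 0 < Q) (l : List (Fin (m+1) → List (Fin (m+1))))
    (hl : ∀ τ ∈ l, Blk κ E Q τ) (hne : l ≠ []) :
    ∀ i j, Q ≤ ((inc (compList l) i j : ℤ) : ℝ) := by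
  induction l with
  | nil => exact absurd rfl hne
  | cons τ l ih =>
    simp only [compList]
    rw [inc_comp]
    have h0 := hl τ (List.mem_cons_self ..)
    rcases l with _ | ⟨τ', l'⟩
    · simp only [compList]
      rw [JComp_inc_id, mul_one]
      exact h0.big
    · have h1 := ih (fun τ' h => hl τ' (List.mem_cons_of_mem _ h)) (by simp)
      refine mul_big h0.big hQ fun i j => ?_
      have h2 := lt_of_lt_of_le hQ (h1 i j)
      have h3 : 0 < inc (compList (τ' :: l')) i j := by exact_mod_cast h2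
      omega

theorem list_pos (hQ : 0 < Q) (l : List (Fin (m+1) → List (Fin (m+1))))
    (hl : ∀ τ ∈ l, Blk κ E Q τ) {g : Fin (m+1) → ℝ} (hg : ∀ i, 0 < g i) :
    ∀ i, 0 < act (inc (compList l)) g i := by
  rcases l with _ | ⟨τ', l'⟩
  · simp only [compList]
    rw [JComp_inc_id, act_one]
    exact hg
  · refine act_pos (fun i j => ?_) hg
    have h2 := lt_of_lt_of_le hQ (list_big hQ _ hl (by simp) i j)
    have h3 : 0 < inc (compList (τ' :: l')) i j := by exact_mod_cast h2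
    omega

theorem list_rpos (hQ : 0 < Q) (l : List (Fin (m+1) → List (Fin (m+1))))
    (hl : ∀ τ ∈ l, Blk κ E Q τ) {f : Fin (m+1) → ℝ} (hf : ∀ i, 0 < f i) :
    ∀ i, 0 < ra f (inc (compList l)) i := by
  rcases l with _ | ⟨τ', l'⟩
  · simp only [compList]
    rw [JComp_inc_id, ra_one]
    exact hf
  · refine ra_pos (fun i j => ?_) hf
    have h2 := lt_of_lt_of_le hQ (list_big hQ _ hl (by simp) i j)
    have h3 : 0 < inc (compList (τ' :: l')) i j := by exact_mod_cast h2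
    omega

theorem list_con (l : List (Fin (m+1) → List (Fin (m+1))))
    (hl : ∀ τ ∈ l, Blk κ E Q τ) : ∀ f : Fin (m+1) → ℝ, (∀ i, 0 < f i) → ∀ z,
    pa (ra f (inc (compList l))) z = 0 → nm (act (inc (compList l)) z) ≤ nm z ∧
      (l ≠ [] → nm (act (inc (compList l)) z) ≤ 1 / 2 * nm z) := by
  induction l with
  | nil =>
    intro f hf z hz
    simp only [compList]
    rw [JComp_inc_id, act_one]
    exact ⟨le_rfl, fun h => absurd rfl h⟩
  | cons τ l ih =>
    intro f hf z hz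
    simp only [compList] at hz ⊢
    rw [inc_comp] at hz ⊢
    have h0 := hl τ (List.mem_cons_self ..)
    have hf' := (h0.cmp f hf).1
    rw [ra_mul] at hz
    have h1 := (ih (fun τ' h => hl τ' (List.mem_cons_of_mem _ h)) _ hf' z hz).1
    rw [act_mul]
    rw [pa_ra] at hz
    have h2 := h0.con f hf _ hz
    have h3 := nm_nonneg (act (inc (compList l)) z)
    exact ⟨by linarith, fun _ => by linarith⟩

theorem list_pre (hQ : 0 < Q) (hE : 1 + κ ≤ E) (l : List (Fin (m+1) → List (Fin (m+1))))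
    (hl : ∀ τ ∈ l, Blk κ E Q τ) : ∀ f : Fin (m+1) → ℝ, Cmp κ f → ∀ g : Fin (m+1) → ℝ,
    (∀ i, 0 < g i) → ∀ c j,
    nm (pj f (act (inc (compList l)) g) (rv (ab ((compList l c).take j)))) ≤ 2 * E := by
  induction l with
  | nil =>
    intro f hf g hg c j
    have hκ := hf.one_le
    simp only [compList]
    rw [JComp_inc_id, act_one]
    refine (nm_pj hf hg _).trans ?_
    rw [nm_rv_ab]
    have h1 : ((([c] : List (Fin (m+1))).take j).length : ℝ) ≤ 1 := by
      have : (([c] : List (Fin (m+1))).take j).length ≤ 1 := by simp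
      exact_mod_cast this
    have h2 := mul_le_mul_of_nonneg_left h1 (by linarith : 0 ≤ 1 + κ)
    linarith
  | cons τ l ih =>
    intro f hf g hg c j
    have h0 := hl τ (List.mem_cons_self ..)
    have hl' : ∀ τ' ∈ l, Blk κ E Q τ' := fun τ' h => hl τ' (List.mem_cons_of_mem _ h)
    have hf' := h0.cmp f hf.1
    have hg' := list_pos hQ l hl' hg
    simp only [compList, comp]
    rw [inc_comp, act_mul]
    rcases DBd_take_ext τ (compList l c) j with h | ⟨i, j', b, h⟩
    · rw [h, ab_nil, rv_zero]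
      have h1 : pj f (act (inc τ) (act (inc (compList l)) g)) 0 = 0 := by
        funext i
        simp [pj, pa]
      rw [h1, nm_zero]
      have := hf.one_le
      linarith
    · rw [h, ab_append, ab_ext, rv_add, pj_add, rv_mulVec, ← pj_comm]
      refine (nm_add _ _).trans ?_
      have h1 := h0.con f hf.1 (pj (ra f (inc τ)) (act (inc (compList l)) g)
        (rv (ab ((compList l c).take i)))) (pa_pj _ _ _ (pa_pos hf'.1 hg').ne')
      have h2 := ih hl' _ hf' g hg c i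
      have h3 := h0.pre f hf _ hg' b j'
      linarith

end Pool.Agent.R889.PZ
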