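import Pool.Agent.R889.PZ.UMain

/-!
Examples of uniformly Pisot families: powers of one matrix, and blocks.
-/

set_option autoImplicit false

namespace Pool.Agent.R889.PZ
open Pool.Agent.H812R2.PI Pool.Agent.TH100.Pisot
open scoped BigOperators

variable {m : ℕ} {ι : Type} {κ E Q : ℝ}

theorem exists_orth (y : Fin (m+1) → ℝ) (h1 : ∃ i, 0 < y i) (h2 : ∃ i, y i < 0) :
    ∃ h : Fin (m+1) → ℝ, (∀ i, 0 < h i) ∧ pa h y = 0 := by
  classical
  have key : ∀ (j : Fin (m+1)) (t : ℝ), pa (fun i => 1 + if i = j then t else 0) y =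
      ∑ i, y i + t * y j := by
    intro j t
    unfold pa
    have h3 : ∀ i, (1 + if i = j then t else 0) * y i = y i + if i = j then t * y i else 0 := by
      intro i
      split_ifs <;> ring
    rw [Finset.sum_congr rfl fun i _ => h3 i, Finset.sum_add_distrib,
      Finset.sum_ite_eq' Finset.univ j (fun i => t * y i)]
    simp
  obtain ⟨i, hi⟩ := h1
  obtain ⟨j, hj⟩ := h2
  rcases le_total 0 (∑ i, y i) with hs | hs
  · refine ⟨fun l => 1 + if l = j then (∑ i, y i) / (-y j) else 0, fun l => ?_, ?_⟩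
    · have : 0 ≤ (∑ i, y i) / (-y j) := div_nonneg hs (by linarith)
      simp only
      split_ifs <;> linarith
    · rw [key, div_neg, neg_mul, div_mul_cancel₀ _ hj.ne]
      ring
  · refine ⟨fun l => 1 + if l = i then (-∑ i, y i) / (y i) else 0, fun l => ?_, ?_⟩
    · have : 0 ≤ (-∑ i, y i) / (y i) := div_nonneg (by linarith) hi.le
      simp only
      split_ifs <;> linarith
    · rw [key, div_mul_cancel₀ _ hi.ne']
      ring

theorem inc_powers {M : Matrix (Fin (m+1)) (Fin (m+1)) ℤ} (F : ι → Fin (m+1) → List (Fin (m+1)))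
    (e : ι → ℕ) (he : ∀ i, 1 ≤ e i ∧ inc (F i) = M ^ e i) (w : List ι) :
    ∃ k, w.length ≤ k ∧ inc (compList (w.map F)) = M ^ k := by
  induction w with
  | nil => exact ⟨0, le_rfl, by rw [pow_zero]; exact JComp_inc_id⟩
  | cons i w ih =>
    obtain ⟨k, hk, h⟩ := ih
    refine ⟨e i + k, ?_, ?_⟩
    · have := (he i).1
      rw [List.length_cons]
      omega
    · simp only [List.map_cons, compList]
      rw [inc_comp, (he i).2, h, pow_add]

/-- families whose incidence matrices are powers of one Pisot matrix are uniformly Pisot -/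
theorem unif_of_powers {M : Matrix (Fin (m+1)) (Fin (m+1)) ℤ} (P : PD M)
    (F : ι → Fin (m+1) → List (Fin (m+1))) (e : ι → ℕ)
    (he : ∀ i, 1 ≤ e i ∧ inc (F i) = M ^ e i) : UnifPisot F := by
  obtain ⟨K, hK⟩ := big_pow P 1
  obtain ⟨C, hC, hcon⟩ := con_pow P
  refine ⟨⟨K, fun w hw i j => ?_⟩, C, P.rho, P.rho_nonneg, P.rho_lt, fun w z h1 h2 => ?_⟩
  · obtain ⟨k, hk, h⟩ := inc_powers F e he w
    have h3 := hK k (hw.trans hk) i j
    rw [h]
    have h4 : (0:ℝ) < (((M ^ k) i j : ℤ) : ℝ) := by linarith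
    exact_mod_cast h4
  · obtain ⟨k, hk, h⟩ := inc_powers F e he w
    rw [h] at h1 h2 ⊢
    obtain ⟨f, hf, hf0⟩ := exists_orth _ h1 h2
    rw [← pa_ra] at hf0
    refine (hcon k f hf z hf0).trans ?_
    have h3 : P.rho ^ k ≤ P.rho ^ w.length :=
      pow_le_pow_of_le_one P.rho_nonneg P.rho_lt.le hk
    exact mul_le_mul_of_nonneg_right (mul_le_mul_of_nonneg_left h3 hC.le) (nm_nonneg z)

theorem list_con_exp (l : List (Fin (m+1) → List (Fin (m+1))))
    (hl : ∀ τ ∈ l, Blk κ E Q τ) : ∀ f : Fin (m+1) → ℝ, (∀ i, 0 < f i) → ∀ z,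
    pa (ra f (inc (compList l))) z = 0 →
      nm (act (inc (compList l)) z) ≤ (1 / 2) ^ l.length * nm z := by
  induction l with
  | nil =>
    intro f hf z hz
    simp only [compList]
    rw [JComp_inc_id, act_one]
    simp
  | cons τ l ih =>
    intro f hf z hz
    simp only [compList] at hz ⊢
    rw [inc_comp] at hz ⊢
    have h0 := hl τ (List.mem_cons_self ..)
    have hf' := (h0.cmp f hf).1
    rw [ra_mul] at hz
    have h1 := ih (fun τ' h => hl τ' (List.mem_cons_of_mem _ h)) _ hf' z hz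
    rw [act_mul]
    rw [pa_ra] at hz
    have h2 := h0.con f hf _ hz
    rw [List.length_cons, pow_succ]
    linarith

/-- block families are uniformly Pisot: for every Pisot matrix `M`, all `T` and `B` there is `K`
such that all families of substitutions `ρ ∘ τ`, where `ρ` has determinant `± 1` and size at most
`T` and `τ` has incidence matrix `M ^ k`, `k ≥ K`, and discrepancy at most `B`, are uniformly
Pisot -/
theorem unif_of_blocks {M : Matrix (Fin (m+1)) (Fin (m+1)) ℤ} (P : PD M) (T : ℕ) (B : ℝ) :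
    ∃ K : ℕ, ∀ F : ι → Fin (m+1) → List (Fin (m+1)),
      (∀ i, ∃ (ρ τ : Fin (m+1) → List (Fin (m+1))) (k : ℕ), F i = comp ρ τ ∧
        (inc ρ).det ≠ 0 ∧ (∀ a, (ρ a).length ≤ T) ∧ K ≤ k ∧ τ ∈ SubSet P.u (M ^ k) B) →
      UnifPisot F := by
  obtain ⟨κ₀, hκ₀, h1⟩ := blk_sub P T (P.c * |B|)
  obtain ⟨E₀, hE₀, h2⟩ := h1 κ₀ le_rfl
  obtain ⟨K, hK⟩ := h2 E₀ le_rfl 1
  refine ⟨K, fun F hF => ?_⟩
  have hb : ∀ i, Blk κ₀ E₀ 1 (F i) := by
    intro i
    obtain ⟨ρ, τ, k, h3, h4, h5, h6, h7⟩ := hF i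
    rw [h3]
    exact hK k h6 ρ h4 h5 τ h7.1 fun a j =>
      GFin_dis_N P |B| (abs_nonneg B) _ ((h7.2 a j).trans (sq_abs B).ge)
  have hbl : ∀ w : List ι, ∀ τ ∈ w.map F, Blk κ₀ E₀ 1 τ := by
    intro w τ hτ
    obtain ⟨i, -, rfl⟩ := List.mem_map.1 hτ
    exact hb i
  refine ⟨⟨1, fun w hw i j => ?_⟩, 1, 1 / 2, by norm_num, by norm_num, fun w z h1 h2 => ?_⟩
  · have h3 := list_big one_pos (w.map F) (hbl w) (by
      intro h
      rw [List.map_eq_nil_iff.1 h] at hw
      simp at hw) i j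
    have h4 : (0:ℝ) < ((inc (compList (w.map F)) i j : ℤ) : ℝ) := by linarith
    exact_mod_cast h4
  · obtain ⟨f, hf, hf0⟩ := exists_orth _ h1 h2
    rw [← pa_ra] at hf0
    have h3 := list_con_exp (w.map F) (hbl w) f hf z hf0
    rw [List.length_map] at h3
    rw [one_mul]
    exact h3

end Pool.Agent.R889.PZ
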