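import Pool.Agent.R889.PZ.NMain

/-!
Uniformly Pisot families.
-/

set_option autoImplicit false

namespace Pool.Agent.R889.PZ
open Pool.Agent.H812R2.PI Pool.Agent.TH100.Pisot
open scoped BigOperators

variable {m : ℕ} {ι : Type}

/-- A family of substitutions is uniformly Pisot if long compositions have positive incidence
matrices and, up to a constant, contract exponentially all vectors whose images have entries of both
signs. -/
def UnifPisot (F : ι → Fin (m+1) → List (Fin (m+1))) : Prop :=
  (∃ N : ℕ, ∀ w : List ι, N ≤ w.length → ∀ i j, 0 < inc (compList (w.map F)) i j) ∧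
  ∃ C θ : ℝ, 0 ≤ θ ∧ θ < 1 ∧ ∀ (w : List ι) (z : Fin (m+1) → ℝ),
    (∃ i, 0 < act (inc (compList (w.map F))) z i) →
    (∃ i, act (inc (compList (w.map F))) z i < 0) →
      nm (act (inc (compList (w.map F))) z) ≤ C * θ ^ w.length * nm z

theorem comp_map_append (F : ι → Fin (m+1) → List (Fin (m+1))) (w1 w2 : List ι) :
    compList ((w1 ++ w2).map F) = comp (compList (w1.map F)) (compList (w2.map F)) := by
  rw [List.map_append, compList_append]

theorem word_det (F : ι → Fin (m+1) → List (Fin (m+1)))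
    (hdet : ∀ i, (inc (F i)).det = 1 ∨ (inc (F i)).det = -1) (w : List ι) :
    (inc (compList (w.map F))).det = 1 ∨ (inc (compList (w.map F))).det = -1 := by
  refine list_det _ fun τ hτ => ?_
  obtain ⟨i, -, rfl⟩ := List.mem_map.1 hτ
  exact hdet i

theorem word_det_ne (F : ι → Fin (m+1) → List (Fin (m+1)))
    (hdet : ∀ i, (inc (F i)).det = 1 ∨ (inc (F i)).det = -1) (w : List ι) :
    (inc (compList (w.map F))).det ≠ 0 := by
  rcases word_det F hdet w with h | h <;> rw [h] <;> norm_num

theorem word_ne_nil (F : ι → Fin (m+1) → List (Fin (m+1)))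
    (hdet : ∀ i, (inc (F i)).det = 1 ∨ (inc (F i)).det = -1) (w : List ι) (a : Fin (m+1)) :
    compList (w.map F) a ≠ [] :=
  ne_nil_of_rpos (f := fun _ => 1) (col_pos _ (word_det_ne F hdet w) fun _ => one_pos) a

/-- vectors orthogonal to a positive vector -/
theorem mixed {f y : Fin (m+1) → ℝ} (hf : ∀ i, 0 < f i) (h : pa f y = 0) (hy : y ≠ 0) :
    (∃ i, 0 < y i) ∧ ∃ i, y i < 0 := by
  have hex : ∃ i, y i ≠ 0 := by
    by_contra hcon
    push Not at hcon
    exact hy (funext hcon)
  obtain ⟨i0, hi0⟩ := hex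
  constructor
  · by_contra hcon
    push Not at hcon
    have h1 : pa f y < 0 := by
      have h2 : 0 < ∑ i, f i * (-y i) := by
        refine Finset.sum_pos' (fun i _ => mul_nonneg (hf i).le (by linarith [hcon i]))
          ⟨i0, Finset.mem_univ _, mul_pos (hf i0) ?_⟩
        have := lt_of_le_of_ne (hcon i0) hi0
        linarith
      have h3 : pa f y = -∑ i, f i * (-y i) := by
        unfold pa
        rw [← Finset.sum_neg_distrib]
        exact Finset.sum_congr rfl fun i _ => by ring
      rw [h3]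
      linarith
    linarith
  · by_contra hcon
    push Not at hcon
    have h1 : 0 < pa f y := by
      refine Finset.sum_pos' (fun i _ => mul_nonneg (hf i).le (hcon i))
        ⟨i0, Finset.mem_univ _, mul_pos (hf i0) ?_⟩
      exact lt_of_le_of_ne (hcon i0) (Ne.symm hi0)
    linarith

theorem word_con (F : ι → Fin (m+1) → List (Fin (m+1))) (C θ : ℝ)
    (hC : ∀ (w : List ι) (z : Fin (m+1) → ℝ),
      (∃ i, 0 < act (inc (compList (w.map F))) z i) →
      (∃ i, act (inc (compList (w.map F))) z i < 0) →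
        nm (act (inc (compList (w.map F))) z) ≤ C * θ ^ w.length * nm z)
    (w : List ι) (hw : C * θ ^ w.length ≤ 1 / 2) (f : Fin (m+1) → ℝ) (hf : ∀ i, 0 < f i)
    (z : Fin (m+1) → ℝ) (hz : pa (ra f (inc (compList (w.map F)))) z = 0) :
    nm (act (inc (compList (w.map F))) z) ≤ 1 / 2 * nm z := by
  rw [pa_ra] at hz
  by_cases hy : act (inc (compList (w.map F))) z = 0
  · rw [hy, nm_zero]
    have := nm_nonneg z
    positivity
  · obtain ⟨h1, h2⟩ := mixed hf hz hy
    exact (hC w z h1 h2).trans (mul_le_mul_of_nonneg_right hw (nm_nonneg z))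

theorem word_cmp [Fintype ι] (F : ι → Fin (m+1) → List (Fin (m+1)))
    (hdet : ∀ i, (inc (F i)).det = 1 ∨ (inc (F i)).det = -1) (N : ℕ)
    (hN : ∀ w : List ι, N ≤ w.length → ∀ i j, 0 < inc (compList (w.map F)) i j) :
    ∃ κ : ℝ, ∀ w : List ι, N ≤ w.length → ∀ f : Fin (m+1) → ℝ, (∀ i, 0 < f i) →
      Cmp κ (ra f (inc (compList (w.map F)))) := by
  classical
  obtain ⟨G, hG⟩ : ∃ G : (Fin N → ι) → Fin (m+1) → Fin (m+1) → Fin (m+1) → ℝ,
      G = fun v l i j => ((inc (compList ((List.ofFn v).map F)) l i : ℤ) : ℝ) /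
        ((inc (compList ((List.ofFn v).map F)) l j : ℤ) : ℝ) := ⟨_, rfl⟩
  have hpos : ∀ (v : Fin N → ι) (l i : Fin (m+1)),
      0 < ((inc (compList ((List.ofFn v).map F)) l i : ℤ) : ℝ) := by
    intro v l i
    exact_mod_cast hN (List.ofFn v) (by rw [List.length_ofFn]) l i
  have hG0 : ∀ v l i j, 0 ≤ G v l i j := by
    intro v l i j
    rw [hG]
    exact (div_pos (hpos v l i) (hpos v l j)).le
  obtain ⟨κ, hκ⟩ : ∃ κ : ℝ, κ = ∑ v, ∑ l, ∑ i, ∑ j, G v l i j := ⟨_, rfl⟩
  refine ⟨κ, fun w hw f hf => ?_⟩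
  obtain ⟨w1, w2, hw12, hw2⟩ : ∃ w1 w2 : List ι, w = w1 ++ w2 ∧ w2.length = N :=
    ⟨w.take (w.length - N), w.drop (w.length - N), (List.take_append_drop _ _).symm, by
      rw [List.length_drop]; omega⟩
  subst hw12
  obtain ⟨v, hv⟩ : ∃ v : Fin N → ι, List.ofFn v = w2 := by
    subst hw2
    exact ⟨w2.get, List.ofFn_get w2⟩
  have hf' := col_pos _ (word_det_ne F hdet w1) hf
  rw [comp_map_append, inc_comp, ra_mul, ← hv]
  obtain ⟨h', hh'⟩ : ∃ h', h' = ra f (inc (compList (w1.map F))) := ⟨_, rfl⟩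
  rw [← hh'] at hf' ⊢
  refine ⟨fun j => Finset.sum_pos (fun l _ => mul_pos (hf' l) (hpos v l j)) Finset.univ_nonempty,
    fun i j => ?_⟩
  have h1 : ∀ l, ((inc (compList ((List.ofFn v).map F)) l i : ℤ) : ℝ) ≤
      κ * ((inc (compList ((List.ofFn v).map F)) l j : ℤ) : ℝ) := by
    intro l
    have h2 : G v l i j ≤ κ := by
      rw [hκ]
      refine le_trans ?_ (Finset.single_le_sum (f := fun v => ∑ l, ∑ i, ∑ j, G v l i j)
        (fun v _ => Finset.sum_nonneg fun l _ => Finset.sum_nonneg fun i _ =>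
          Finset.sum_nonneg fun j _ => hG0 v l i j) (Finset.mem_univ v))
      refine le_trans ?_ (Finset.single_le_sum (f := fun l => ∑ i, ∑ j, G v l i j)
        (fun l _ => Finset.sum_nonneg fun i _ =>
          Finset.sum_nonneg fun j _ => hG0 v l i j) (Finset.mem_univ l))
      refine le_trans ?_ (Finset.single_le_sum (f := fun i => ∑ j, G v l i j)
        (fun i _ => Finset.sum_nonneg fun j _ => hG0 v l i j) (Finset.mem_univ i))
      exact Finset.single_le_sum (f := fun j => G v l i j)
        (fun j _ => hG0 v l i j) (Finset.mem_univ j)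
    have h3 := mul_le_mul_of_nonneg_right h2 (hpos v l j).le
    have h4 : G v l i j * ((inc (compList ((List.ofFn v).map F)) l j : ℤ) : ℝ) =
        ((inc (compList ((List.ofFn v).map F)) l i : ℤ) : ℝ) := by
      rw [hG]
      exact div_mul_cancel₀ _ (hpos v l j).ne'
    rw [h4] at h3
    exact h3
  unfold ra
  rw [Finset.mul_sum]
  refine Finset.sum_le_sum fun l _ => ?_
  have h5 := mul_le_mul_of_nonneg_left (h1 l) (hf' l).le
  linarith

theorem word_big (hm : 1 ≤ m) (F : ι → Fin (m+1) → List (Fin (m+1))) (N : ℕ)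
    (hN : ∀ w : List ι, N ≤ w.length → ∀ i j, 0 < inc (compList (w.map F)) i j) (Q : ℝ) :
    ∃ L : ℕ, ∀ w : List ι, L ≤ w.length → ∀ i j,
      Q ≤ ((inc (compList (w.map F)) i j : ℤ) : ℝ) := by
  have key : ∀ q : ℕ, ∀ w : List ι, (q + 1) * (N + 1) ≤ w.length → ∀ i j,
      (2:ℤ) ^ q ≤ inc (compList (w.map F)) i j := by
    intro q
    induction q with
    | zero =>
      intro w hw i j
      have := hN w (by omega) i j
      rw [pow_zero]
      omega
    | succ q ih =>
      intro w hw i j
      obtain ⟨w1, w2, hw12, hw1, hw2⟩ : ∃ w1 w2 : List ι, w = w1 ++ w2 ∧ N ≤ w1.length ∧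
          (q + 1) * (N + 1) ≤ w2.length := by
        have e : (q + 1 + 1) * (N + 1) = (q + 1) * (N + 1) + (N + 1) := by ring
        refine ⟨w.take (N + 1), w.drop (N + 1), (List.take_append_drop _ _).symm, ?_, ?_⟩
        · rw [List.length_take]
          omega
        · rw [List.length_drop]
          omega
      subst hw12
      rw [comp_map_append, inc_comp, Matrix.mul_apply]
      have h1 : ∀ l, (2:ℤ) ^ q ≤ inc (compList (w1.map F)) i l * inc (compList (w2.map F)) l j := by
        intro l
        have h2 := hN w1 hw1 i l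
        have h3 := ih w2 hw2 l j
        have h4 : (0:ℤ) ≤ 2 ^ q := by positivity
        nlinarith
      have h2 : ∑ _l : Fin (m+1), (2:ℤ) ^ q ≤
          ∑ l, inc (compList (w1.map F)) i l * inc (compList (w2.map F)) l j :=
        Finset.sum_le_sum fun l _ => h1 l
      rw [Finset.sum_const, Finset.card_univ, Fintype.card_fin, nsmul_eq_mul] at h2
      refine le_trans ?_ h2
      rw [pow_succ, mul_comm]
      have h4 : (0:ℤ) ≤ 2 ^ q := by positivity
      refine mul_le_mul_of_nonneg_right ?_ h4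
      push_cast
      have : (1:ℤ) ≤ m := by exact_mod_cast hm
      linarith
  obtain ⟨q, hq⟩ := pow_unbounded_of_one_lt Q (one_lt_two)
  refine ⟨(q + 1) * (N + 1), fun w hw i j => ?_⟩
  have h1 := key q w hw i j
  have h2 : ((2:ℝ)) ^ q ≤ ((inc (compList (w.map F)) i j : ℤ) : ℝ) := by exact_mod_cast h1
  linarith

theorem word_len (F : ι → Fin (m+1) → List (Fin (m+1))) (T : ℕ) (hT1 : 1 ≤ T)
    (hT : ∀ i a, (F i a).length ≤ T) (w : List ι) (c : Fin (m+1)) :
    ((compList (w.map F) c).length : ℝ) ≤ (T:ℝ) ^ w.length := by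
  induction w with
  | nil => simp [compList]
  | cons i w ih =>
    simp only [List.map_cons, compList, comp, List.length_cons]
    rw [← nm_rv_ab, ab_ext, rv_mulVec]
    refine (nm_act_le (F i) T (hT i) _).trans ?_
    rw [nm_rv_ab, pow_succ, mul_comm]
    exact mul_le_mul_of_nonneg_right ih (Nat.cast_nonneg T)

theorem decomp (L : ℕ) (hL : 1 ≤ L) : ∀ (n : ℕ) (w : List ι), w.length = n → L ≤ w.length →
    ∃ ws : List (List ι), ws ≠ [] ∧ w = ws.flatten ∧ ∀ v ∈ ws, L ≤ v.length ∧ v.length < 2 * L := by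
  intro n
  induction n using Nat.strong_induction_on with
  | _ n ih =>
    intro w hwn hw
    by_cases h : w.length < 2 * L
    · exact ⟨[w], by simp, by simp, by simpa using ⟨hw, h⟩⟩
    · push Not at h
      obtain ⟨ws, hne, hws, hv⟩ := ih (w.drop L).length (by rw [List.length_drop]; omega)
        (w.drop L) rfl (by rw [List.length_drop]; omega)
      refine ⟨w.take L :: ws, by simp, ?_, ?_⟩
      · rw [List.flatten_cons, ← hws, List.take_append_drop]
      · intro v hvm
        rcases List.mem_cons.1 hvm with rfl | hvm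
        · rw [List.length_take]
          omega
        · exact hv v hvm

theorem comp_flatten (F : ι → Fin (m+1) → List (Fin (m+1))) (ws : List (List ι)) :
    compList (ws.flatten.map F) = compList (ws.map fun v => compList (v.map F)) := by
  induction ws with
  | nil => rfl
  | cons v ws ih =>
    rw [List.flatten_cons, comp_map_append, ih]
    rfl

end Pool.Agent.R889.PZ
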