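import Pool.Agent.R889.PZ.UDef
import Pool.Agent.R889.PZ.Cnt

/-!
The zero-one law for uniformly Pisot families.
-/

set_option autoImplicit false

namespace Pool.Agent.R889.PZ
open Pool.Agent.H812R2.PI Pool.Agent.TH100.Pisot
open scoped BigOperators

variable {m : ℕ} {ι : Type} {κ E Q : ℝ}

theorem Blk.mono {τ : Fin (m+1) → List (Fin (m+1))} (h : Blk κ E Q τ) {E' : ℝ} (hE : E ≤ E') :
    Blk κ E' Q τ :=
  ⟨h.cmp, h.con, fun f hf g hg c j => (h.pre f hf g hg c j).trans hE, h.big⟩

theorem blk_list (hQ : 0 < Q) (hE : 1 + κ ≤ E) (l : List (Fin (m+1) → List (Fin (m+1))))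
    (hl : ∀ τ ∈ l, Blk κ E Q τ) (hne : l ≠ []) : Blk κ (2 * E) Q (compList l) := by
  refine ⟨fun f hf => ?_, fun f hf z hz => (list_con l hl f hf z hz).2 hne,
    fun f hf g hg c j => list_pre hQ hE l hl f hf g hg c j, list_big hQ l hl hne⟩
  obtain ⟨l', τ, rfl⟩ : ∃ l' τ, l = l' ++ [τ] := by
    rcases List.eq_nil_or_concat l with h | ⟨l', τ, h⟩
    · exact absurd h hne
    · exact ⟨l', τ, by rw [h, List.concat_eq_append]⟩
  rw [ra_split]
  exact (hl τ (List.mem_append_right _ (List.mem_singleton_self τ))).cmp _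
    (list_rpos hQ l' (fun τ' h => hl τ' (List.mem_append_left _ h)) hf)

/-- all long words are compositions of blocks -/
theorem word_blocks [Fintype ι] (hm : 1 ≤ m) (F : ι → Fin (m+1) → List (Fin (m+1)))
    (hdet : ∀ i, (inc (F i)).det = 1 ∨ (inc (F i)).det = -1) (hU : UnifPisot F) :
    ∃ κ E Q : ℝ, ∃ L : ℕ, 0 < Q ∧ 1 + κ ≤ E ∧ ((m:ℝ) + 1) * (2 + κ) < Q ∧ 1 ≤ L ∧
      ∀ w : List ι, L ≤ w.length → w.length < 2 * L → Blk κ E Q (compList (w.map F)) := by
  classical
  obtain ⟨⟨N, hN⟩, C, θ, hθ0, hθ1, hC⟩ := hU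
  obtain ⟨κ, hκ⟩ := word_cmp F hdet N hN
  obtain ⟨Q, hQ⟩ : ∃ Q : ℝ, Q = ((m:ℝ) + 1) * (2 + |κ|) + 1 := ⟨_, rfl⟩
  have hm0 : (0:ℝ) ≤ m := Nat.cast_nonneg m
  have hQ0 : 0 < Q := by
    rw [hQ]
    positivity
  obtain ⟨L1, hL1⟩ := word_big hm F N hN Q
  obtain ⟨L2, hL2⟩ : ∃ L2 : ℕ, ∀ k ≥ L2, C * θ ^ k ≤ 1 / 2 := by
    have h := tendsto_pow_atTop_nhds_zero_of_lt_one hθ0 hθ1
    have h2 : Filter.Tendsto (fun k : ℕ => C * θ ^ k) Filter.atTop (nhds 0) := by
      have := h.const_mul C
      rwa [mul_zero] at this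
    exact Filter.eventually_atTop.1 ((h2.eventually (gt_mem_nhds
      (show (0:ℝ) < 1/2 by norm_num))).mono fun n hn => hn.le)
  obtain ⟨L, hL⟩ : ∃ L : ℕ, L = N + L1 + L2 + 1 := ⟨_, rfl⟩
  obtain ⟨T, hT1, hT⟩ : ∃ T : ℕ, 1 ≤ T ∧ ∀ i a, (F i a).length ≤ T := by
    refine ⟨(∑ i, ∑ a, (F i a).length) + 1, by omega, fun i a => ?_⟩
    have h1 : (F i a).length ≤ ∑ a, (F i a).length :=
      Finset.single_le_sum (f := fun a => (F i a).length) (fun _ _ => Nat.zero_le _)
        (Finset.mem_univ a)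
    have h2 : ∑ a, (F i a).length ≤ ∑ i, ∑ a, (F i a).length :=
      Finset.single_le_sum (f := fun i => ∑ a, (F i a).length) (fun _ _ => Nat.zero_le _)
        (Finset.mem_univ i)
    omega
  have hT1' : (1:ℝ) ≤ T := by exact_mod_cast hT1
  refine ⟨κ, (1 + |κ|) * (T:ℝ) ^ (2 * L), Q, L, hQ0, ?_, ?_, by omega, ?_⟩
  · have h1 : (1:ℝ) ≤ (T:ℝ) ^ (2 * L) := one_le_pow₀ hT1'
    have h2 := le_abs_self κ
    have h3 := abs_nonneg κ
    nlinarith
  · rw [hQ]
    have h2 := le_abs_self κ
    have h3 : ((m:ℝ) + 1) * (2 + κ) ≤ ((m:ℝ) + 1) * (2 + |κ|) :=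
      mul_le_mul_of_nonneg_left (by linarith) (by linarith)
    linarith
  · intro w hw hw2
    have hbig := hL1 w (by omega)
    refine ⟨hκ w (by omega), ?_, ?_, hbig⟩
    · intro f hf z hz
      exact word_con F C θ hC w (hL2 _ (by omega)) f hf z hz
    · intro f hf g hg c j
      have hgg : ∀ i, 0 < act (inc (compList (w.map F))) g i := fun i =>
        Finset.sum_pos (fun j _ => mul_pos (lt_of_lt_of_le hQ0 (hbig i j)) (hg j))
          Finset.univ_nonempty
      refine (nm_pj hf hgg _).trans ?_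
      rw [nm_rv_ab]
      have h1 : (((compList (w.map F) c).take j).length : ℝ) ≤ (T:ℝ) ^ (2 * L) := by
        have h2 : ((compList (w.map F) c).take j).length ≤ (compList (w.map F) c).length := by
          rw [List.length_take]
          exact min_le_right _ _
        have h3 : (((compList (w.map F) c).take j).length : ℝ) ≤
            ((compList (w.map F) c).length : ℝ) := by exact_mod_cast h2
        refine h3.trans ((word_len F T hT1 hT w c).trans ?_)
        exact pow_le_pow_right₀ hT1' (by omega)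
      have hκ1 := hf.one_le
      have h2 := le_abs_self κ
      exact mul_le_mul (by linarith) h1 (Nat.cast_nonneg _) (by linarith)

theorem iter_word (F : ι → Fin (m+1) → List (Fin (m+1))) (s : List ι) (n : ℕ) :
    iter (compList (s.map F)) n = compList (((List.replicate n s).flatten).map F) := by
  rw [comp_flatten, List.map_replicate]
  exact (Pool.Agent.Y316.Pisot.compList_replicate _ n).symm

/-- the geometric coincidence condition for powers -/
theorem coinc_iter {σ : Fin (m+1) → List (Fin (m+1))} (hne : ∀ n a, iter σ n a ≠ [])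
    (h : Coinc σ) (q : ℕ) (hq : 1 ≤ q) : Coinc (iter σ q) := by
  obtain ⟨lam, ell, hpos, hell, hg⟩ := h
  refine ⟨lam ^ q, ell, hpos, ?_, ?_⟩
  · have h1 : ∀ k : ℕ, ra ell ((inc σ) ^ k) = fun i => lam ^ k * ell i := by
      intro k
      induction k with
      | zero =>
        rw [pow_zero, ra_one]
        funext i
        simp
      | succ k ih =>
        have h2 : ∀ (t : ℝ) (f : Fin (m+1) → ℝ),
            ra (fun i => t * f i) (inc σ) = fun i => t * ra f (inc σ) i := by
          intro t f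
          funext j
          unfold ra
          rw [Finset.mul_sum]
          exact Finset.sum_congr rfl fun i _ => by ring
        have h3 : ra ell (inc σ) = fun i => lam * ell i := funext hell
        rw [pow_succ, ra_mul, ih, h2, h3]
        funext i
        ring
    intro j
    rw [inc_iter]
    exact congrFun (h1 q) j
  · intro a b v hO
    obtain ⟨n, e, he1, he2⟩ := hg a b v hO
    have h1 : ∃ e, e ∈ edges 0 (iter σ n a) ∧
        e ∈ edges ((inc (iter σ n)).mulVec v) (iter σ n b) := ⟨e, he1, by rw [inc_iter]; exact he2⟩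
    have h2 := persist (S := iter σ (q * n - n)) (hne _) h1
    have h3 : comp (iter σ (q * n - n)) (iter σ n) = iter (iter σ q) n := by
      rw [comp_iter]
      funext x
      rw [Pool.Agent.Y316.Pisot.iter_iter]
      congr 1
      have : n ≤ q * n := Nat.le_mul_of_pos_left _ hq
      omega
    rw [h3, inc_iter] at h2
    exact ⟨n, h2⟩

theorem flatten_replicate_add (s : List ι) (a b : ℕ) :
    (List.replicate (a + b) s).flatten =
      (List.replicate a s).flatten ++ (List.replicate b s).flatten := by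
  rw [List.replicate_add, List.flatten_append]

theorem flatten_replicate_length (s : List ι) (hs : s ≠ []) (n : ℕ) :
    n ≤ (List.replicate n s).flatten.length := by
  have h1 : 0 < s.length := List.length_pos_iff.2 hs
  induction n with
  | zero => omega
  | succ n ih =>
    rw [List.replicate_succ, List.flatten_cons, List.length_append]
    omega

/-- words with coincidences are absorbing -/
theorem word_absorb [Fintype ι] (hm : 1 ≤ m) (F : ι → Fin (m+1) → List (Fin (m+1)))
    (hdet : ∀ i, (inc (F i)).det = 1 ∨ (inc (F i)).det = -1) (hU : UnifPisot F) (s : List ι)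
    (hs : s ≠ []) (hg : Coinc (compList (s.map F))) :
    ∃ K : ℕ, ∀ k ≥ K, ∀ l₁ l₂ : List ι,
      PisotMat (inc (compList ((l₁ ++ (List.replicate k s).flatten ++ l₂).map F))) ∧
      Coinc (compList ((l₁ ++ (List.replicate k s).flatten ++ l₂).map F)) ∧
      SemiConjToral (compList ((l₁ ++ (List.replicate k s).flatten ++ l₂).map F)) := by
  obtain ⟨κ, E, Q, L, hQ0, hE, hQ, hL, hblk⟩ := word_blocks hm F hdet hU
  have hm0 : (0:ℝ) ≤ m := Nat.cast_nonneg m
  -- long words
  have hdec : ∀ w : List ι, L ≤ w.length → ∃ l : List (Fin (m+1) → List (Fin (m+1))), l ≠ [] ∧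
      compList (w.map F) = compList l ∧ (∀ τ ∈ l, Blk κ E Q τ) ∧
      ∀ τ ∈ l, (inc τ).det = 1 ∨ (inc τ).det = -1 := by
    intro w hw
    obtain ⟨ws, hne, hws, hv⟩ := decomp L hL _ w rfl hw
    refine ⟨ws.map fun v => compList (v.map F), by simpa using hne, ?_, ?_, ?_⟩
    · rw [hws, comp_flatten]
    · intro τ hτ
      obtain ⟨v, hvm, rfl⟩ := List.mem_map.1 hτ
      exact hblk v (hv v hvm).1 (hv v hvm).2
    · intro τ hτ
      obtain ⟨v, hvm, rfl⟩ := List.mem_map.1 hτ
      exact word_det F hdet v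
  have hκ : 1 ≤ κ := by
    obtain ⟨l, hne, -, hl, -⟩ := hdec (List.replicate L s).flatten
      (flatten_replicate_length s hs L)
    obtain ⟨x, hx⟩ := List.exists_mem_of_ne_nil _ hne
    exact ((hl x hx).cmp (fun _ => 1) (fun _ => one_pos)).one_le
  have hE0 : 0 < E := by linarith
  have hpis : ∀ w : List ι, L ≤ w.length → PisotMat (inc (compList (w.map F))) := by
    intro w hw
    obtain ⟨l, hne, hl1, hl2, hl3⟩ := hdec w hw
    rw [hl1]
    exact list_pisot hQ hκ l hl2 hne hl3
  -- the power of the word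
  have hne : ∀ n a, iter (compList (s.map F)) n a ≠ [] := by
    intro n a
    rw [iter_word]
    exact word_ne_nil F hdet _ a
  obtain ⟨σ, hσ⟩ : ∃ σ, σ = iter (compList (s.map F)) L := ⟨_, rfl⟩
  have hσc : Coinc σ := by
    rw [hσ]
    exact coinc_iter hne hg L hL
  have hσp : PisotMat (inc σ) := by
    rw [hσ, iter_word]
    exact hpis _ (flatten_replicate_length s hs L)
  obtain ⟨lamσ, uσ, hlamσ, huσ, hsσ⟩ := exists_u (inc σ) (inc_nonneg σ) hσp
  obtain ⟨P, -, -⟩ := exists_PD (inc σ) (inc_nonneg σ) hσp lamσ hlamσ uσ huσ hsσ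
  obtain ⟨K, hK⟩ := hb_pow P ((coinc_iff P).1 hσc)
    ((16 * (2 + (1 + κ) * (m + 1)) ^ 2 + 4) * (2 * (2 * E)) + κ)
  have hid : ∀ τ : Fin (m+1) → List (Fin (m+1)), comp (fun a => [a]) τ = τ := by
    intro τ
    funext a
    simp [comp, ext]
  have hdid : (inc (fun a : Fin (m+1) => [a])).det ≠ 0 := by
    rw [JComp_inc_id, Matrix.det_one]
    exact one_ne_zero
  have hHb := hK (K + 1) (Nat.le_succ K) _ hdid
  rw [hid] at hHb
  obtain ⟨W0, hW0⟩ : ∃ W0 : List ι, W0 = (List.replicate (L * (K + 1)) s).flatten := ⟨_, rfl⟩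
  have hτ : iter σ (K + 1) = compList (W0.map F) := by
    rw [hW0, ← iter_word, hσ]
    funext a
    exact Pool.Agent.Y316.Pisot.iter_iter _ _ _ _
  rw [hτ] at hHb
  have hW0L : L ≤ W0.length := by
    rw [hW0]
    refine le_trans ?_ (flatten_replicate_length s hs _)
    exact Nat.le_mul_of_pos_right _ (Nat.succ_pos K)
  have hblkW : Blk κ (2 * E) Q (compList (W0.map F)) := by
    obtain ⟨l, hne, hl1, hl2, -⟩ := hdec W0 hW0L
    rw [hl1]
    exact blk_list hQ0 hE l hl2 hne
  refine ⟨L + L * (K + 1) + L, fun k hk l₁ l₂ => ?_⟩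
  obtain ⟨j, hj⟩ : ∃ j, k = L + L * (K + 1) + L + j := ⟨k - (L + L * (K + 1) + L), by omega⟩
  obtain ⟨w1, hw1⟩ : ∃ w1, w1 = l₁ ++ (List.replicate L s).flatten := ⟨_, rfl⟩
  obtain ⟨w2, hw2⟩ : ∃ w2, w2 = (List.replicate (L + j) s).flatten ++ l₂ := ⟨_, rfl⟩
  have hword : l₁ ++ (List.replicate k s).flatten ++ l₂ = w1 ++ W0 ++ w2 := by
    rw [hj, hw1, hw2, hW0, show L + L * (K + 1) + L + j = L + (L * (K + 1) + (L + j)) by ring,
      flatten_replicate_add, flatten_replicate_add]
    simp [List.append_assoc]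
  rw [hword]
  have hw1L : L ≤ w1.length := by
    rw [hw1, List.length_append]
    have := flatten_replicate_length s hs L
    omega
  have hw2L : L ≤ w2.length := by
    rw [hw2, List.length_append]
    have := flatten_replicate_length s hs (L + j)
    omega
  have hpw : PisotMat (inc (compList ((w1 ++ W0 ++ w2).map F))) := by
    refine hpis _ ?_
    rw [List.length_append, List.length_append]
    omega
  obtain ⟨x1, -, hx1, hxb1, -⟩ := hdec w1 hw1L
  obtain ⟨x2, -, hx2, hxb2, -⟩ := hdec w2 hw2L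
  have hcomp : compList ((w1 ++ W0 ++ w2).map F) =
      compList (x1 ++ [compList (W0.map F)] ++ x2) := by
    rw [comp_map_append, comp_map_append, hx1, hx2, compList_append, comp_split]
  rw [hcomp] at hpw ⊢
  obtain ⟨lam', u', hlam', hu', hs'⟩ := exists_u _ (inc_nonneg _) hpw
  obtain ⟨P', -, -⟩ := exists_PD _ (inc_nonneg _) hpw lam' hlam' u' hu' hs'
  have hgood := list_good2 hQ0 (by linarith : 1 + κ ≤ 2 * E) x1 x2 (compList (W0.map F))
    (by
      intro τ' h
      rw [List.mem_append, List.mem_append] at h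
      rcases h with (h | h) | h
      · exact (hxb1 τ' h).mono (by linarith)
      · rw [List.mem_singleton.1 h]
        exact hblkW
      · exact (hxb2 τ' h).mono (by linarith)) hHb hpw P'
  exact ⟨hpw, (coinc_iff P').2 hgood.2.1, hgood.2.2⟩

end Pool.Agent.R889.PZ
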